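import Mathlib
import Pool.Agent.Lib.MP_9dd972_gt.N.Defs

/-!
# MP_9dd972_gt, bodies with homothetic sections: definitions

Space `EE (N + 1)`, first coordinate `x 0`, last coordinates `tl x`. `Rev Q K`: the sections of `K`
by the hyperplanes `x 0 = t` are multiples of `Q`. `HH Q K a b`: support function of `K` at a normal
whose first coordinate is `a` and whose last coordinates have support number `b` with respect to
`Q`. Sides `ε = 1` (right) and `ε = -1` (left).
-/

set_option autoImplicit false

namespace Pool.Agent.MP9dd972R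

open MeasureTheory Set Metric Pool.Agent.MP9dd972N
open scoped ENNReal NNReal Topology

variable {N : ℕ}

/-- The last `N` coordinates. -/
noncomputable def tl (x : EE (N + 1)) : EE N := WithLp.toLp 2 fun i => x i.succ

/-- The point with first coordinate `t` and last coordinates `y`. -/
noncomputable def pr (t : ℝ) (y : EE N) : EE (N + 1) :=
  WithLp.toLp 2 (Fin.cons t fun i => y i)

/-- The sections of `K` by the hyperplanes `x 0 = t` are of the form `r Q`. -/
def Rev (Q : Set (EE N)) (K : Set (EE (N + 1))) : Prop :=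
  ∀ x y : EE (N + 1), x 0 = y 0 → gauge Q (tl y) ≤ gauge Q (tl x) → x ∈ K → y ∈ K

/-- Support function of `K` in the variables `(u 0, hh Q (tl u))`. -/
noncomputable def HH (Q : Set (EE N)) (K : Set (EE (N + 1))) (a b : ℝ) : ℝ :=
  sSup ((fun x : EE (N + 1) => a * x 0 + b * gauge Q (tl x)) '' K)

/-- The largest section is `RR Q K • Q`. -/
noncomputable def RR (Q : Set (EE N)) (K : Set (EE (N + 1))) : ℝ := HH Q K 0 1

/-- Slope of the normal at the boundary point on the ray through `x`. -/
noncomputable def slo (Q : Set (EE N)) (ε : ℝ) (K : Set (EE (N + 1))) (x : EE (N + 1)) : ℝ :=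
  hh Q (tl (NN K x)) / (ε * NN K x 0)

/-- The measure `(ε NN_0)^+ dx` on `K`. -/
noncomputable def mu (ε : ℝ) (K : Set (EE (N + 1))) : Measure (EE (N + 1)) :=
  (volume.restrict K).withDensity fun x => ENNReal.ofReal (ε * NN K x 0)

/-- Constant: volume of `Q` divided by the dimension. -/
noncomputable def cQ (Q : Set (EE N)) : ℝ := (volume Q).toReal / (N + 1)

/-- Normalised projected surface area measure of the side `ε`, on slopes. -/
noncomputable def al (Q : Set (EE N)) (ε : ℝ) (K : Set (EE (N + 1))) : Measure ℝ :=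
  ENNReal.ofReal (cQ Q)⁻¹ • (mu ε K).map (slo Q ε K)

/-- Right derivative of the support function of the side `ε` in the slope. -/
noncomputable def rh (Q : Set (EE N)) (ε : ℝ) (K : Set (EE (N + 1))) (s : ℝ) : ℝ :=
  derivWithin (fun s => HH Q K ε s) (Ioi s) s

/-- Height of the largest section on the side `ε`. -/
noncomputable def xi (Q : Set (EE N)) (ε : ℝ) (K : Set (EE (N + 1))) : ℝ :=
  HH Q K ε 0 - ∫ s in Ioi (0 : ℝ), (RR Q K - rh Q ε K s)

/-- Good points: the gauge is differentiable, and the point is not the origin. -/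
def Good (K : Set (EE (N + 1))) (x : EE (N + 1)) : Prop :=
  DifferentiableAt ℝ (gauge K) x ∧ x ≠ 0

/-- Mean distance of `R` to `a^(1/N)` for `a` between `r^N` and `R^N`. -/
noncomputable def cc (N : ℕ) (R r : ℝ) : ℝ :=
  (R * (R ^ N - r ^ N) - N / (N + 1) * (R ^ (N + 1) - r ^ (N + 1))) / (R ^ N - r ^ N)

/-- Volume of the frustum with slope one and radii `R`, `r` (over the unit base). -/
noncomputable def vv (N : ℕ) (R r : ℝ) : ℝ := (R ^ (N + 1) - r ^ (N + 1)) / (N + 1)

/-- The data of one side of a body: `R` largest radius, `ξ` height of the largest section, `ρ s`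
radius at the slope `s`, `H s` support function at the slope `s`, `α` projected surface area
measure on slopes. -/
structure Side (N : ℕ) (R ξ : ℝ) (ρ H : ℝ → ℝ) (α : Measure ℝ) : Prop where
  R_pos : 0 < R
  mono : Monotone ρ
  nn : ∀ s, 0 ≤ ρ s
  le : ∀ s, ρ s ≤ R
  int : IntegrableOn (fun s => R - ρ s) (Ioi (0 : ℝ))
  H_eq : ∀ γ, 0 ≤ γ → H γ = ξ + R * γ + ∫ s in Ioi γ, (R - ρ s)
  H_pos : ∀ γ, 0 ≤ γ → 0 < H γ
  H_cont : Continuous H
  neg : α (Iio 0) = 0
  mass : ∀ s, 0 ≤ s → α (Iic s) = ENNReal.ofReal (ρ s ^ N)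
  tot : α univ = ENNReal.ofReal (R ^ N)
  H_int : Integrable H α

end Pool.Agent.MP9dd972R
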