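import Mathlib
import Pool.Agent.Lib.MP_9dd972_gt_R.Defs

/-!
# MP_9dd972_gt, bodies with homothetic sections: functions invariant about two axes
-/

set_option autoImplicit false

namespace Pool.Agent.MP9dd972R

open MeasureTheory Set Metric Pool.Agent.MP9dd972N
open scoped ENNReal NNReal Topology Pointwise

private theorem Axs_refl {N : ℕ} {v : EE N} {φ : EE N → ℂ}
    (h1 : ∀ T : EE N ≃ₗᵢ[ℝ] EE N, T v = v → ∀ x, φ (T x) = φ x)
    {x y : EE N} (hx : ‖x‖ = 1) (hy : ‖y‖ = 1) (h : (inner ℝ x v : ℝ) = inner ℝ y v) :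
    φ x = φ y := by
  have e := Submodule.reflection_sub (v := x) (w := y) (by rw [hx, hy])
  have hv : (Submodule.span ℝ {x - y})ᗮ.reflection v = v := by
    rw [Submodule.reflection_eq_self_iff, Submodule.mem_orthogonal_singleton_iff_inner_right,
      inner_sub_left, h, sub_self]
  have h3 := h1 _ hv x
  rw [e] at h3
  exact h3.symm

private theorem Axs_inner {N : ℕ} {v u z : EE N} (hv : ‖v‖ = 1) (hu : ‖u‖ = 1) (hz : ‖z‖ = 1)
    (hvu : (inner ℝ v u : ℝ) = 0) (hvz : (inner ℝ v z : ℝ) = 0) (huz : (inner ℝ u z : ℝ) = 0)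
    (s q r s' q' r' : ℝ) :
    (inner ℝ (s • v + q • u + r • z) (s' • v + q' • u + r' • z) : ℝ) =
      s * s' + q * q' + r * r' := by
  have huv : (inner ℝ u v : ℝ) = 0 := by rw [real_inner_comm]; exact hvu
  have hzv : (inner ℝ z v : ℝ) = 0 := by rw [real_inner_comm]; exact hvz
  have hzu : (inner ℝ z u : ℝ) = 0 := by rw [real_inner_comm]; exact huz
  simp only [inner_add_left, inner_add_right, real_inner_smul_left, real_inner_smul_right,
    real_inner_self_eq_norm_sq, hv, hu, hz, hvu, hvz, huz, huv, hzv, hzu]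
  ring

private theorem Axs_norm {N : ℕ} {v u z : EE N} (hv : ‖v‖ = 1) (hu : ‖u‖ = 1) (hz : ‖z‖ = 1)
    (hvu : (inner ℝ v u : ℝ) = 0) (hvz : (inner ℝ v z : ℝ) = 0) (huz : (inner ℝ u z : ℝ) = 0)
    {s q r : ℝ} (h : s ^ 2 + q ^ 2 + r ^ 2 = 1) : ‖s • v + q • u + r • z‖ = 1 := by
  have h1 := Axs_inner hv hu hz hvu hvz huz s q r s q r
  rw [real_inner_self_eq_norm_sq] at h1
  have h2 : ‖s • v + q • u + r • z‖ ^ 2 = 1 := by
    rw [h1, ← h]
    ring
  exact (pow_eq_one_iff_of_nonneg (norm_nonneg _) two_ne_zero).1 h2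

private theorem Axs_exists {N : ℕ} (hN : 2 ≤ N) (v w : EE (N + 1)) :
    ∃ z : EE (N + 1), ‖z‖ = 1 ∧ (inner ℝ v z : ℝ) = 0 ∧ (inner ℝ w z : ℝ) = 0 := by
  classical
  set K : Submodule ℝ (EE (N + 1)) := Submodule.span ℝ {v, w} with hK
  have h1 : Module.finrank ℝ K ≤ 2 := by
    have h2 := finrank_span_le_card (R := ℝ) ({v, w} : Set (EE (N + 1)))
    refine h2.trans ?_
    rw [Set.toFinset_card]
    refine (Fintype.card_le_of_surjective (fun b : Bool =>
      (if b then ⟨v, by simp⟩ else ⟨w, by simp⟩ : ({v, w} : Set (EE (N + 1))))) ?_)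
    rintro ⟨x, hx⟩
    rcases hx with rfl | hx
    · exact ⟨true, by simp⟩
    · refine ⟨false, ?_⟩
      have hx' : x = w := hx
      subst hx'
      simp
  have h3 : Module.finrank ℝ K + Module.finrank ℝ Kᗮ = N + 1 := by
    rw [Submodule.finrank_add_finrank_orthogonal, finrank_euclideanSpace, Fintype.card_fin]
  have h4 : 0 < Module.finrank ℝ Kᗮ := by omega
  have h5 : Nontrivial Kᗮ := Module.finrank_pos_iff.1 h4
  obtain ⟨⟨y, hy⟩, hne⟩ := exists_ne (0 : Kᗮ)
  have hy0 : y ≠ 0 := fun h => hne (Subtype.ext h)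
  have hyn : ‖y‖ ≠ 0 := norm_ne_zero_iff.2 hy0
  rw [Submodule.mem_orthogonal] at hy
  have hv := hy v (Submodule.subset_span (by simp))
  have hw := hy w (Submodule.subset_span (by simp))
  refine ⟨‖y‖⁻¹ • y, ?_, ?_, ?_⟩
  · rw [norm_smul, norm_inv, norm_norm, inv_mul_cancel₀ hyn]
  · rw [real_inner_smul_right, hv, mul_zero]
  · rw [real_inner_smul_right, hw, mul_zero]

theorem two_axes {N : ℕ} (hN : 2 ≤ N) {v w : EE (N + 1)} (hv : ‖v‖ = 1) (hw : ‖w‖ = 1)
    (hvw : |(inner ℝ v w : ℝ)| < 1) {φ : EE (N + 1) → ℂ} (hφ : Continuous φ)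
    (h1 : ∀ T : EE (N + 1) ≃ₗᵢ[ℝ] EE (N + 1), T v = v → ∀ x, φ (T x) = φ x)
    (h2 : ∀ T : EE (N + 1) ≃ₗᵢ[ℝ] EE (N + 1), T w = w → ∀ x, φ (T x) = φ x) :
    ∀ x y : EE (N + 1), ‖x‖ = 1 → ‖y‖ = 1 → φ x = φ y := by
  obtain ⟨c, hc⟩ : ∃ c : ℝ, (inner ℝ v w : ℝ) = c := ⟨_, rfl⟩
  rw [hc] at hvw
  have hc1 : c ^ 2 < 1 := by
    rw [← sq_abs]
    have := abs_nonneg c
    nlinarith
  obtain ⟨d, hd0, hd⟩ : ∃ d : ℝ, 0 < d ∧ d ^ 2 = 1 - c ^ 2 :=
    ⟨√(1 - c ^ 2), Real.sqrt_pos.2 (by linarith), Real.sq_sqrt (by linarith)⟩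
  obtain ⟨z, hz, hvz, hwz⟩ := Axs_exists hN v w
  set u : EE (N + 1) := d⁻¹ • (w - c • v) with hu
  have hvv : (inner ℝ v v : ℝ) = 1 := by
    rw [real_inner_self_eq_norm_sq, hv]
    norm_num
  have hww : (inner ℝ w w : ℝ) = 1 := by
    rw [real_inner_self_eq_norm_sq, hw]
    norm_num
  have hwv : (inner ℝ w v : ℝ) = c := by
    rw [real_inner_comm]
    exact hc
  have hvu : (inner ℝ v u : ℝ) = 0 := by
    rw [hu, real_inner_smul_right, inner_sub_right, real_inner_smul_right, hc, hvv]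
    ring
  have huu : ‖u‖ = 1 := by
    have h4 : (inner ℝ (w - c • v) (w - c • v) : ℝ) = d ^ 2 := by
      simp only [inner_sub_left, inner_sub_right, real_inner_smul_left, real_inner_smul_right,
        hww, hvv, hwv, hc, hd]
      ring
    have h3 : ‖u‖ ^ 2 = 1 := by
      rw [← real_inner_self_eq_norm_sq, hu, real_inner_smul_right, real_inner_smul_left, h4]
      field_simp
    exact (pow_eq_one_iff_of_nonneg (norm_nonneg _) two_ne_zero).1 h3
  have huz : (inner ℝ u z : ℝ) = 0 := by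
    rw [hu, real_inner_smul_left, inner_sub_left, real_inner_smul_left, hvz, hwz]
    ring
  have hwe : w = c • v + d • u + (0 : ℝ) • z := by
    rw [hu, smul_smul, mul_inv_cancel₀ hd0.ne', one_smul, zero_smul]
    abel
  have hve : v = (1 : ℝ) • v + (0 : ℝ) • u + (0 : ℝ) • z := by
    rw [one_smul, zero_smul, zero_smul, add_zero, add_zero]
  have iv : ∀ s q r : ℝ, (inner ℝ (s • v + q • u + r • z) v : ℝ) = s := by
    intro s q r
    have h3 := Axs_inner hv huu hz hvu hvz huz s q r 1 0 0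
    rw [← hve] at h3
    rw [h3]
    ring
  have iw : ∀ s q r : ℝ, (inner ℝ (s • v + q • u + r • z) w : ℝ) = s * c + q * d := by
    intro s q r
    have h3 := Axs_inner hv huu hz hvu hvz huz s q r c d 0
    rw [← hwe] at h3
    rw [h3]
    ring
  have nX : ∀ s q r : ℝ, s ^ 2 + q ^ 2 + r ^ 2 = 1 → ‖s • v + q • u + r • z‖ = 1 :=
    fun s q r h => Axs_norm hv huu hz hvu hvz huz h
  obtain ⟨a, ha⟩ : ∃ a : ℝ → ℂ, a = fun s => φ (s • v + √(1 - s ^ 2) • u + (0 : ℝ) • z) :=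
    ⟨_, rfl⟩
  have hac : Continuous a := by
    rw [ha]
    refine hφ.comp ?_
    fun_prop
  have hsq : ∀ s : ℝ, s ^ 2 ≤ 1 → s ^ 2 + √(1 - s ^ 2) ^ 2 + (0 : ℝ) ^ 2 = 1 := by
    intro s hs
    rw [Real.sq_sqrt (by linarith)]
    ring
  have haX : ∀ x : EE (N + 1), ‖x‖ = 1 → φ x = a (inner ℝ x v) := by
    intro x hx
    have h3 : (inner ℝ x v : ℝ) ^ 2 ≤ 1 := by
      have h4 := abs_real_inner_le_norm x v
      rw [hx, hv, one_mul] at h4
      rw [← sq_abs]
      have := abs_nonneg (inner ℝ x v : ℝ)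
      nlinarith
    rw [ha]
    refine Axs_refl h1 hx (nX _ _ _ (hsq _ h3)) ?_
    rw [iv]
  have hloc : ∀ s : ℝ, s ^ 2 < 1 → ∀ᶠ s' in 𝓝 s, a s' = a s := by
    intro s hs
    have e1 : ∀ᶠ s' in 𝓝 s, (c * (s' - s) / d) ^ 2 < 1 - s ^ 2 := by
      have hcont : Continuous fun s' : ℝ => (c * (s' - s) / d) ^ 2 := by fun_prop
      refine (hcont.tendsto s).eventually_lt_const ?_
      rw [sub_self, mul_zero, zero_div]
      linarith
    have e2 : ∀ᶠ s' in 𝓝 s, s' ^ 2 < 1 := by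
      have hcont : Continuous fun s' : ℝ => s' ^ 2 := by fun_prop
      exact (hcont.tendsto s).eventually_lt_const hs
    filter_upwards [e1, e2] with s' h3 h4
    set q : ℝ := c * (s' - s) / d with hq
    have n1 : ‖s • v + q • u + √(1 - s ^ 2 - q ^ 2) • z‖ = 1 := by
      refine nX _ _ _ ?_
      rw [Real.sq_sqrt (by linarith)]
      ring
    have n2 : ‖s' • v + (0 : ℝ) • u + √(1 - s' ^ 2) • z‖ = 1 := by
      refine nX _ _ _ ?_
      rw [Real.sq_sqrt (by linarith)]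
      ring
    have h5 := Axs_refl h2 n1 n2 (by
      rw [iw, iw, hq]
      field_simp
      ring)
    rw [haX _ n1, haX _ n2, iv, iv] at h5
    exact h5.symm
  have hcst : ∀ s : ℝ, s ^ 2 < 1 → a 1 = a s := by
    intro s hs
    have hs1 : s < 1 := by nlinarith
    have hs2 : -1 < s := by nlinarith
    refine constant_of_has_deriv_right_zero (a := s) (b := 1) hac.continuousOn ?_ 1
      ⟨hs1.le, le_rfl⟩
    intro x hx
    have hx2 : x ^ 2 < 1 := by
      have h3 : x < 1 := hx.2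
      have h4 : s ≤ x := hx.1
      nlinarith
    exact ((hasDerivAt_const x (a x)).congr_of_eventuallyEq (hloc x hx2)).hasDerivWithinAt
  have hm : a (-1) = a 1 := by
    have h3 : Filter.Tendsto a (𝓝[>] (-1)) (𝓝 (a (-1))) :=
      (hac.tendsto (-1)).mono_left nhdsWithin_le_nhds
    have h4 : Filter.Tendsto a (𝓝[>] (-1)) (𝓝 (a 1)) := by
      refine tendsto_const_nhds.congr' ?_
      filter_upwards [Ioo_mem_nhdsGT (show (-1 : ℝ) < 1 by norm_num)] with s hs
      refine hcst s ?_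
      have h5 := hs.1
      have h6 := hs.2
      nlinarith
    exact tendsto_nhds_unique h3 h4
  have hall : ∀ s : ℝ, s ^ 2 ≤ 1 → a s = a 1 := by
    intro s hs
    rcases hs.lt_or_eq with h3 | h3
    · exact (hcst s h3).symm
    · have h4 : s = 1 ∨ s = -1 := by
        rcases mul_eq_zero.1 (show (s - 1) * (s + 1) = 0 by linarith) with h5 | h5
        · left
          linarith
        · right
          linarith
      rcases h4 with h4 | h4
      · rw [h4]
      · rw [h4, hm]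
  intro x y hx hy
  have key : ∀ x : EE (N + 1), ‖x‖ = 1 → φ x = a 1 := by
    intro x hx
    rw [haX x hx]
    refine hall _ ?_
    have h4 := abs_real_inner_le_norm x v
    rw [hx, hv, one_mul] at h4
    rw [← sq_abs]
    have := abs_nonneg (inner ℝ x v : ℝ)
    nlinarith
  rw [key x hx, key y hy]

end Pool.Agent.MP9dd972R
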