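import Mathlib
import Pool.Agent.Lib.MP_9dd972_gt.N.Gauge
import Pool.Agent.Lib.MP_9dd972_gt.N.Hsup
import Pool.Agent.Lib.MP_9dd972_gt_R.Defs

/-!
# MP_9dd972_gt, bodies with homothetic sections: cut off functions
-/

set_option autoImplicit false

namespace Pool.Agent.MP9dd972R

open MeasureTheory Set Metric Pool.Agent.MP9dd972N
open scoped ENNReal NNReal Topology Pointwise

variable {N : ℕ}

open scoped Manifold ContDiff in
theorem bump {Q : Set (EE N)} (hQ : Body Q) {r s : ℝ} (hr : 0 ≤ r) (hs : r < s) :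
    ∃ F : EE N → ℝ, ContDiff ℝ (⊤ : ℕ∞) F ∧ (∀ y, 0 ≤ F y) ∧ (∀ y, F y ≤ 1) ∧
      (∀ y, gauge Q y ≤ r → F y = 1) ∧ ∀ y, s ≤ gauge Q y → F y = 0 := by
  have _ := hr
  obtain ⟨L, hL⟩ := hQ.gauge_lip
  have h1 : IsClosed {y : EE N | s ≤ gauge Q y} := isClosed_le continuous_const hL.continuous
  have h2 : IsClosed {y : EE N | gauge Q y ≤ r} := isClosed_le hL.continuous continuous_const
  have hd : Disjoint {y : EE N | s ≤ gauge Q y} {y : EE N | gauge Q y ≤ r} := by
    rw [Set.disjoint_left]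
    intro y hy1 hy2
    have h3 : s ≤ gauge Q y := hy1
    have h4 : gauge Q y ≤ r := hy2
    linarith
  obtain ⟨f, hf0, hf1, hf⟩ := exists_contMDiffMap_zero_one_of_isClosed (n := (⊤ : ℕ∞))
    (𝓘(ℝ, EE N)) h1 h2 hd
  refine ⟨f, contMDiff_iff_contDiff.1 f.contMDiff, fun y => (hf y).1, fun y => (hf y).2,
    fun y hy => hf1 hy, fun y hy => hf0 hy⟩

theorem step {lo hi : ℝ} (h : lo < hi) :
    ∃ θ : ℝ → ℝ, ContDiff ℝ (⊤ : ℕ∞) θ ∧ (∀ t, t ≤ lo → θ t = 0) ∧ (∀ t, hi ≤ t → θ t = 1) ∧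
      (∀ t, t < lo → deriv θ t = 0) ∧ (∀ t, hi < t → deriv θ t = 0) ∧
      Integrable (deriv θ) ∧ ∫ t, deriv θ t = 1 := by
  have hp : 0 < hi - lo := sub_pos.2 h
  obtain ⟨θ, hθ⟩ : ∃ θ : ℝ → ℝ, θ = fun t => Real.smoothTransition ((t - lo) / (hi - lo)) :=
    ⟨_, rfl⟩
  have hc : ContDiff ℝ (⊤ : ℕ∞) θ := by
    rw [hθ]
    exact Real.smoothTransition.contDiff.comp
      ((contDiff_id.sub contDiff_const).div_const (hi - lo))
  have t0 : ∀ t, t ≤ lo → θ t = 0 := by
    intro t ht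
    rw [hθ]
    exact Real.smoothTransition.zero_of_nonpos
      (div_nonpos_of_nonpos_of_nonneg (by linarith) hp.le)
  have t1 : ∀ t, hi ≤ t → θ t = 1 := by
    intro t ht
    rw [hθ]
    refine Real.smoothTransition.one_of_one_le ?_
    rw [one_le_div hp]
    linarith
  have d0 : ∀ t, t < lo → deriv θ t = 0 := by
    intro t ht
    have h1 : θ =ᶠ[𝓝 t] fun _ => (0 : ℝ) := by
      filter_upwards [Iio_mem_nhds ht] with u hu
      exact t0 u (le_of_lt hu)
    rw [h1.deriv_eq, deriv_const]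
  have d1 : ∀ t, hi < t → deriv θ t = 0 := by
    intro t ht
    have h1 : θ =ᶠ[𝓝 t] fun _ => (1 : ℝ) := by
      filter_upwards [Ioi_mem_nhds ht] with u hu
      exact t1 u (le_of_lt hu)
    rw [h1.deriv_eq, deriv_const]
  have hdc : Continuous (deriv θ) := hc.continuous_deriv (by exact_mod_cast le_top)
  have hsupp : HasCompactSupport (deriv θ) := by
    refine HasCompactSupport.intro (isCompact_Icc (a := lo) (b := hi)) fun t ht => ?_
    rw [mem_Icc, not_and_or, not_le, not_le] at ht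
    rcases ht with ht | ht
    · exact d0 t ht
    · exact d1 t ht
  have hint : Integrable (deriv θ) := hdc.integrable_of_hasCompactSupport hsupp
  refine ⟨θ, hc, t0, t1, d0, d1, hint, ?_⟩
  have hlim0 : Filter.Tendsto θ Filter.atBot (𝓝 0) := by
    refine tendsto_const_nhds.congr' ?_
    filter_upwards [Filter.eventually_le_atBot lo] with t ht
    exact (t0 t ht).symm
  have hlim1 : Filter.Tendsto θ Filter.atTop (𝓝 1) := by
    refine tendsto_const_nhds.congr' ?_
    filter_upwards [Filter.eventually_ge_atTop hi] with t ht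
    exact (t1 t ht).symm
  have hd : ∀ t, HasDerivAt θ (deriv θ t) t :=
    fun t => ((hc.differentiable (by simp)) t).hasDerivAt
  rw [integral_of_hasDerivAt_of_tendsto hd hint hlim0 hlim1, sub_zero]

end Pool.Agent.MP9dd972R
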