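import Mathlib
import Pool.Agent.Lib.MP_9dd972_gt_R.Defs

/-!
# MP_9dd972_gt, bodies with homothetic sections: coordinates
-/

set_option autoImplicit false

namespace Pool.Agent.MP9dd972R

open MeasureTheory Set Metric Pool.Agent.MP9dd972N
open scoped ENNReal NNReal Topology Pointwise

variable {N : ℕ}

theorem tl_apply (x : EE (N + 1)) (i : Fin N) : tl x i = x i.succ := rfl

theorem tl_add (x y : EE (N + 1)) : tl (x + y) = tl x + tl y := by
  ext i
  simp [tl]

theorem tl_smul (c : ℝ) (x : EE (N + 1)) : tl (c • x) = c • tl x := by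
  ext i
  simp [tl]

theorem tl_single (t : ℝ) : tl (EuclideanSpace.single (0 : Fin (N + 1)) t) = 0 := by
  ext i
  simp [tl]

theorem pr_zero (t : ℝ) (y : EE N) : pr t y 0 = t := by
  simp [pr]

theorem tl_pr (t : ℝ) (y : EE N) : tl (pr t y) = y := by
  ext i
  simp [tl, pr]

theorem pr_eta (x : EE (N + 1)) : pr (x 0) (tl x) = x := by
  ext i
  refine Fin.cases ?_ (fun k => ?_) i
  · simp [pr]
  · simp [tl, pr]

theorem inner_split (u x : EE (N + 1)) :
    (inner ℝ u x : ℝ) = u 0 * x 0 + inner ℝ (tl u) (tl x) := by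
  rw [PiLp.inner_apply, PiLp.inner_apply, Fin.sum_univ_succ]
  simp only [RCLike.inner_apply, conj_trivial, tl_apply]
  ring

theorem contDiff_tl : ContDiff ℝ (⊤ : ℕ∞) (tl : EE (N + 1) → EE N) := by
  rw [contDiff_euclidean]
  intro i
  have h : (fun x : EE (N + 1) => tl x i) = fun x => x i.succ := rfl
  rw [h]
  fun_prop

theorem cont_tl : Continuous (tl : EE (N + 1) → EE N) := contDiff_tl.continuous

/-- The splitting as a measurable equivalence. -/
private noncomputable def Crd_e (N : ℕ) : EE (N + 1) ≃ᵐ ℝ × EE N :=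
  ((MeasurableEquiv.toLp 2 (Fin (N + 1) → ℝ)).symm.trans
    (MeasurableEquiv.piFinSuccAbove (fun _ => ℝ) 0)).trans
      ((MeasurableEquiv.refl ℝ).prodCongr (MeasurableEquiv.toLp 2 (Fin N → ℝ)))

private theorem Crd_e_apply (x : EE (N + 1)) : Crd_e N x = (x 0, tl x) := rfl

private theorem Crd_mp : MeasurePreserving (Crd_e N) volume
    ((volume : Measure ℝ).prod (volume : Measure (EE N))) := by
  have h1 := EuclideanSpace.volume_preserving_symm_measurableEquiv_toLp (Fin (N + 1))
  have h2 := volume_preserving_piFinSuccAbove (fun _ : Fin (N + 1) => ℝ) 0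
  have h3 := (MeasurePreserving.id (volume : Measure ℝ)).prod (PiLp.volume_preserving_toLp (Fin N))
  exact (h3.comp h2).comp h1

theorem mp_split : MeasurePreserving (fun x : EE (N + 1) => (x 0, tl x)) volume
    ((volume : Measure ℝ).prod (volume : Measure (EE N))) := Crd_mp

theorem int_prod (f : ℝ → ℝ) (g : EE N → ℝ) :
    ∫ x : EE (N + 1), f (x 0) * g (tl x) = (∫ t, f t) * ∫ y, g y := by
  rw [← integral_prod_mul, ← Crd_mp.integral_comp']
  rfl

end Pool.Agent.MP9dd972R
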