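import Mathlib
import Pool.Agent.Lib.MP_9dd972_gt.N.Gauge
import Pool.Agent.Lib.MP_9dd972_gt.N.Hsup
import Pool.Agent.Lib.MP_9dd972_gt_R.Defs
import Pool.Agent.Lib.MP_9dd972_gt_R.Crd

/-!
# MP_9dd972_gt, bodies with homothetic sections: the gauge of the base
-/

set_option autoImplicit false

namespace Pool.Agent.MP9dd972R

open MeasureTheory Set Metric Pool.Agent.MP9dd972N
open scoped ENNReal NNReal Topology Pointwise

variable {N : ℕ}

theorem inner_le {Q : Set (EE N)} (hQ : Body Q) (u y : EE N) :
    (inner ℝ u y : ℝ) ≤ hh Q u * gauge Q y := by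
  by_cases hy : y = 0
  · rw [hy, inner_zero_right, gauge_zero, mul_zero]
  · have h1 := inner_le_hh hQ.comp (bd_mem hQ y) u
    have hg := hQ.gauge_pos hy
    rw [bd, inner_smul_right] at h1
    have h2 := mul_le_mul_of_nonneg_left h1 hg.le
    rw [← mul_assoc, mul_inv_cancel₀ hg.ne', one_mul] at h2
    linarith

theorem q_cont {Q : Set (EE N)} (hQ : Body Q) :
    Continuous fun x : EE (N + 1) => gauge Q (tl x) := by
  obtain ⟨L, hL⟩ := hQ.gauge_lip
  exact hL.continuous.comp cont_tl

theorem q_add_le {Q : Set (EE N)} (hQ : Body Q) (x y : EE (N + 1)) :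
    gauge Q (tl (x + y)) ≤ gauge Q (tl x) + gauge Q (tl y) := by
  rw [tl_add]
  exact hQ.gauge_add _ _

theorem q_smul (Q : Set (EE N)) {c : ℝ} (hc : 0 ≤ c) (x : EE (N + 1)) :
    gauge Q (tl (c • x)) = c * gauge Q (tl x) := by
  rw [tl_smul, gauge_smul_of_nonneg hc, smul_eq_mul]

theorem q_add_single (Q : Set (EE N)) (x : EE (N + 1)) (t : ℝ) :
    gauge Q (tl (x + EuclideanSpace.single 0 t)) = gauge Q (tl x) := by
  rw [tl_add, tl_single, add_zero]

private theorem Rad_null {Q : Set (EE N)} (hQ : Body Q) {s : ℝ} (hs : 0 ≤ s) {ε : ℝ}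
    (hε : ε ≠ 0) : volume {x : EE (N + 1) | ε * x 0 = s * gauge Q (tl x)} = 0 := by
  have hconv : Convex ℝ {x : EE (N + 1) | s * gauge Q (tl x) ≤ ε * x 0} := by
    intro x hx y hy a b ha hb _
    simp only [mem_setOf_eq] at hx hy ⊢
    have h1 := q_add_le hQ (a • x) (b • y)
    rw [q_smul Q ha, q_smul Q hb] at h1
    have h2 := mul_le_mul_of_nonneg_left h1 hs
    have h3 := mul_le_mul_of_nonneg_left hx ha
    have h4 := mul_le_mul_of_nonneg_left hy hb
    have h5 : (a • x + b • y) 0 = a * x 0 + b * y 0 := by simp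
    rw [h5]
    linarith
  refine measure_mono_null ?_ (hconv.addHaar_frontier volume)
  intro x hx
  simp only [mem_setOf_eq] at hx
  refine ⟨subset_closure hx.ge, fun hi => ?_⟩
  have hc : Filter.Tendsto (fun δ : ℝ => x + EuclideanSpace.single (0 : Fin (N + 1)) (-ε * δ))
      (𝓝 0) (𝓝 x) := by
    have h1 : Continuous (fun δ : ℝ => x + EuclideanSpace.single (0 : Fin (N + 1)) (-ε * δ)) := by
      have h2 : (fun δ : ℝ => x + EuclideanSpace.single (0 : Fin (N + 1)) (-ε * δ)) =
          fun δ : ℝ => x + δ • EuclideanSpace.single (0 : Fin (N + 1)) (-ε) := by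
        funext δ
        congr 1
        ext i
        by_cases h : i = 0
        · subst h
          simp [mul_comm]
        · simp [h]
      rw [h2]
      fun_prop
    have h3 := h1.tendsto 0
    have h4 : x + EuclideanSpace.single (0 : Fin (N + 1)) (-ε * 0) = x := by
      ext i
      simp
    rwa [h4] at h3
  have h5 := hc.eventually (mem_interior_iff_mem_nhds.1 hi)
  obtain ⟨r, hr, hb⟩ := Metric.eventually_nhds_iff.1 h5
  have h6 := hb (y := r / 2) (by
    rw [Real.dist_eq, sub_zero, abs_of_pos (by linarith)]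
    linarith)
  have h7 : s * gauge Q (tl (x + EuclideanSpace.single (0 : Fin (N + 1)) (-ε * (r / 2)))) ≤
      ε * (x + EuclideanSpace.single (0 : Fin (N + 1)) (-ε * (r / 2))) 0 := h6
  rw [q_add_single] at h7
  have h8 : (x + EuclideanSpace.single (0 : Fin (N + 1)) (-ε * (r / 2))) 0 =
      x 0 + -ε * (r / 2) := by simp
  rw [h8, ← hx] at h7
  have h9 : 0 < ε * ε * (r / 2) := mul_pos (mul_self_pos.2 hε) (by linarith)
  nlinarith

/-- the set where the ray hits a fixed height of the ratio is a null set -/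
theorem q_null {Q : Set (EE N)} (hQ : Body Q) (t : ℝ) :
    volume {x : EE (N + 1) | x 0 = t * gauge Q (tl x)} = 0 := by
  rcases le_or_gt 0 t with ht | ht
  · have h1 := Rad_null hQ ht (ε := 1) one_ne_zero
    simpa only [one_mul] using h1
  · have h1 := Rad_null hQ (s := -t) (by linarith) (ε := -1) (by norm_num)
    have h2 : {x : EE (N + 1) | x 0 = t * gauge Q (tl x)} =
        {x : EE (N + 1) | (-1) * x 0 = -t * gauge Q (tl x)} := by
      ext x
      simp only [mem_setOf_eq]
      constructor
      · intro h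
        rw [h]
        ring
      · intro h
        linarith
    rw [h2]
    exact h1

end Pool.Agent.MP9dd972R
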