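import Mathlib
import Pool.Agent.Lib.MP_9dd972_gt.N.Gauge
import Pool.Agent.Lib.MP_9dd972_gt.N.Hsup
import Pool.Agent.Lib.MP_9dd972_gt_R.Defs
import Pool.Agent.Lib.MP_9dd972_gt_R.Crd
import Pool.Agent.Lib.MP_9dd972_gt_R.Rad

/-!
# MP_9dd972_gt, bodies with homothetic sections: support function in two variables
-/

set_option autoImplicit false

namespace Pool.Agent.MP9dd972R

open MeasureTheory Set Metric Pool.Agent.MP9dd972N
open scoped ENNReal NNReal Topology Pointwise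

variable {N : ℕ} {Q : Set (EE N)} {K : Set (EE (N + 1))}

theorem Hqa_cont (hQ : Body Q) (a b : ℝ) :
    Continuous fun x : EE (N + 1) => a * x 0 + b * gauge Q (tl x) := by
  have h1 := q_cont hQ
  have h2 : Continuous fun x : EE (N + 1) => x 0 := by fun_prop
  exact (continuous_const.mul h2).add (continuous_const.mul h1)

theorem le_HH (hQ : Body Q) (hK : Body K) {x : EE (N + 1)} (hx : x ∈ K) (a b : ℝ) :
    a * x 0 + b * gauge Q (tl x) ≤ HH Q K a b :=
  le_csSup (hK.comp.image (Hqa_cont hQ a b)).bddAbove ⟨x, hx, rfl⟩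

theorem exists_HH (hQ : Body Q) (hK : Body K) (a b : ℝ) :
    ∃ x ∈ K, a * x 0 + b * gauge Q (tl x) = HH Q K a b := by
  have hne : K.Nonempty := ⟨0, interior_subset hK.zero⟩
  obtain ⟨x, hx, e⟩ := (hK.comp.image (Hqa_cont hQ a b)).sSup_mem (hne.image _)
  exact ⟨x, hx, e⟩

theorem hh_eq (hQ : Body Q) (hK : Body K) (hR : Rev Q K) (u : EE (N + 1)) :
    hh K u = HH Q K (u 0) (hh Q (tl u)) := by
  have hne : K.Nonempty := ⟨0, interior_subset hK.zero⟩
  have hneQ : Q.Nonempty := ⟨0, interior_subset hQ.zero⟩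
  apply le_antisymm
  · refine hh_le hne fun x hx => ?_
    have h1 := le_HH hQ hK hx (u 0) (hh Q (tl u))
    have h2 := inner_le hQ (tl u) (tl x)
    rw [inner_split]
    linarith
  · obtain ⟨x, hx, e⟩ := exists_HH hQ hK (u 0) (hh Q (tl u))
    obtain ⟨y, hy, ey⟩ := exists_hh hQ.comp hneQ (tl u)
    have hx' : pr (x 0) (gauge Q (tl x) • y) ∈ K := by
      refine hR x _ ?_ ?_ hx
      · rw [pr_zero]
      · rw [tl_pr, gauge_smul_of_nonneg (gauge_nonneg _), smul_eq_mul]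
        exact mul_le_of_le_one_right (gauge_nonneg _) ((hQ.gauge_le_one y).2 hy)
    have h1 := inner_le_hh hK.comp hx' u
    rw [inner_split, pr_zero, tl_pr, real_inner_smul_right, ey] at h1
    rw [← e]
    linarith

theorem HH_smul (Q : Set (EE N)) (K : Set (EE (N + 1))) {c : ℝ} (hc : 0 ≤ c) (a b : ℝ) :
    HH Q K (c * a) (c * b) = c * HH Q K a b := by
  unfold HH
  rw [← smul_eq_mul (a := c) (b := sSup _), ← Real.sSup_smul_of_nonneg hc]
  congr 1
  ext t
  simp only [mem_image, Set.mem_smul_set, smul_eq_mul]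
  constructor
  · rintro ⟨x, hx, rfl⟩
    exact ⟨_, ⟨x, hx, rfl⟩, by ring⟩
  · rintro ⟨_, ⟨x, hx, rfl⟩, rfl⟩
    exact ⟨x, hx, by ring⟩

theorem q_le_RR (hQ : Body Q) (hK : Body K) {x : EE (N + 1)} (hx : x ∈ K) :
    gauge Q (tl x) ≤ RR Q K := by
  have h := le_HH hQ hK hx 0 1
  rw [zero_mul, one_mul, zero_add] at h
  exact h

theorem exists_RR (hQ : Body Q) (hK : Body K) : ∃ x ∈ K, gauge Q (tl x) = RR Q K := by
  obtain ⟨x, hx, e⟩ := exists_HH hQ hK 0 1
  rw [zero_mul, one_mul, zero_add] at e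
  exact ⟨x, hx, e⟩

theorem RR_pos (hN : 1 ≤ N) (hQ : Body Q) (hK : Body K) : 0 < RR Q K := by
  obtain ⟨r, hr, h⟩ := Metric.mem_nhds_iff.1 (mem_interior_iff_mem_nhds.1 hK.zero)
  set i : Fin N := ⟨0, hN⟩
  set y : EE N := EuclideanSpace.single i (r / 2) with hy
  have hyn : ‖y‖ = r / 2 := by
    rw [hy, EuclideanSpace.norm_single, Real.norm_eq_abs, abs_of_pos (half_pos hr)]
  have hy0 : y ≠ 0 := by
    intro h0
    rw [h0, norm_zero] at hyn
    linarith
  have hx : pr 0 y ∈ K := by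
    apply h
    rw [mem_ball_zero_iff]
    have h1 := inner_split (pr 0 y) (pr 0 y)
    rw [pr_zero, tl_pr, real_inner_self_eq_norm_sq, real_inner_self_eq_norm_sq, mul_zero,
      zero_add, hyn] at h1
    have h2 : ‖pr 0 y‖ = r / 2 := by
      have h3 := norm_nonneg (pr 0 y)
      nlinarith
    rw [h2]
    linarith
  have h1 := q_le_RR hQ hK hx
  rw [tl_pr] at h1
  exact lt_of_lt_of_le (hQ.gauge_pos hy0) h1

end Pool.Agent.MP9dd972R
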