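import Mathlib
import Pool.Agent.Lib.MP_9dd972_gt.N.Gauge
import Pool.Agent.Lib.MP_9dd972_gt.N.Hsup
import Pool.Agent.Lib.MP_9dd972_gt_R.Defs
import Pool.Agent.Lib.MP_9dd972_gt_R.Crd
import Pool.Agent.Lib.MP_9dd972_gt_R.Rad
import Pool.Agent.Lib.MP_9dd972_gt_R.Hqa

/-!
# MP_9dd972_gt, bodies with homothetic sections: support function of one side
-/

set_option autoImplicit false

namespace Pool.Agent.MP9dd972R

open MeasureTheory Set Metric Pool.Agent.MP9dd972N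
open scoped ENNReal NNReal Topology Pointwise

variable {N : ℕ} {Q : Set (EE N)} {K : Set (EE (N + 1))}

theorem HH_pos (hQ : Body Q) (hK : Body K) {ε : ℝ} (hε : ε = 1 ∨ ε = -1) {s : ℝ}
    (hs : 0 ≤ s) : 0 < HH Q K ε s := by
  obtain ⟨r, hr, hball⟩ := Metric.mem_nhds_iff.1 (mem_interior_iff_mem_nhds.mp hK.zero)
  have hε2 : ε * ε = 1 := by rcases hε with h | h <;> rw [h] <;> norm_num
  have hεa : |ε| = 1 := by
    rcases hε with h | h
    · rw [h, abs_one]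
    · rw [h, abs_neg, abs_one]
  have hmem : (EuclideanSpace.single (0 : Fin (N + 1)) (ε * (r / 2)) : EE (N + 1)) ∈ K := by
    apply hball
    rw [mem_ball_zero_iff, EuclideanSpace.norm_single, Real.norm_eq_abs, abs_mul, hεa, one_mul,
      abs_of_pos (half_pos hr)]
    linarith
  have h := le_HH hQ hK hmem ε s
  have h0 : (EuclideanSpace.single (0 : Fin (N + 1)) (ε * (r / 2)) : EE (N + 1)) 0
      = ε * (r / 2) := by simp
  rw [tl_single, gauge_zero, mul_zero, add_zero, h0, ← mul_assoc, hε2, one_mul] at h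
  linarith

theorem HH_conv (hQ : Body Q) (hK : Body K) (ε : ℝ) :
    ConvexOn ℝ univ fun s => HH Q K ε s := by
  refine ⟨convex_univ, fun s _ t _ a b ha hb hab => ?_⟩
  obtain ⟨x, hx, h⟩ := exists_HH hQ hK ε (a • s + b • t)
  change HH Q K ε (a • s + b • t) ≤ a • HH Q K ε s + b • HH Q K ε t
  rw [← h]
  have h1 := mul_le_mul_of_nonneg_left (le_HH hQ hK hx ε s) ha
  have h2 := mul_le_mul_of_nonneg_left (le_HH hQ hK hx ε t) hb
  have h3 : ε * x 0 + (a • s + b • t) * gauge Q (tl x) =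
      a * (ε * x 0 + s * gauge Q (tl x)) + b * (ε * x 0 + t * gauge Q (tl x)) := by
    have h4 : a * (ε * x 0) + b * (ε * x 0) = ε * x 0 := by rw [← add_mul, hab, one_mul]
    simp only [smul_eq_mul]
    linear_combination -h4
  rw [h3, smul_eq_mul, smul_eq_mul]
  exact add_le_add h1 h2

theorem HH_mono (hQ : Body Q) (hK : Body K) (ε : ℝ) : Monotone fun s => HH Q K ε s := by
  intro s t h
  obtain ⟨x, hx, hx2⟩ := exists_HH hQ hK ε s
  change HH Q K ε s ≤ HH Q K ε t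
  rw [← hx2]
  refine le_trans ?_ (le_HH hQ hK hx ε t)
  have h1 := mul_le_mul_of_nonneg_right h (gauge_nonneg (s := Q) (tl x))
  linarith

theorem HH_lip (hQ : Body Q) (hK : Body K) (ε : ℝ) {s t : ℝ} (h : s ≤ t) :
    HH Q K ε t - HH Q K ε s ≤ RR Q K * (t - s) := by
  obtain ⟨x, hx, hx2⟩ := exists_HH hQ hK ε t
  have h1 := le_HH hQ hK hx ε s
  have h2 := mul_le_mul_of_nonneg_right (q_le_RR hQ hK hx) (sub_nonneg.2 h)
  rw [← hx2]
  have h3 : gauge Q (tl x) * (t - s) = t * gauge Q (tl x) - s * gauge Q (tl x) := by ring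
  rw [h3] at h2
  linarith

theorem HH_cont (hQ : Body Q) (hK : Body K) (ε : ℝ) : Continuous fun s => HH Q K ε s := by
  have h := (HH_conv hQ hK ε).continuousOn isOpen_univ
  exact continuousOn_univ.1 h

theorem HH_low (hQ : Body Q) (hK : Body K) :
    ∃ w : ℝ, ∀ ε s : ℝ, ε * w + RR Q K * s ≤ HH Q K ε s := by
  obtain ⟨x, hx, h⟩ := exists_RR hQ hK
  refine ⟨x 0, fun ε s => ?_⟩
  have h1 := le_HH hQ hK hx ε s
  rw [h] at h1
  linarith

theorem HH_cmp (hQ : Body Q) {C : Set (EE (N + 1))} (hK : Body K) (hC : Body C) :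
    ∃ c : ℝ, 0 < c ∧ ∀ ε s : ℝ, (ε = 1 ∨ ε = -1) → 0 ≤ s → HH Q K ε s ≤ c * HH Q C ε s := by
  obtain ⟨r, hr, hball⟩ := Metric.mem_nhds_iff.1 (mem_interior_iff_mem_nhds.mp hC.zero)
  obtain ⟨ρ, hρ⟩ := hK.comp.isBounded.subset_closedBall 0
  have hρ0 : 0 ≤ ρ := by
    have h1 := hρ (interior_subset hK.zero)
    rw [mem_closedBall_zero_iff, norm_zero] at h1
    exact h1
  have hc : 0 < ρ / r + 1 := by positivity
  refine ⟨ρ / r + 1, hc, fun ε s _ hs => ?_⟩
  obtain ⟨x, hx, h⟩ := exists_HH hQ hK ε s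
  have hmem : (ρ / r + 1)⁻¹ • x ∈ C := by
    apply hball
    rw [mem_ball_zero_iff, norm_smul, Real.norm_eq_abs, abs_of_pos (inv_pos.2 hc)]
    have h1 := hρ hx
    rw [mem_closedBall_zero_iff] at h1
    rw [inv_mul_lt_iff₀ hc]
    have h2 : (ρ / r + 1) * r = ρ + r := by field_simp
    linarith
  have h2 := le_HH hQ hC hmem ε s
  rw [q_smul Q (inv_pos.2 hc).le] at h2
  have h3 : ((ρ / r + 1)⁻¹ • x) 0 = (ρ / r + 1)⁻¹ * x 0 := rfl
  rw [h3] at h2
  have h4 := mul_le_mul_of_nonneg_left h2 hc.le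
  rw [← h]
  refine le_trans (le_of_eq ?_) h4
  have h5 : (ρ / r + 1) * (ρ / r + 1)⁻¹ = 1 := mul_inv_cancel₀ hc.ne'
  linear_combination (-(ε * x 0) - s * gauge Q (tl x)) * h5

end Pool.Agent.MP9dd972R
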