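import Mathlib
import Pool.Agent.Lib.MP_9dd972_gt.N.Gauge
import Pool.Agent.Lib.MP_9dd972_gt.N.Hsup
import Pool.Agent.Lib.MP_9dd972_gt_R.Defs
import Pool.Agent.Lib.MP_9dd972_gt_R.Crd
import Pool.Agent.Lib.MP_9dd972_gt_R.Rad
import Pool.Agent.Lib.MP_9dd972_gt_R.Hqa
import Pool.Agent.Lib.MP_9dd972_gt_R.Hqb

/-!
# MP_9dd972_gt, bodies with homothetic sections: normals
-/

set_option autoImplicit false

namespace Pool.Agent.MP9dd972R

open MeasureTheory Set Metric Pool.Agent.MP9dd972N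
open scoped ENNReal NNReal Topology Pointwise

variable {N : ℕ} {Q : Set (EE N)} {K : Set (EE (N + 1))}

theorem good_ae (hK : Body K) : ∀ᵐ x : EE (N + 1), Good K x := by
  exact Body.ae_diff (Nat.succ_pos N) hK

theorem nml_one (hQ : Body Q) (hK : Body K) (hR : Rev Q K) {x : EE (N + 1)} (hx : Good K x) :
    HH Q K (NN K x 0) (hh Q (tl (NN K x))) = 1 := by
  rw [← hh_eq hQ hK hR]
  exact hh_NN hK hx.1 hx.2

theorem nml_bd (hQ : Body Q) (hK : Body K) (hR : Rev Q K) {x : EE (N + 1)} (hx : Good K x) :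
    NN K x 0 * bd K x 0 + hh Q (tl (NN K x)) * gauge Q (tl (bd K x)) = 1 := by
  refine le_antisymm ?_ ?_
  · rw [← nml_one hQ hK hR hx]
    exact le_HH hQ hK (bd_mem hK x) _ _
  · rw [← inner_NN_bd hK hx.1 hx.2, inner_split]
    exact add_le_add le_rfl (inner_le hQ _ _)

theorem slo_nonneg (hQ : Body Q) {ε : ℝ} {x : EE (N + 1)} (h : 0 < ε * NN K x 0) :
    0 ≤ slo Q ε K x := by
  have h1 := inner_le_hh hQ.comp (GaugeAux.mem0 hQ) (tl (NN K x))
  rw [inner_zero_right] at h1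
  exact div_nonneg h1 h.le

theorem nml_H (hQ : Body Q) (hK : Body K) (hR : Rev Q K) {ε : ℝ} (hε : ε = 1 ∨ ε = -1)
    {x : EE (N + 1)} (hx : Good K x) (h : 0 < ε * NN K x 0) :
    HH Q K ε (slo Q ε K x) = (ε * NN K x 0)⁻¹ ∧
      ε * bd K x 0 + slo Q ε K x * gauge Q (tl (bd K x)) = HH Q K ε (slo Q ε K x) := by
  have hεε : ε * ε = 1 := by
    rcases hε with rfl | rfl <;> norm_num
  have h1 := HH_smul Q K h.le ε (slo Q ε K x)
  have h2 : ε * NN K x 0 * ε = NN K x 0 := by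
    linear_combination (NN K x 0) * hεε
  have h3 : ε * NN K x 0 * slo Q ε K x = hh Q (tl (NN K x)) := by
    unfold slo
    exact mul_div_cancel₀ _ h.ne'
  rw [h2, h3, nml_one hQ hK hR hx] at h1
  have h4 : HH Q K ε (slo Q ε K x) = (ε * NN K x 0)⁻¹ := by
    refine eq_inv_of_mul_eq_one_left ?_
    rw [mul_comm]
    exact h1.symm
  refine ⟨h4, ?_⟩
  have h5 := nml_bd hQ hK hR hx
  rw [← h3] at h5
  have h6 : ε * NN K x 0 * (ε * bd K x 0 + slo Q ε K x * gauge Q (tl (bd K x))) =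
      ε * NN K x 0 * HH Q K ε (slo Q ε K x) := by
    rw [← h1, ← h5]
    linear_combination (NN K x 0 * bd K x 0) * hεε
  exact mul_left_cancel₀ h.ne' h6

theorem nml_flat (hQ : Body Q) (hK : Body K) (hR : Rev Q K) {x : EE (N + 1)}
    (hx : Good K x) (h : NN K x 0 = 0) : hh Q (tl (NN K x)) * RR Q K = 1 := by
  have h1 := inner_le_hh hQ.comp (GaugeAux.mem0 hQ) (tl (NN K x))
  rw [inner_zero_right] at h1
  have h2 := nml_one hQ hK hR hx
  have h3 := HH_smul Q K h1 0 1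
  rw [mul_zero, mul_one] at h3
  rw [h, h3] at h2
  exact h2

theorem nml_le (hQ : Body Q) (hK : Body K) (hR : Rev Q K) {ε : ℝ} (hε : ε = 1 ∨ ε = -1)
    {x : EE (N + 1)} (hx : Good K x) (h : 0 < ε * NN K x 0) {s : ℝ}
    (hs : slo Q ε K x ≤ s) : gauge Q (tl (bd K x)) ≤ rh Q ε K s := by
  obtain ⟨-, h2⟩ := nml_H hQ hK hR hε hx h
  have h3 : ∀ t, ε * bd K x 0 + t * gauge Q (tl (bd K x)) ≤ HH Q K ε t := fun t =>
    le_HH hQ hK (bd_mem hK x) ε t
  have hc := HH_conv hQ hK ε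
  set H : ℝ → ℝ := fun s => HH Q K ε s with hH
  have h4 : ∀ t, slo Q ε K x < t → gauge Q (tl (bd K x)) ≤
      (H t - H (slo Q ε K x)) / (t - slo Q ε K x) := by
    intro t ht
    rw [le_div_iff₀ (sub_pos.2 ht)]
    have h5 := h3 t
    have h6 : H (slo Q ε K x) = ε * bd K x 0 + slo Q ε K x * gauge Q (tl (bd K x)) := h2.symm
    have h7 : H t = HH Q K ε t := rfl
    rw [h6, h7]
    linarith
  unfold rh
  rw [hc.rightDeriv_eq_sInf_slope_of_mem_interior (by rw [interior_univ]; exact mem_univ s)]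
  refine le_csInf ?_ ?_
  · rw [image_nonempty]
    exact ⟨s + 1, mem_univ _, by linarith⟩
  · rintro _ ⟨t, ⟨-, hst⟩, rfl⟩
    rw [slope_def_field]
    rcases hs.eq_or_lt with he | hlt
    · rw [← he] at hst ⊢
      exact h4 t hst
    · exact (h4 s hlt).trans (hc.slope_mono_adjacent (mem_univ _) (mem_univ _) hlt hst)

theorem nml_ge (hQ : Body Q) (hK : Body K) (hR : Rev Q K) {ε : ℝ} (hε : ε = 1 ∨ ε = -1)
    {x : EE (N + 1)} (hx : Good K x) (h : 0 < ε * NN K x 0) {s : ℝ}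
    (hs : s < slo Q ε K x) : rh Q ε K s ≤ gauge Q (tl (bd K x)) := by
  obtain ⟨-, h2⟩ := nml_H hQ hK hR hε hx h
  have h3 : ε * bd K x 0 + s * gauge Q (tl (bd K x)) ≤ HH Q K ε s :=
    le_HH hQ hK (bd_mem hK x) ε s
  have hc := HH_conv hQ hK ε
  unfold rh
  refine (hc.rightDeriv_le_slope_of_mem_interior (by rw [interior_univ]; exact mem_univ s)
    (mem_univ (slo Q ε K x)) hs).trans ?_
  rw [slope_def_field, div_le_iff₀ (sub_pos.2 hs), ← h2]
  linarith

end Pool.Agent.MP9dd972R
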