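import Mathlib
import Pool.Agent.Lib.MP_9dd972_gt.N.Gauge
import Pool.Agent.Lib.MP_9dd972_gt.N.Hsup
import Pool.Agent.Lib.MP_9dd972_gt_R.Defs
import Pool.Agent.Lib.MP_9dd972_gt_R.Crd
import Pool.Agent.Lib.MP_9dd972_gt_R.Rad
import Pool.Agent.Lib.MP_9dd972_gt_R.Hqa
import Pool.Agent.Lib.MP_9dd972_gt_R.Nml

/-!
# MP_9dd972_gt, bodies with homothetic sections: a chord separating the two sides
-/

set_option autoImplicit false

namespace Pool.Agent.MP9dd972R

open MeasureTheory Set Metric Pool.Agent.MP9dd972N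
open scoped ENNReal NNReal Topology Pointwise

variable {N : ℕ} {Q : Set (EE N)} {K : Set (EE (N + 1))}

private theorem Chd_single (hK : Body K) : ∃ δ : ℝ, 0 < δ ∧ ∀ t : ℝ, |t| ≤ δ →
    EuclideanSpace.single (0 : Fin (N + 1)) t ∈ K := by
  obtain ⟨δ, hδ, h⟩ := Metric.mem_nhds_iff.1 (mem_interior_iff_mem_nhds.1 hK.zero)
  refine ⟨δ / 2, half_pos hδ, fun t ht => h ?_⟩
  rw [mem_ball_zero_iff, PiLp.norm_single, Real.norm_eq_abs]
  linarith

theorem chord (hN : 1 ≤ N) (hQ : Body Q) (hK : Body K) (hR : Rev Q K) {ε : ℝ}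
    (hε : ε = 1 ∨ ε = -1) {r : ℝ} (hr : 0 ≤ r) (hrR : r < RR Q K) :
    ∃ lo hi : ℝ, lo < hi ∧
      (∀ x : EE (N + 1), gauge Q (tl x) ≤ r → lo ≤ ε * x 0 → ε * x 0 ≤ hi → x ∈ K) ∧
      ∀ x : EE (N + 1), Good K x → gauge Q (tl (bd K x)) ≤ r →
        (0 < ε * NN K x 0 → hi ≤ ε * bd K x 0) ∧ (ε * NN K x 0 < 0 → ε * bd K x 0 ≤ lo) := by
  obtain ⟨w, hw, hwR⟩ := exists_RR hQ hK
  obtain ⟨δ, hδ, hs⟩ := Chd_single hK
  have hεε : ε * ε = 1 := by
    rcases hε with h | h <;> rw [h] <;> norm_num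
  obtain ⟨R, hRR⟩ : ∃ R, R = RR Q K := ⟨_, rfl⟩
  rw [← hRR] at hwR hrR
  have hR0 : 0 < R := hr.trans_lt hrR
  obtain ⟨τ, hτ⟩ : ∃ τ, τ = (r + R) / (2 * R) := ⟨_, rfl⟩
  have hτ0 : 0 < τ := by
    rw [hτ]
    positivity
  have hτ1 : τ < 1 := by
    rw [hτ, div_lt_one (by linarith)]
    linarith
  have hτR : r ≤ τ * R := by
    have h1 : τ * R = (r + R) / 2 := by
      rw [hτ]
      field_simp
    rw [h1]
    linarith
  have h1τ : 0 < 1 - τ := by linarith
  have hpos : 0 < (1 - τ) * δ := mul_pos h1τ hδ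
  obtain ⟨lo, hlo⟩ : ∃ lo, lo = ε * (τ * w 0) - (1 - τ) * δ := ⟨_, rfl⟩
  obtain ⟨hi, hhi⟩ : ∃ hi, hi = ε * (τ * w 0) + (1 - τ) * δ := ⟨_, rfl⟩
  have hlohi : lo < hi := by
    rw [hlo, hhi]
    linarith
  have first : ∀ x : EE (N + 1), gauge Q (tl x) ≤ r → lo ≤ ε * x 0 → ε * x 0 ≤ hi → x ∈ K := by
    intro x hx h1 h2
    obtain ⟨η, hη⟩ : ∃ η, η = (x 0 - τ * w 0) / (1 - τ) := ⟨_, rfl⟩
    have hη' : (1 - τ) * η = x 0 - τ * w 0 := by
      rw [hη]
      field_simp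
    have h3 : |η| ≤ δ := by
      have h4 : |(1 - τ) * η| ≤ (1 - τ) * δ := by
        rw [hη', abs_le]
        rw [hlo] at h1
        rw [hhi] at h2
        rcases hε with h | h <;> rw [h] at h1 h2 <;> constructor <;> linarith
      rw [abs_mul, abs_of_pos h1τ] at h4
      exact le_of_mul_le_mul_left h4 h1τ
    have h5 : pr (w 0) (τ⁻¹ • tl x) ∈ K := by
      refine hR w _ (pr_zero _ _).symm ?_ hw
      rw [tl_pr, gauge_smul_of_nonneg (inv_nonneg.2 hτ0.le), smul_eq_mul, hwR,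
        inv_mul_le_iff₀ hτ0]
      exact hx.trans hτR
    have h6 : x = τ • pr (w 0) (τ⁻¹ • tl x) + (1 - τ) • EuclideanSpace.single 0 η := by
      obtain ⟨y, hy⟩ : ∃ y, y = τ • pr (w 0) (τ⁻¹ • tl x) +
        (1 - τ) • EuclideanSpace.single 0 η := ⟨_, rfl⟩
      have h7 : y 0 = x 0 := by
        rw [hy, PiLp.add_apply, PiLp.smul_apply, PiLp.smul_apply, pr_zero,
          PiLp.single_apply, if_pos rfl, smul_eq_mul, smul_eq_mul, hη']
        ring
      have h8 : tl y = tl x := by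
        rw [hy, tl_add, tl_smul, tl_smul, tl_pr, tl_single, smul_zero, add_zero, smul_smul,
          mul_inv_cancel₀ hτ0.ne', one_smul]
      rw [← hy, ← pr_eta x, ← pr_eta y, h7, h8]
    rw [h6]
    exact hK.conv h5 (hs η h3) hτ0.le h1τ.le (by ring)
  refine ⟨lo, hi, hlohi, first, fun x hx hq => ?_⟩
  obtain ⟨z, hz⟩ : ∃ z, z = bd K x := ⟨_, rfl⟩
  rw [← hz] at hq ⊢
  have hin : (inner ℝ (NN K x) z : ℝ) = 1 := by
    rw [hz]
    exact inner_NN_bd hK hx.1 hx.2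
  -- moving the point vertically to the height `c`
  have move : ∀ c : ℝ, lo ≤ c → c ≤ hi → ε * NN K x 0 * (c - ε * z 0) ≤ 0 := by
    intro c h1 h2
    obtain ⟨t, ht⟩ : ∃ t, t = ε * (c - ε * z 0) := ⟨_, rfl⟩
    have h3 : ε * (z + EuclideanSpace.single 0 t : EE (N + 1)) 0 = c := by
      rw [PiLp.add_apply, PiLp.single_apply, if_pos rfl, ht]
      linear_combination (c - ε * z 0) * hεε
    have h4 : z + EuclideanSpace.single 0 t ∈ K := by
      refine first _ ?_ ?_ ?_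
      · rw [q_add_single]
        exact hq
      · rw [h3]
        exact h1
      · rw [h3]
        exact h2
    have h5 := (inner_NN_le hK x (z + EuclideanSpace.single 0 t)).trans
      ((hK.gauge_le_one _).2 h4)
    rw [inner_add_right, hin, EuclideanSpace.inner_single_right] at h5
    simp only [conj_trivial] at h5
    rw [ht] at h5
    linarith
  constructor
  · intro h
    by_contra h1
    rw [not_le] at h1
    have h2 := move hi hlohi.le le_rfl
    have h3 : 0 < ε * NN K x 0 * (hi - ε * z 0) := mul_pos h (by linarith)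
    linarith
  · intro h
    by_contra h1
    rw [not_le] at h1
    have h2 := move lo le_rfl hlohi.le
    have h3 : 0 < ε * NN K x 0 * (lo - ε * z 0) := mul_pos_of_neg_of_neg h (by linarith)
    linarith

end Pool.Agent.MP9dd972R
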