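import Mathlib
import Pool.Agent.Lib.MP_9dd972_gt.N.Gauge
import Pool.Agent.Lib.MP_9dd972_gt.N.Hsup
import Pool.Agent.Lib.MP_9dd972_gt.N.Div
import Pool.Agent.Lib.MP_9dd972_gt_R.Defs
import Pool.Agent.Lib.MP_9dd972_gt_R.Crd
import Pool.Agent.Lib.MP_9dd972_gt_R.Rad
import Pool.Agent.Lib.MP_9dd972_gt_R.Nml
import Pool.Agent.Lib.MP_9dd972_gt_R.Chd
import Pool.Agent.Lib.MP_9dd972_gt_R.Bmp

/-!
# MP_9dd972_gt, bodies with homothetic sections: the divergence theorem for one side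
-/

set_option autoImplicit false

namespace Pool.Agent.MP9dd972R

open MeasureTheory Set Metric Pool.Agent.MP9dd972N
open scoped ENNReal NNReal Topology Pointwise

variable {N : ℕ} {Q : Set (EE N)} {K : Set (EE (N + 1))}

private theorem Dvg_cd {F : EE N → ℝ} {θ : ℝ → ℝ} (hF : ContDiff ℝ (⊤ : ℕ∞) F)
    (hθ : ContDiff ℝ (⊤ : ℕ∞) θ) (ε : ℝ) :
    ContDiff ℝ (⊤ : ℕ∞) (fun x : EE (N + 1) => F (tl x) * θ (ε * x 0)) := by
  have h1 : ContDiff ℝ (⊤ : ℕ∞) (fun x : EE (N + 1) => ε * x 0) := by fun_prop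
  exact (hF.comp contDiff_tl).mul (hθ.comp h1)

private theorem Dvg_deriv {F : EE N → ℝ} {θ : ℝ → ℝ} (hF : ContDiff ℝ (⊤ : ℕ∞) F)
    (hθ : ContDiff ℝ (⊤ : ℕ∞) θ) (ε : ℝ) (x : EE (N + 1)) :
    fderiv ℝ (fun x : EE (N + 1) => F (tl x) * θ (ε * x 0)) x
      (EuclideanSpace.single (0 : Fin (N + 1)) (1 : ℝ)) =
        F (tl x) * (deriv θ (ε * x 0) * ε) := by
  have hd : DifferentiableAt ℝ (fun x : EE (N + 1) => F (tl x) * θ (ε * x 0)) x :=
    ((Dvg_cd hF hθ ε).differentiable (by simp)) x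
  have h1 := hd.hasFDerivAt.hasLineDerivAt (EuclideanSpace.single (0 : Fin (N + 1)) (1 : ℝ))
  unfold HasLineDerivAt at h1
  have e1 : (fun t : ℝ => F (tl (x + t • EuclideanSpace.single (0 : Fin (N + 1)) (1 : ℝ))) *
      θ (ε * (x + t • EuclideanSpace.single (0 : Fin (N + 1)) (1 : ℝ)) 0)) =
      fun t : ℝ => F (tl x) * θ (ε * (x 0 + t)) := by
    funext t
    rw [tl_add, tl_smul, tl_single, smul_zero, add_zero]
    simp
  rw [e1] at h1
  have h2 : HasDerivAt (fun t : ℝ => ε * (x 0 + t)) ε 0 := by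
    have := ((hasDerivAt_id (0 : ℝ)).const_add (x 0)).const_mul ε
    simpa using this
  have h3 : HasDerivAt θ (deriv θ (ε * x 0)) (ε * (x 0 + 0)) := by
    rw [add_zero]
    exact ((hθ.differentiable (by simp)) _).hasDerivAt
  have h4 : HasDerivAt (fun t : ℝ => F (tl x) * θ (ε * (x 0 + t)))
      (F (tl x) * (deriv θ (ε * x 0) * ε)) 0 :=
    (HasDerivAt.comp (0 : ℝ) h3 h2).const_mul (F (tl x))
  exact h1.unique h4

theorem dv_side {F : EE N → ℝ} {θ : ℝ → ℝ} (hF : ContDiff ℝ (⊤ : ℕ∞) F)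
    (hθ : ContDiff ℝ (⊤ : ℕ∞) θ) {ε : ℝ} (hε : ε = 1 ∨ ε = -1) :
    ContDiff ℝ 1 (fun x : EE (N + 1) => (F (tl x) * θ (ε * x 0)) •
      EuclideanSpace.single (0 : Fin (N + 1)) ε) ∧
    ∀ x, dv (fun x : EE (N + 1) => (F (tl x) * θ (ε * x 0)) •
      EuclideanSpace.single (0 : Fin (N + 1)) ε) x = deriv θ (ε * x 0) * F (tl x) := by
  have hg := Dvg_cd hF hθ ε
  refine ⟨(hg.smul contDiff_const).of_le (by exact_mod_cast le_top), fun x => ?_⟩
  have hd : DifferentiableAt ℝ (fun x : EE (N + 1) => F (tl x) * θ (ε * x 0)) x :=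
    (hg.differentiable (by simp)) x
  have h1 := (hd.hasFDerivAt.smul_const (EuclideanSpace.single (0 : Fin (N + 1)) ε)).fderiv
  unfold dv
  rw [h1, Fin.sum_univ_succ]
  have h2 : ∀ i : Fin N, ((fderiv ℝ (fun x : EE (N + 1) => F (tl x) * θ (ε * x 0)) x).smulRight
      (EuclideanSpace.single (0 : Fin (N + 1)) ε)
      (EuclideanSpace.single i.succ (1 : ℝ)) : EE (N + 1)) i.succ = 0 := by
    intro i
    rw [ContinuousLinearMap.smulRight_apply]
    simp
  rw [Finset.sum_eq_zero fun i _ => h2 i, add_zero, ContinuousLinearMap.smulRight_apply,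
    Dvg_deriv hF hθ ε x]
  have h3 : ε * ε = 1 := by rcases hε with rfl | rfl <;> norm_num
  simp only [PiLp.smul_apply, EuclideanSpace.single_apply, if_true, smul_eq_mul]
  linear_combination (F (tl x) * deriv θ (ε * x 0)) * h3

theorem div_side (hN : 1 ≤ N) (hQ : Body Q) (hK : Body K) (hR : Rev Q K) {ε : ℝ}
    (hε : ε = 1 ∨ ε = -1) {r : ℝ} (hr : 0 ≤ r) (hrR : r < RR Q K) {F : EE N → ℝ}
    (hF : ContDiff ℝ (⊤ : ℕ∞) F) (h0 : ∀ y, r ≤ gauge Q y → F y = 0) :
    (N + 1) * ∫ x in K, max 0 (ε * NN K x 0) * F (tl (bd K x)) = ∫ y, F y := by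
  obtain ⟨lo, hi, hlt, hc1, hc2⟩ := chord hN hQ hK hR hε hr hrR
  obtain ⟨θ, hθ, t0, t1, d0, d1, -, hd1⟩ := step hlt
  obtain ⟨hV, hdv⟩ := dv_side hF hθ hε
  have h := div_cone (Nat.succ_pos N) hK hV
  have hKm : MeasurableSet K := hK.comp.isClosed.measurableSet
  have hne : ∀ y, F y ≠ 0 → gauge Q y ≤ r := by
    intro y hy
    by_contra hcon
    exact hy (h0 y (not_le.1 hcon).le)
  have hright : ∫ x in K, (inner ℝ (NN K x) ((F (tl (bd K x)) * θ (ε * (bd K x) 0)) •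
      EuclideanSpace.single (0 : Fin (N + 1)) ε) : ℝ) =
      ∫ x in K, max 0 (ε * NN K x 0) * F (tl (bd K x)) := by
    refine setIntegral_congr_ae hKm ?_
    filter_upwards [good_ae hK] with x hx _
    have e1 : (inner ℝ (NN K x) ((F (tl (bd K x)) * θ (ε * (bd K x) 0)) •
        EuclideanSpace.single (0 : Fin (N + 1)) ε) : ℝ) =
        F (tl (bd K x)) * θ (ε * (bd K x) 0) * (ε * NN K x 0) := by
      rw [inner_smul_right, EuclideanSpace.inner_single_right]
      simp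
    rw [e1]
    by_cases hz : F (tl (bd K x)) = 0
    · rw [hz]
      ring
    · obtain ⟨c1, c2⟩ := hc2 x hx (hne _ hz)
      rcases lt_trichotomy (ε * NN K x 0) 0 with hs | hs | hs
      · rw [t0 _ (c2 hs), max_eq_left hs.le]
        ring
      · rw [hs, max_self]
        ring
      · rw [t1 _ (c1 hs), max_eq_right hs.le]
        ring
  have hleft : ∫ x in K, dv (fun x : EE (N + 1) => (F (tl x) * θ (ε * x 0)) •
      EuclideanSpace.single (0 : Fin (N + 1)) ε) x = ∫ y, F y := by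
    simp only [hdv]
    rw [setIntegral_eq_integral_of_forall_compl_eq_zero]
    · rw [int_prod (fun t => deriv θ (ε * t)) F]
      have h5 : ∫ t, deriv θ (ε * t) = 1 := by
        rcases hε with rfl | rfl
        · simpa using hd1
        · have h6 : (fun t : ℝ => deriv θ (-1 * t)) = fun t : ℝ => deriv θ (-t) := by
            funext t
            rw [neg_one_mul]
          rw [h6, integral_neg_eq_self (deriv θ) volume]
          exact hd1
      rw [h5, one_mul]
    · intro x hx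
      by_contra hcon
      have h5 : deriv θ (ε * x 0) ≠ 0 := fun h6 => hcon (by rw [h6, zero_mul])
      have h6 : F (tl x) ≠ 0 := fun h6 => hcon (by rw [h6, mul_zero])
      refine hx (hc1 x (hne _ h6) ?_ ?_)
      · by_contra h7
        exact h5 (d0 _ (not_le.1 h7))
      · by_contra h7
        exact h5 (d1 _ (not_le.1 h7))
  rw [hleft, hright] at h
  rw [h]
  push_cast
  ring

end Pool.Agent.MP9dd972R
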