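import Mathlib
import Pool.Agent.Lib.MP_9dd972_gt.N.Gauge
import Pool.Agent.Lib.MP_9dd972_gt.N.Hsup
import Pool.Agent.Lib.MP_9dd972_gt_R.Defs
import Pool.Agent.Lib.MP_9dd972_gt_R.Crd
import Pool.Agent.Lib.MP_9dd972_gt_R.Rad
import Pool.Agent.Lib.MP_9dd972_gt_R.Hqa
import Pool.Agent.Lib.MP_9dd972_gt_R.Nml
import Pool.Agent.Lib.MP_9dd972_gt_R.Bmp
import Pool.Agent.Lib.MP_9dd972_gt_R.Dvg

/-!
# MP_9dd972_gt, bodies with homothetic sections: projections of the caps
-/

set_option autoImplicit false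

namespace Pool.Agent.MP9dd972R

open MeasureTheory Set Metric Pool.Agent.MP9dd972N
open scoped ENNReal NNReal Topology Pointwise

variable {N : ℕ} {Q : Set (EE N)} {K : Set (EE (N + 1))}

private theorem dens_meas (K : Set (EE (N + 1))) (ε : ℝ) :
    Measurable fun x : EE (N + 1) => ε * NN K x 0 := by
  have h1 : Measurable fun x : EE (N + 1) => x 0 := by
    apply Continuous.measurable
    fun_prop
  exact (h1.comp (NN_meas K)).const_mul ε

theorem cQ_pos (hQ : Body Q) : 0 < cQ Q := by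
  unfold cQ
  have h1 : 0 < volume Q := Measure.measure_pos_of_nonempty_interior volume ⟨0, hQ.zero⟩
  have h2 := ENNReal.toReal_pos h1.ne' hQ.comp.measure_lt_top.ne
  positivity

theorem mu_fin (hK : Body K) (ε : ℝ) : IsFiniteMeasure (mu ε K) := by
  obtain ⟨r, R, hr, hR, hrd⟩ := hK.round
  have h1 : IntegrableOn (fun x => ε * NN K x 0) K := by
    refine Measure.integrableOn_of_bounded (M := |ε| * r⁻¹) hK.comp.measure_lt_top.ne
      (dens_meas K ε).aestronglyMeasurable (Filter.Eventually.of_forall fun x => ?_)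
    rw [norm_mul, Real.norm_eq_abs]
    exact mul_le_mul_of_nonneg_left ((PiLp.norm_apply_le (NN K x) 0).trans (norm_NN_le hr hrd x))
      (abs_nonneg ε)
  exact isFiniteMeasure_withDensity_ofReal h1.2

theorem mu_good (hK : Body K) (ε : ℝ) : ∀ᵐ x ∂(mu ε K), Good K x ∧ x ∈ K ∧
    0 < ε * NN K x 0 := by
  unfold mu
  rw [ae_withDensity_iff (dens_meas K ε).ennreal_ofReal,
    ae_restrict_iff' hK.comp.measurableSet]
  filter_upwards [good_ae hK] with x hx hxK h0
  refine ⟨hx, hxK, ?_⟩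
  by_contra hn
  exact h0 (ENNReal.ofReal_eq_zero.2 (not_lt.1 hn))

theorem int_mu (hK : Body K) (ε : ℝ) {f : EE (N + 1) → ℝ} (hf : Measurable f) :
    ∫ x, f x ∂(mu ε K) = ∫ x in K, max 0 (ε * NN K x 0) * f x := by
  unfold mu
  rw [integral_withDensity_eq_integral_toReal_smul (dens_meas K ε).ennreal_ofReal
    (Filter.Eventually.of_forall fun x => ENNReal.ofReal_lt_top)]
  congr 1
  funext x
  rw [ENNReal.toReal_ofReal', max_comm, smul_eq_mul]

private theorem int_low {α : Type*} [MeasurableSpace α] {ν : Measure α} {S : Set α}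
    (hS : MeasurableSet S) (hfin : ν S ≠ ⊤) {g : α → ℝ} (hg : Integrable g ν)
    (h0 : ∀ x, 0 ≤ g x) (h1 : ∀ x ∈ S, g x = 1) : ν.real S ≤ ∫ x, g x ∂ν := by
  rw [← integral_indicator_one hS]
  refine integral_mono ?_ hg fun x => ?_
  · rw [integrable_indicator_iff hS]
    exact integrableOn_const hfin
  · by_cases hx : x ∈ S
    · rw [indicator_of_mem hx, h1 x hx]
      rfl
    · rw [indicator_of_notMem hx]
      exact h0 x

private theorem int_upp {α : Type*} [MeasurableSpace α] {ν : Measure α} {T : Set α}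
    (hT : MeasurableSet T) (hfin : ν T ≠ ⊤) {g : α → ℝ} (hg : Integrable g ν)
    (h1 : ∀ x, g x ≤ 1) (h0 : ∀ x, x ∉ T → g x = 0) : ∫ x, g x ∂ν ≤ ν.real T := by
  rw [← integral_indicator_one hT]
  refine integral_mono hg ?_ fun x => ?_
  · rw [integrable_indicator_iff hT]
    exact integrableOn_const hfin
  · by_cases hx : x ∈ T
    · rw [indicator_of_mem hx]
      exact h1 x
    · rw [indicator_of_notMem hx, h0 x hx]

private theorem gauge_set (hQ : Body Q) {r : ℝ} (hr : 0 < r) :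
    {y : EE N | gauge Q y ≤ r} = r • Q := by
  ext y
  rw [Set.mem_ofPred_eq, Set.mem_smul_set_iff_inv_smul_mem₀ hr.ne', ← hQ.gauge_le_one,
    gauge_smul_of_nonneg (inv_nonneg.2 hr.le), smul_eq_mul, inv_mul_le_iff₀ hr, mul_one]

private theorem gauge_vol (hQ : Body Q) {r : ℝ} (hr : 0 < r) :
    volume {y : EE N | gauge Q y ≤ r} ≠ ⊤ ∧
    (volume : Measure (EE N)).real {y : EE N | gauge Q y ≤ r} = (N + 1) * (cQ Q * r ^ N) := by
  rw [gauge_set hQ hr]
  have h1 : volume (r • Q) = ENNReal.ofReal (r ^ N) * volume Q := by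
    rw [Measure.addHaar_smul, finrank_euclideanSpace_fin, abs_of_nonneg (by positivity)]
  constructor
  · rw [h1]
    exact ENNReal.mul_ne_top ENNReal.ofReal_ne_top hQ.comp.measure_lt_top.ne
  · rw [measureReal_def, h1, ENNReal.toReal_mul, ENNReal.toReal_ofReal (by positivity)]
    unfold cQ
    field_simp

private theorem q_meas (hQ : Body Q) (hK : Body K) :
    Measurable fun x : EE (N + 1) => gauge Q (tl (bd K x)) :=
  (q_cont hQ).measurable.comp (bd_meas hK)

/-- step (1) -/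
private theorem cap_step (hN : 1 ≤ N) (hQ : Body Q) (hK : Body K) (hR : Rev Q K) {ε : ℝ}
    (hε : ε = 1 ∨ ε = -1) {r₁ r₀ : ℝ} (h1 : 0 ≤ r₁) (h10 : r₁ < r₀) (h0 : r₀ < RR Q K) :
    (mu ε K).real {x | gauge Q (tl (bd K x)) ≤ r₁} ≤ cQ Q * r₀ ^ N ∧
      (0 < r₁ → cQ Q * r₁ ^ N ≤ (mu ε K).real {x | gauge Q (tl (bd K x)) < r₀}) := by
  have : IsFiniteMeasure (mu ε K) := mu_fin hK ε
  obtain ⟨F, hF, F0, F1, Fone, Fzero⟩ := bump hQ h1 h10
  have hr0 : 0 < r₀ := h1.trans_lt h10
  have hdiv := div_side hN hQ hK hR hε hr0.le h0 hF Fzero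
  have hqm := q_meas hQ hK
  have hGm : Measurable fun x : EE (N + 1) => F (tl (bd K x)) :=
    hF.continuous.measurable.comp (cont_tl.measurable.comp (bd_meas hK))
  rw [← int_mu hK ε hGm] at hdiv
  have hGi : Integrable (fun x : EE (N + 1) => F (tl (bd K x))) (mu ε K) := by
    refine Integrable.of_bound hGm.aestronglyMeasurable 1
      (Filter.Eventually.of_forall fun x => ?_)
    rw [Real.norm_eq_abs, abs_of_nonneg (F0 _)]
    exact F1 _
  have hFi : Integrable F := by
    refine hF.continuous.integrable_of_hasCompactSupport ?_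
    refine HasCompactSupport.intro (hQ.comp.smul r₀) fun y hy => ?_
    rw [← gauge_set hQ hr0] at hy
    exact Fzero y (not_le.1 hy).le
  have hN1 : (0:ℝ) < N + 1 := by positivity
  constructor
  · have a1 := int_low (ν := mu ε K) (hqm measurableSet_Iic) (measure_ne_top _ _) hGi
      (fun x => F0 _) (fun x hx => Fone _ hx)
    obtain ⟨b1, b2⟩ := gauge_vol hQ hr0
    have hms : MeasurableSet {y : EE N | gauge Q y ≤ r₀} := by
      rw [gauge_set hQ hr0]
      exact (hQ.comp.smul r₀).measurableSet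
    have a2 := int_upp (ν := (volume : Measure (EE N))) hms b1 hFi F1
      (fun y hy => Fzero y (not_le.1 hy).le)
    rw [b2, ← hdiv] at a2
    have a3 := le_of_mul_le_mul_left a2 hN1
    exact le_trans a1 a3
  · intro h1p
    have a1 := int_upp (ν := mu ε K) (hqm measurableSet_Iio) (measure_ne_top _ _) hGi
      (fun x => F1 _) (fun x (hx : ¬ gauge Q (tl (bd K x)) < r₀) => Fzero _ (not_lt.1 hx))
    obtain ⟨b1, b2⟩ := gauge_vol hQ h1p
    have hms : MeasurableSet {y : EE N | gauge Q y ≤ r₁} := by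
      rw [gauge_set hQ h1p]
      exact (hQ.comp.smul r₁).measurableSet
    have a2 := int_low (ν := (volume : Measure (EE N))) hms b1 hFi F0 (fun y hy => Fone y hy)
    rw [b2, ← hdiv] at a2
    exact le_trans (le_of_mul_le_mul_left a2 hN1) a1

/-- step (2), upper bound -/
private theorem cap_upper (hN : 1 ≤ N) (hQ : Body Q) (hK : Body K) (hR : Rev Q K) {ε : ℝ}
    (hε : ε = 1 ∨ ε = -1) {r : ℝ} (hr : 0 ≤ r) (hrR : r < RR Q K) :
    (mu ε K).real {x | gauge Q (tl (bd K x)) ≤ r} ≤ cQ Q * r ^ N := by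
  have hc : Continuous fun s : ℝ => cQ Q * s ^ N := by fun_prop
  have ht : Filter.Tendsto (fun s : ℝ => cQ Q * s ^ N) (𝓝[>] r) (𝓝 (cQ Q * r ^ N)) :=
    (hc.tendsto r).mono_left nhdsWithin_le_nhds
  refine ge_of_tendsto ht ?_
  filter_upwards [Ioo_mem_nhdsGT hrR] with s hs
  exact (cap_step hN hQ hK hR hε hr hs.1 hs.2).1

/-- step (2), lower bound -/
private theorem cap_lower (hN : 1 ≤ N) (hQ : Body Q) (hK : Body K) (hR : Rev Q K) {ε : ℝ}
    (hε : ε = 1 ∨ ε = -1) {r : ℝ} (hr : 0 < r) (hrR : r ≤ RR Q K) :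
    cQ Q * r ^ N ≤ (mu ε K).real {x | gauge Q (tl (bd K x)) < r} := by
  have : IsFiniteMeasure (mu ε K) := mu_fin hK ε
  have hc : Continuous fun s : ℝ => cQ Q * s ^ N := by fun_prop
  have ht : Filter.Tendsto (fun s : ℝ => cQ Q * s ^ N) (𝓝[<] r) (𝓝 (cQ Q * r ^ N)) :=
    (hc.tendsto r).mono_left nhdsWithin_le_nhds
  refine le_of_tendsto ht ?_
  filter_upwards [Ioo_mem_nhdsLT hr] with s hs
  obtain ⟨u, hsu, hur⟩ := exists_between hs.2
  refine ((cap_step hN hQ hK hR hε hs.1.le hsu (hur.trans_le hrR)).2 hs.1).trans ?_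
  exact measureReal_mono fun x (hx : gauge Q (tl (bd K x)) < u) => hx.trans hur

/-- step (3), upper bound -/
private theorem cap_top (hN : 1 ≤ N) (hQ : Body Q) (hK : Body K) (hR : Rev Q K) {ε : ℝ}
    (hε : ε = 1 ∨ ε = -1) :
    (mu ε K).real {x | gauge Q (tl (bd K x)) < RR Q K} ≤ cQ Q * RR Q K ^ N := by
  have : IsFiniteMeasure (mu ε K) := mu_fin hK ε
  have hRp := RR_pos hN hQ hK
  obtain ⟨u, hu1, hu2, hu3⟩ := exists_seq_strictMono_tendsto' hRp
  have hmono : Monotone fun k : ℕ => {x : EE (N + 1) | gauge Q (tl (bd K x)) ≤ u k} := by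
    intro a b hab x hx
    exact le_trans hx (hu1.monotone hab)
  have hun : (⋃ k : ℕ, {x : EE (N + 1) | gauge Q (tl (bd K x)) ≤ u k}) =
      {x | gauge Q (tl (bd K x)) < RR Q K} := by
    ext x
    rw [mem_iUnion, Set.mem_ofPred_eq]
    constructor
    · rintro ⟨k, hk⟩
      exact lt_of_le_of_lt hk (hu2 k).2
    · intro hx
      obtain ⟨k, hk⟩ := (hu3.eventually_const_lt hx).exists
      exact ⟨k, hk.le⟩
  have ht := tendsto_measure_iUnion_atTop (μ := mu ε K) hmono
  rw [hun] at ht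
  have hle : mu ε K {x | gauge Q (tl (bd K x)) < RR Q K} ≤ ENNReal.ofReal (cQ Q * RR Q K ^ N) := by
    refine le_of_tendsto' ht fun k => ?_
    show mu ε K {x | gauge Q (tl (bd K x)) ≤ u k} ≤ _
    rw [← ofReal_measureReal (μ := mu ε K)]
    apply ENNReal.ofReal_le_ofReal
    refine (cap_upper hN hQ hK hR hε (hu2 k).1.le (hu2 k).2).trans ?_
    exact mul_le_mul_of_nonneg_left (pow_le_pow_left₀ (hu2 k).1.le (hu2 k).2.le N)
      (cQ_pos hQ).le
  have hnn : 0 ≤ cQ Q * RR Q K ^ N := mul_nonneg (cQ_pos hQ).le (pow_nonneg hRp.le N)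
  rw [measureReal_def]
  exact ENNReal.toReal_le_of_le_ofReal hnn hle

/-- step (3), the largest section -/
private theorem cap_null (hN : 1 ≤ N) (hQ : Body Q) (hK : Body K) (hR : Rev Q K) {ε : ℝ}
    (hε : ε = 1 ∨ ε = -1) : mu ε K {x | gauge Q (tl (bd K x)) = RR Q K} = 0 := by
  have hRp := RR_pos hN hQ hK
  have hac : mu ε K ≪ (volume : Measure (EE (N + 1))) :=
    (withDensity_absolutelyContinuous _ _).trans Measure.restrict_le_self.absolutelyContinuous
  by_cases hex : ∃ x₀ : EE (N + 1), (Good K x₀ ∧ x₀ ∈ K ∧ 0 < ε * NN K x₀ 0) ∧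
      gauge Q (tl (bd K x₀)) = RR Q K
  · obtain ⟨x₀, ⟨hg₀, _, hp₀⟩, hq₀⟩ := hex
    have hcmp : ∀ x y : EE (N + 1), Good K x → 0 < ε * NN K x 0 →
        gauge Q (tl (bd K x)) = RR Q K → gauge Q (tl (bd K y)) = RR Q K →
        ε * bd K y 0 ≤ ε * bd K x 0 := by
      intro x y hg hp hq hq'
      have h1 := (nml_H hQ hK hR hε hg hp).2
      have h2 := le_HH hQ hK (bd_mem hK y) ε (slo Q ε K x)
      rw [hq] at h1
      rw [hq'] at h2
      linarith
    have hn := hac.ae_le (measure_eq_zero_iff_ae_notMem.1 (q_null hQ (bd K x₀ 0 / RR Q K)))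
    rw [measure_eq_zero_iff_ae_notMem]
    filter_upwards [mu_good hK ε, hn] with x hx hxn hxq
    obtain ⟨hg, _, hp⟩ := hx
    apply hxn
    have e1 := hcmp x x₀ hg hp hxq hq₀
    have e2 := hcmp x₀ x hg₀ hp₀ hq₀ hxq
    have e3 : bd K x 0 = bd K x₀ 0 := by
      rcases hε with h | h
      · rw [h] at e1 e2
        linarith
      · rw [h] at e1 e2
        linarith
    have hgp := hK.gauge_pos hg.2
    have hx1 : x = gauge K x • bd K x := by
      rw [bd, smul_smul, mul_inv_cancel₀ hgp.ne', one_smul]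
    have hx0 : x 0 = gauge K x * bd K x 0 := by
      conv_lhs => rw [hx1]
      rfl
    have hxq' : gauge Q (tl x) = gauge K x * RR Q K := by
      conv_lhs => rw [hx1]
      rw [q_smul Q hgp.le, hxq]
    show x 0 = bd K x₀ 0 / RR Q K * gauge Q (tl x)
    rw [hx0, hxq', e3]
    field_simp
  · rw [measure_eq_zero_iff_ae_notMem]
    filter_upwards [mu_good hK ε] with x hx hxq
    exact hex ⟨x, hx, hxq⟩

theorem bd_cap (hN : 1 ≤ N) (hQ : Body Q) (hK : Body K) (hR : Rev Q K) {ε : ℝ}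
    (hε : ε = 1 ∨ ε = -1) {r : ℝ} (hr : 0 ≤ r) (hrR : r ≤ RR Q K) :
    mu ε K {x | gauge Q (tl (bd K x)) < r} = ENNReal.ofReal (cQ Q * r ^ N) ∧
      mu ε K {x | gauge Q (tl (bd K x)) ≤ r} = ENNReal.ofReal (cQ Q * r ^ N) := by
  have : IsFiniteMeasure (mu ε K) := mu_fin hK ε
  have hmono : (mu ε K).real {x | gauge Q (tl (bd K x)) < r} ≤
      (mu ε K).real {x | gauge Q (tl (bd K x)) ≤ r} :=
    measureReal_mono fun x (hx : gauge Q (tl (bd K x)) < r) => hx.le
  suffices h : (mu ε K).real {x | gauge Q (tl (bd K x)) < r} = cQ Q * r ^ N ∧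
      (mu ε K).real {x | gauge Q (tl (bd K x)) ≤ r} = cQ Q * r ^ N by
    exact ⟨by rw [← h.1, ofReal_measureReal], by rw [← h.2, ofReal_measureReal]⟩
  rcases hrR.eq_or_lt with hrR' | hrR'
  · rw [hrR'] at hmono ⊢
    have hRp := RR_pos hN hQ hK
    have h1 := cap_lower hN hQ hK hR hε hRp le_rfl
    have h2 := cap_top hN hQ hK hR hε
    have h3 : (mu ε K).real {x | gauge Q (tl (bd K x)) ≤ RR Q K} ≤
        (mu ε K).real {x | gauge Q (tl (bd K x)) < RR Q K} +
          (mu ε K).real {x | gauge Q (tl (bd K x)) = RR Q K} := by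
      refine le_trans (measureReal_mono ?_) (measureReal_union_le _ _)
      intro x (hx : gauge Q (tl (bd K x)) ≤ RR Q K)
      exact hx.lt_or_eq
    have h4 : (mu ε K).real {x | gauge Q (tl (bd K x)) = RR Q K} = 0 := by
      rw [measureReal_def, cap_null hN hQ hK hR hε, ENNReal.toReal_zero]
    constructor <;> linarith
  · have h2 := cap_upper hN hQ hK hR hε hr hrR'
    rcases hr.eq_or_lt with hr0 | hr0
    · have h5 : cQ Q * r ^ N = 0 := by
        rw [← hr0, zero_pow (by omega), mul_zero]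
      have h6 : 0 ≤ (mu ε K).real {x | gauge Q (tl (bd K x)) < r} := measureReal_nonneg
      constructor <;> linarith
    · have h1 := cap_lower hN hQ hK hR hε hr0 hrR
      constructor <;> linarith

end Pool.Agent.MP9dd972R
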