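import Mathlib
import Pool.Agent.Lib.MP_9dd972_gt_R.Defs

/-!
# MP_9dd972_gt, bodies with homothetic sections: the functions vv and cc
-/

set_option autoImplicit false

namespace Pool.Agent.MP9dd972R

open MeasureTheory Set Metric Pool.Agent.MP9dd972N
open scoped ENNReal NNReal Topology Pointwise

private theorem Ccv_pow (n : ℕ) {R r : ℝ} (hr : 0 ≤ r) (hR : r ≤ R) :
    ((n : ℝ) + 1) * R * r ^ n ≤ R ^ (n + 1) + n * r ^ (n + 1) := by
  induction n with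
  | zero => simp
  | succ n ih =>
    have h1 : r ^ (n + 1) ≤ R ^ (n + 1) := pow_le_pow_left₀ hr hR _
    have h2 : ((n : ℝ) + 1) * R * r ^ (n + 1) ≤ r * (R ^ (n + 1) + n * r ^ (n + 1)) := by
      have e3 : r ^ (n + 1) = r * r ^ n := pow_succ' _ _
      calc ((n : ℝ) + 1) * R * r ^ (n + 1) = r * (((n : ℝ) + 1) * R * r ^ n) := by rw [e3]; ring
        _ ≤ _ := mul_le_mul_of_nonneg_left ih hr
    have h3 : 0 ≤ (R - r) * (R ^ (n + 1) - r ^ (n + 1)) :=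
      mul_nonneg (by linarith) (by linarith)
    push_cast
    have e1 : R ^ (n + 1 + 1) = R * R ^ (n + 1) := pow_succ' _ _
    have e2 : r ^ (n + 1 + 1) = r * r ^ (n + 1) := pow_succ' _ _
    rw [e1, e2]
    linarith [h2, h3]

private theorem Ccv_pow' (n : ℕ) {R r : ℝ} (hr : 0 ≤ r) (hR : r ≤ R) :
    ((n : ℝ) + 1) * r * R ^ n ≤ n * R ^ (n + 1) + r ^ (n + 1) := by
  induction n with
  | zero => simp
  | succ n ih =>
    have hR0 : 0 ≤ R := hr.trans hR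
    have h1 : r ^ (n + 1) ≤ R ^ (n + 1) := pow_le_pow_left₀ hr hR _
    have h2 : ((n : ℝ) + 1) * r * R ^ (n + 1) ≤ R * (n * R ^ (n + 1) + r ^ (n + 1)) := by
      have e3 : R ^ (n + 1) = R * R ^ n := pow_succ' _ _
      calc ((n : ℝ) + 1) * r * R ^ (n + 1) = R * (((n : ℝ) + 1) * r * R ^ n) := by rw [e3]; ring
        _ ≤ _ := mul_le_mul_of_nonneg_left ih hR0
    have h3 : 0 ≤ (R - r) * (R ^ (n + 1) - r ^ (n + 1)) :=
      mul_nonneg (by linarith) (by linarith)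
    push_cast
    have e1 : R ^ (n + 1 + 1) = R * R ^ (n + 1) := pow_succ' _ _
    have e2 : r ^ (n + 1 + 1) = r * r ^ (n + 1) := pow_succ' _ _
    rw [e1, e2]
    linarith [h2, h3]

theorem mean_le {N : ℕ} {R r : ℝ} (hr : 0 ≤ r) (hR : r ≤ R) :
    (N : ℝ) / (N + 1) * (R ^ (N + 1) - r ^ (N + 1)) ≤ R * (R ^ N - r ^ N) := by
  have h := Ccv_pow N hr hR
  have hN : (0 : ℝ) < (N : ℝ) + 1 := by positivity
  rw [div_mul_eq_mul_div, div_le_iff₀ hN]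
  have e1 : R ^ (N + 1) = R * R ^ N := pow_succ' _ _
  rw [e1] at h ⊢
  nlinarith [h]

theorem le_mean {N : ℕ} {R r : ℝ} (hr : 0 ≤ r) (hR : r ≤ R) :
    r * (R ^ N - r ^ N) ≤ (N : ℝ) / (N + 1) * (R ^ (N + 1) - r ^ (N + 1)) := by
  have h := Ccv_pow' N hr hR
  have hN : (0 : ℝ) < (N : ℝ) + 1 := by positivity
  rw [div_mul_eq_mul_div, le_div_iff₀ hN]
  have e1 : r ^ (N + 1) = r * r ^ N := pow_succ' _ _
  rw [e1] at h ⊢
  nlinarith [h]

theorem cc_self (N : ℕ) (R : ℝ) : cc N R R = 0 := by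
  simp [cc]

private theorem Ccv_D {N : ℕ} {R r : ℝ} (hr : 0 ≤ r) (hR : r ≤ R) : 0 ≤ R ^ N - r ^ N :=
  sub_nonneg.2 (pow_le_pow_left₀ hr hR _)

theorem cc_nonneg {N : ℕ} {R r : ℝ} (hr : 0 ≤ r) (hR : r ≤ R) : 0 ≤ cc N R r :=
  div_nonneg (by linarith [mean_le (N := N) hr hR]) (Ccv_D hr hR)

theorem cc_le {N : ℕ} {R r : ℝ} (hr : 0 ≤ r) (hR : r ≤ R) : cc N R r ≤ R - r := by
  unfold cc
  rcases (Ccv_D (N := N) hr hR).eq_or_lt with h | h
  · rw [← h]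
    simp
    exact hR
  · rw [div_le_iff₀ h]
    linarith [le_mean (N := N) hr hR]

theorem vv_nonneg {N : ℕ} {R r : ℝ} (hr : 0 ≤ r) (hR : r ≤ R) : 0 ≤ vv N R r :=
  div_nonneg (Ccv_D hr hR) (by positivity)

theorem vv_le {N : ℕ} {R r : ℝ} (hr : 0 ≤ r) (hR : r ≤ R) : vv N R r ≤ R ^ N * (R - r) := by
  unfold vv
  rw [div_le_iff₀ (by positivity)]
  have h := Ccv_pow' N hr hR
  have e1 : R ^ (N + 1) = R * R ^ N := pow_succ' _ _
  rw [e1] at h ⊢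
  nlinarith [h]

theorem vv_pos {N : ℕ} {R r : ℝ} (hr : 0 ≤ r) (hR : r < R) : 0 < vv N R r :=
  div_pos (sub_pos.2 (pow_lt_pow_left₀ hR hr (Nat.succ_ne_zero _))) (by positivity)

end Pool.Agent.MP9dd972R
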