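import Mathlib
import Pool.Agent.Lib.MP_9dd972_gt_R.Defs
import Pool.Agent.Lib.MP_9dd972_gt_R.Ccv

/-!
# MP_9dd972_gt, bodies with homothetic sections: integrability of vv and cc
-/

set_option autoImplicit false

namespace Pool.Agent.MP9dd972R

open MeasureTheory Set Metric Pool.Agent.MP9dd972N
open scoped ENNReal NNReal Topology Pointwise

theorem int_vv {N : ℕ} {R : ℝ} {ρ : ℝ → ℝ} (hm : Monotone ρ) (h0 : ∀ s, 0 ≤ ρ s)
    (h1 : ∀ s, ρ s ≤ R) (hi : IntegrableOn (fun s => R - ρ s) (Ioi (0 : ℝ))) :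
    IntegrableOn (fun s => vv N R (ρ s)) (Ioi (0 : ℝ)) := by
  refine Integrable.mono' (hi.const_mul (R ^ N)) ?_ (Filter.Eventually.of_forall fun s => ?_)
  · have hmm := hm.measurable
    have : Measurable fun s => vv N R (ρ s) := by
      unfold vv
      fun_prop
    exact this.aestronglyMeasurable
  · rw [Real.norm_of_nonneg (vv_nonneg (h0 s) (h1 s))]
    exact vv_le (h0 s) (h1 s)

theorem int_cc {N : ℕ} {R : ℝ} {ρ : ℝ → ℝ} (hm : Monotone ρ) (h0 : ∀ s, 0 ≤ ρ s)
    (h1 : ∀ s, ρ s ≤ R) (hi : IntegrableOn (fun s => R - ρ s) (Ioi (0 : ℝ))) :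
    IntegrableOn (fun s => cc N R (ρ s)) (Ioi (0 : ℝ)) := by
  refine Integrable.mono' hi ?_ (Filter.Eventually.of_forall fun s => ?_)
  · have hmm := hm.measurable
    have : Measurable fun s => cc N R (ρ s) := by
      unfold cc
      fun_prop
    exact this.aestronglyMeasurable
  · rw [Real.norm_of_nonneg (cc_nonneg (h0 s) (h1 s))]
    exact cc_le (h0 s) (h1 s)

end Pool.Agent.MP9dd972R
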