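import Mathlib
import Pool.Agent.Lib.MP_9dd972_gt_R.Defs
import Pool.Agent.Lib.MP_9dd972_gt_R.Ccv
import Pool.Agent.Lib.MP_9dd972_gt_R.Itg

/-!
# MP_9dd972_gt, bodies with homothetic sections: the moments of the height function
-/

set_option autoImplicit false

namespace Pool.Agent.MP9dd972R

open MeasureTheory Set Metric Pool.Agent.MP9dd972N
open scoped ENNReal NNReal Topology Pointwise

private theorem Csi_pow (n : ℕ) (x : ℝ) :
    HasDerivAt (fun x : ℝ => x ^ (n + 1)) (((n : ℝ) + 1) * x ^ n) x := by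
  have h := hasDerivAt_pow (n + 1) x
  simpa using h

/-- splitting at `a` -/
private theorem Csi_split {M k : ℕ} {R a : ℝ} (ha : 0 ≤ a) (hR : a ≤ R) :
    ∫ r in (0 : ℝ)..R, (R - max r a) ^ k * (((M : ℝ) + 1) * r ^ M) =
      (R - a) ^ k * a ^ (M + 1) + ∫ r in a..R, (R - r) ^ k * (((M : ℝ) + 1) * r ^ M) := by
  have hc : Continuous fun r : ℝ => (R - max r a) ^ k * (((M : ℝ) + 1) * r ^ M) := by fun_prop
  rw [← intervalIntegral.integral_add_adjacent_intervals (b := a) (hc.intervalIntegrable _ _)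
    (hc.intervalIntegrable _ _)]
  congr 1
  · have e1 : ∫ r in (0 : ℝ)..a, (R - max r a) ^ k * (((M : ℝ) + 1) * r ^ M) =
        ∫ r in (0 : ℝ)..a, (R - a) ^ k * (((M : ℝ) + 1) * r ^ M) := by
      refine intervalIntegral.integral_congr fun r hr => ?_
      rw [uIcc_of_le ha] at hr
      rw [max_eq_right hr.2]
    rw [e1]
    have e2 : ∫ r in (0 : ℝ)..a, (R - a) ^ k * (((M : ℝ) + 1) * r ^ M) =
        (R - a) ^ k * a ^ (M + 1) - (R - a) ^ k * 0 ^ (M + 1) :=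
      intervalIntegral.integral_eq_sub_of_hasDerivAt
        (f := fun r : ℝ => (R - a) ^ k * r ^ (M + 1))
        (fun r _ => (Csi_pow M r).const_mul _)
        ((by fun_prop : Continuous fun r : ℝ =>
          (R - a) ^ k * (((M : ℝ) + 1) * r ^ M)).intervalIntegrable _ _)
    rw [e2, zero_pow (Nat.succ_ne_zero M), mul_zero, sub_zero]
  · refine intervalIntegral.integral_congr fun r hr => ?_
    rw [uIcc_of_le hR] at hr
    rw [max_eq_left hr.1]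

theorem max_int {N : ℕ} (hN : 1 ≤ N) {R a : ℝ} (ha : 0 ≤ a) (hR : a ≤ R) :
    ∫ r in (0 : ℝ)..R, (R - max r a) * (N * r ^ (N - 1)) = vv N R a := by
  obtain ⟨M, rfl⟩ : ∃ M, N = M + 1 := ⟨N - 1, by omega⟩
  have h := Csi_split (M := M) (k := 1) ha hR
  simp only [pow_one] at h
  simp only [Nat.add_sub_cancel, Nat.cast_add, Nat.cast_one]
  rw [h]
  have e : ∫ r in a..R, (R - r) * (((M : ℝ) + 1) * r ^ M) =
      (R * R ^ (M + 1) - ((M : ℝ) + 1) / ((M : ℝ) + 1 + 1) * R ^ (M + 1 + 1)) -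
      (R * a ^ (M + 1) - ((M : ℝ) + 1) / ((M : ℝ) + 1 + 1) * a ^ (M + 1 + 1)) := by
    refine intervalIntegral.integral_eq_sub_of_hasDerivAt
      (f := fun r : ℝ => R * r ^ (M + 1) - ((M : ℝ) + 1) / ((M : ℝ) + 1 + 1) * r ^ (M + 1 + 1))
      (fun r _ => ?_)
      ((by fun_prop : Continuous fun r : ℝ =>
        (R - r) * (((M : ℝ) + 1) * r ^ M)).intervalIntegrable _ _)
    have h1 := ((Csi_pow M r).const_mul R).sub
      ((Csi_pow (M + 1) r).const_mul (((M : ℝ) + 1) / ((M : ℝ) + 1 + 1)))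
    have h2 : R * (((M : ℝ) + 1) * r ^ M) -
        ((M : ℝ) + 1) / ((M : ℝ) + 1 + 1) * (((M + 1 : ℕ) : ℝ) + 1) * r ^ (M + 1) =
        (R - r) * (((M : ℝ) + 1) * r ^ M) := by
      have h3 : (M : ℝ) + 1 + 1 ≠ 0 := by positivity
      push_cast
      rw [div_mul_cancel₀ _ h3]
      ring
    rw [← h2, mul_assoc (((M : ℝ) + 1) / ((M : ℝ) + 1 + 1))]
    exact h1
  rw [e]
  unfold vv
  push_cast
  have h3 : (M : ℝ) + 1 + 1 ≠ 0 := by positivity
  field_simp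
  ring

/-- the inequality of Cauchy and Schwarz for powers -/
private theorem Csi_cs (M : ℕ) {R a : ℝ} (ha : 0 ≤ a) (hR : a ≤ R) (u : ℝ) :
    0 ≤ (R ^ (M + 3) - a ^ (M + 3)) / ((M : ℝ) + 3) -
      2 * u * ((R ^ (M + 2) - a ^ (M + 2)) / ((M : ℝ) + 2)) +
      u ^ 2 * ((R ^ (M + 1) - a ^ (M + 1)) / ((M : ℝ) + 1)) := by
  have e : ∫ x in a..R, x ^ M * (x - u) ^ 2 =
      (1 / ((M : ℝ) + 3) * R ^ (M + 3) - 2 * u / ((M : ℝ) + 2) * R ^ (M + 2) +
        u ^ 2 / ((M : ℝ) + 1) * R ^ (M + 1)) -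
      (1 / ((M : ℝ) + 3) * a ^ (M + 3) - 2 * u / ((M : ℝ) + 2) * a ^ (M + 2) +
        u ^ 2 / ((M : ℝ) + 1) * a ^ (M + 1)) := by
    refine intervalIntegral.integral_eq_sub_of_hasDerivAt
      (f := fun r : ℝ => 1 / ((M : ℝ) + 3) * r ^ (M + 3) - 2 * u / ((M : ℝ) + 2) * r ^ (M + 2) +
        u ^ 2 / ((M : ℝ) + 1) * r ^ (M + 1))
      (fun r _ => ?_)
      ((by fun_prop : Continuous fun x : ℝ => x ^ M * (x - u) ^ 2).intervalIntegrable _ _)
    have h1 := (((Csi_pow (M + 2) r).const_mul (1 / ((M : ℝ) + 3))).sub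
      ((Csi_pow (M + 1) r).const_mul (2 * u / ((M : ℝ) + 2)))).add
      ((Csi_pow M r).const_mul (u ^ 2 / ((M : ℝ) + 1)))
    have h2 : 1 / ((M : ℝ) + 3) * ((((M + 2 : ℕ) : ℝ) + 1) * r ^ (M + 2)) -
        2 * u / ((M : ℝ) + 2) * ((((M + 1 : ℕ) : ℝ) + 1) * r ^ (M + 1)) +
        u ^ 2 / ((M : ℝ) + 1) * (((M : ℝ) + 1) * r ^ M) = r ^ M * (r - u) ^ 2 := by
      push_cast
      have h3 : (M : ℝ) + 1 ≠ 0 := by positivity
      have h4 : (M : ℝ) + 2 ≠ 0 := by positivity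
      have h5 : (M : ℝ) + 3 ≠ 0 := by positivity
      have h6 : (M : ℝ) + 2 + 1 = M + 3 := by ring
      have h7 : (M : ℝ) + 1 + 1 = M + 2 := by ring
      rw [h6, h7]
      field_simp
      ring
    rw [← h2]
    exact h1
  have h0 : 0 ≤ ∫ x in a..R, x ^ M * (x - u) ^ 2 :=
    intervalIntegral.integral_nonneg hR fun x hx =>
      mul_nonneg (pow_nonneg (ha.trans hx.1) _) (sq_nonneg _)
  rw [e] at h0
  refine h0.trans (le_of_eq ?_)
  ring

private theorem Csi_fin {n R A B D : ℝ} (hn : 0 < n) (hA : 0 < A)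
    (h : ∀ u : ℝ, 0 ≤ D / (n + 2) - 2 * u * (B / (n + 1)) + u ^ 2 * (A / n)) :
    2 * R * B / (n + 1) - 2 * D / (n + 2) ≤
      2 * (B / (n + 1)) * ((R * A - n / (n + 1) * B) / A) := by
  have h1 := h (B / (n + 1) / (A / n))
  set b : ℝ := B / (n + 1) with hb
  have e1 : D / (n + 2) - 2 * (b / (A / n)) * b + (b / (A / n)) ^ 2 * (A / n) =
      D / (n + 2) - b ^ 2 * n / A := by
    field_simp
    ring
  rw [e1] at h1
  have e2 : 2 * b * ((R * A - n / (n + 1) * B) / A) = 2 * R * b - 2 * (b ^ 2 * n / A) := by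
    rw [hb]
    field_simp
  have e3 : 2 * R * B / (n + 1) = 2 * R * b := by
    rw [hb]
    ring
  rw [e2, e3, mul_div_assoc]
  linarith

theorem max_sq {N : ℕ} (hN : 1 ≤ N) {R a : ℝ} (ha : 0 ≤ a) (hR : a ≤ R) :
    ∫ r in (0 : ℝ)..R, (R - max r a) ^ 2 * (N * r ^ (N - 1)) ≤ 2 * vv N R a * cc N R a := by
  obtain ⟨M, rfl⟩ : ∃ M, N = M + 1 := ⟨N - 1, by omega⟩
  have h := Csi_split (M := M) (k := 2) ha hR
  simp only [Nat.add_sub_cancel, Nat.cast_add, Nat.cast_one]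
  have e : ∫ r in a..R, (R - r) ^ 2 * (((M : ℝ) + 1) * r ^ M) =
      (R ^ 2 * R ^ (M + 1) - 2 * R * ((M : ℝ) + 1) / ((M : ℝ) + 2) * R ^ (M + 2) +
        ((M : ℝ) + 1) / ((M : ℝ) + 3) * R ^ (M + 3)) -
      (R ^ 2 * a ^ (M + 1) - 2 * R * ((M : ℝ) + 1) / ((M : ℝ) + 2) * a ^ (M + 2) +
        ((M : ℝ) + 1) / ((M : ℝ) + 3) * a ^ (M + 3)) := by
    refine intervalIntegral.integral_eq_sub_of_hasDerivAt
      (f := fun r : ℝ => R ^ 2 * r ^ (M + 1) - 2 * R * ((M : ℝ) + 1) / ((M : ℝ) + 2) * r ^ (M + 2) +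
        ((M : ℝ) + 1) / ((M : ℝ) + 3) * r ^ (M + 3))
      (fun r _ => ?_)
      ((by fun_prop : Continuous fun r : ℝ =>
        (R - r) ^ 2 * (((M : ℝ) + 1) * r ^ M)).intervalIntegrable _ _)
    have h1 := (((Csi_pow M r).const_mul (R ^ 2)).sub
      ((Csi_pow (M + 1) r).const_mul (2 * R * ((M : ℝ) + 1) / ((M : ℝ) + 2)))).add
      ((Csi_pow (M + 2) r).const_mul (((M : ℝ) + 1) / ((M : ℝ) + 3)))
    have h2 : R ^ 2 * (((M : ℝ) + 1) * r ^ M) -
        2 * R * ((M : ℝ) + 1) / ((M : ℝ) + 2) * ((((M + 1 : ℕ) : ℝ) + 1) * r ^ (M + 1)) +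
        ((M : ℝ) + 1) / ((M : ℝ) + 3) * ((((M + 2 : ℕ) : ℝ) + 1) * r ^ (M + 2)) =
        (R - r) ^ 2 * (((M : ℝ) + 1) * r ^ M) := by
      push_cast
      have h4 : (M : ℝ) + 2 ≠ 0 := by positivity
      have h5 : (M : ℝ) + 3 ≠ 0 := by positivity
      have h6 : (M : ℝ) + 2 + 1 = M + 3 := by ring
      have h7 : (M : ℝ) + 1 + 1 = M + 2 := by ring
      rw [h6, h7]
      field_simp
      ring
    rw [← h2]
    exact h1
  have hQ : ∫ r in (0 : ℝ)..R, (R - max r a) ^ 2 * (((M : ℝ) + 1) * r ^ M) =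
      2 * R * (R ^ (M + 2) - a ^ (M + 2)) / ((M : ℝ) + 2) -
        2 * (R ^ (M + 3) - a ^ (M + 3)) / ((M : ℝ) + 3) := by
    rw [h, e]
    have h4 : (M : ℝ) + 2 ≠ 0 := by positivity
    have h5 : (M : ℝ) + 3 ≠ 0 := by positivity
    field_simp
    ring
  rw [hQ]
  rcases eq_or_lt_of_le hR with rfl | hlt
  · unfold vv
    simp
  · have hA : 0 < R ^ (M + 1) - a ^ (M + 1) :=
      sub_pos.2 (pow_lt_pow_left₀ hlt ha (Nat.succ_ne_zero M))
    have h1 := Csi_fin (n := (M : ℝ) + 1) (R := R) (A := R ^ (M + 1) - a ^ (M + 1))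
      (B := R ^ (M + 2) - a ^ (M + 2)) (D := R ^ (M + 3) - a ^ (M + 3)) (by positivity) hA
      (fun u => by
        have h2 := Csi_cs M ha hR u
        have e1 : (M : ℝ) + 1 + 2 = M + 3 := by ring
        have e2 : (M : ℝ) + 1 + 1 = M + 2 := by ring
        rw [e1, e2]
        exact h2)
    have e1 : (M : ℝ) + 1 + 2 = M + 3 := by ring
    have e2 : (M : ℝ) + 1 + 1 = M + 2 := by ring
    rw [e1, e2] at h1
    unfold vv cc
    push_cast
    rw [e2]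
    exact h1

end Pool.Agent.MP9dd972R
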