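import Mathlib
import Pool.Agent.Lib.MP_9dd972_gt_R.Defs
import Pool.Agent.Lib.MP_9dd972_gt_R.Ccv
import Pool.Agent.Lib.MP_9dd972_gt_R.Itg
import Pool.Agent.Lib.MP_9dd972_gt_R.Csi

/-!
# MP_9dd972_gt, bodies with homothetic sections: the inequality of Cauchy and Schwarz for the height function
-/

set_option autoImplicit false

namespace Pool.Agent.MP9dd972R

open MeasureTheory Set Metric Pool.Agent.MP9dd972N
open scoped ENNReal NNReal Topology Pointwise

/-- integrability on the product -/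
private theorem Csj_prod {g : ℝ → ℝ → ℝ} {R c : ℝ} {b : ℝ → ℝ}
    (hg : Measurable (Function.uncurry g)) (hb : IntegrableOn b (Ioi (0 : ℝ)))
    (h : ∀ r ∈ Ioc (0 : ℝ) R, ∀ s, |g r s| ≤ c * b s) :
    Integrable (Function.uncurry g)
      ((volume.restrict (Ioc (0 : ℝ) R)).prod (volume.restrict (Ioi (0 : ℝ)))) := by
  have hI : Integrable (fun z : ℝ × ℝ => c * b z.2)
      ((volume.restrict (Ioc (0 : ℝ) R)).prod (volume.restrict (Ioi (0 : ℝ)))) :=
    (integrable_const c).mul_prod hb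
  refine Integrable.mono' hI hg.aestronglyMeasurable ?_
  rw [Measure.prod_restrict]
  refine ae_restrict_of_forall_mem (measurableSet_Ioc.prod measurableSet_Ioi) ?_
  rintro ⟨r, s⟩ ⟨hr, hs⟩
  exact h r hr s

private theorem Csj_max {R r a : ℝ} (hr : 0 ≤ r) (hrR : r ≤ R) (hR : a ≤ R) :
    0 ≤ R - max r a ∧ R - max r a ≤ R - a := by
  constructor
  · have : max r a ≤ R := max_le hrR hR
    linarith
  · have : a ≤ max r a := le_max_right _ _
    linarith

private theorem Csj_w {N : ℕ} {R r : ℝ} (hr : 0 ≤ r) (hrR : r ≤ R) :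
    0 ≤ (N : ℝ) * r ^ (N - 1) ∧ (N : ℝ) * r ^ (N - 1) ≤ N * R ^ (N - 1) := by
  constructor
  · positivity
  · have : r ^ (N - 1) ≤ R ^ (N - 1) := pow_le_pow_left₀ hr hrR _
    exact mul_le_mul_of_nonneg_left this (Nat.cast_nonneg N)

theorem f_int {N : ℕ} (hN : 1 ≤ N) {R : ℝ} {ρ : ℝ → ℝ} (hm : Monotone ρ) (h0 : ∀ s, 0 ≤ ρ s)
    (h1 : ∀ s, ρ s ≤ R) (hi : IntegrableOn (fun s => R - ρ s) (Ioi (0 : ℝ))) :
    ∫ r in (0 : ℝ)..R, (∫ s in Ioi (0 : ℝ), (R - max r (ρ s))) * (N * r ^ (N - 1)) =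
      ∫ s in Ioi (0 : ℝ), vv N R (ρ s) := by
  have hR : 0 ≤ R := (h0 0).trans (h1 0)
  have hmm := hm.measurable
  rw [intervalIntegral.integral_of_le hR]
  have e1 : ∀ r : ℝ, (∫ s in Ioi (0 : ℝ), (R - max r (ρ s))) * (N * r ^ (N - 1)) =
      ∫ s in Ioi (0 : ℝ), (R - max r (ρ s)) * (N * r ^ (N - 1)) :=
    fun r => (integral_mul_const _ _).symm
  simp_rw [e1]
  have hint : Integrable (Function.uncurry fun r s : ℝ => (R - max r (ρ s)) * (N * r ^ (N - 1)))
      ((volume.restrict (Ioc (0 : ℝ) R)).prod (volume.restrict (Ioi (0 : ℝ)))) := by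
    refine Csj_prod (c := N * R ^ (N - 1)) ?_ hi ?_
    · show Measurable fun z : ℝ × ℝ => (R - max z.1 (ρ z.2)) * (N * z.1 ^ (N - 1))
      fun_prop
    · intro r hr s
      obtain ⟨a1, a2⟩ := Csj_max hr.1.le hr.2 (h1 s)
      obtain ⟨b1, b2⟩ := Csj_w (N := N) hr.1.le hr.2
      rw [abs_of_nonneg (mul_nonneg a1 b1), mul_comm]
      exact mul_le_mul b2 a2 a1 (b1.trans b2)
  rw [integral_integral_swap hint]
  congr 1
  funext s
  rw [← intervalIntegral.integral_of_le hR, max_int hN (h0 s) (h1 s)]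

private theorem Csj_vv_ge {N : ℕ} {R a : ℝ} (ha : 0 ≤ a) (hR : a ≤ R) :
    (R - a) * R ^ N / (N + 1) ≤ vv N R a := by
  unfold vv
  apply div_le_div_of_nonneg_right _ (by positivity)
  have h1 : a ^ N ≤ R ^ N := pow_le_pow_left₀ ha hR _
  have e1 : R ^ (N + 1) = R * R ^ N := pow_succ' _ _
  have e2 : a ^ (N + 1) = a * a ^ N := pow_succ' _ _
  rw [e1, e2]
  have h2 := mul_le_mul_of_nonneg_left h1 ha
  nlinarith [h2]

/-- the quotient is bounded by a multiple of `R - a` -/
private theorem Csj_quot {N : ℕ} {R a x : ℝ} (hRp : 0 < R) (ha : 0 ≤ a) (hR : a ≤ R)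
    (hx0 : 0 ≤ x) (hx : x ≤ R - a) :
    0 ≤ x ^ 2 / vv N R a ∧ x ^ 2 / vv N R a ≤ (N + 1) / R ^ N * (R - a) := by
  have hv := vv_nonneg (N := N) ha hR
  refine ⟨div_nonneg (sq_nonneg _) hv, ?_⟩
  rcases hR.eq_or_lt with h | h
  · have : x = 0 := le_antisymm (by linarith) hx0
    rw [this, h]
    simp
  · have hpos := vv_pos (N := N) ha h
    have hRN : 0 < R ^ N := pow_pos hRp N
    have hge := Csj_vv_ge (N := N) ha hR
    have hd : 0 < R - a := by linarith
    rw [div_le_iff₀ hpos]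
    calc x ^ 2 ≤ (R - a) ^ 2 := pow_le_pow_left₀ hx0 hx 2
      _ = (N + 1) / R ^ N * (R - a) * ((R - a) * R ^ N / (N + 1)) := by
          field_simp
      _ ≤ (N + 1) / R ^ N * (R - a) * vv N R a := by
          apply mul_le_mul_of_nonneg_left hge
          positivity

/-- arithmetic and geometric mean -/
private theorem Csj_amgm {k v x : ℝ} (hk : 0 < k) (hv : 0 ≤ v) (h : v = 0 → x = 0) :
    2 * x ≤ k * v + k⁻¹ * (x ^ 2 / v) := by
  rcases hv.eq_or_lt with h' | h'
  · rw [h h'.symm, ← h']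
    simp
  · have h1 : k * v + k⁻¹ * (x ^ 2 / v) - 2 * x = (k * v - x) ^ 2 / (k * v) := by
      field_simp
      ring
    have h2 : 0 ≤ (k * v - x) ^ 2 / (k * v) := by positivity
    linarith

/-- from the family of inequalities to the product -/
private theorem Csj_disc {f V Y : ℝ} (hf : 0 ≤ f) (hV : 0 ≤ V) (hY : 0 ≤ Y)
    (h : ∀ k : ℝ, 0 < k → 2 * f ≤ k * V + k⁻¹ * Y) : f ^ 2 ≤ V * Y := by
  rcases hf.eq_or_lt with h0 | h0
  · rw [← h0]
    simpa using mul_nonneg hV hY
  · rcases hV.eq_or_lt with h1 | h1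
    · exfalso
      have hk : 0 < (Y + 1) / f := by positivity
      have h2 := h _ hk
      rw [← h1, mul_zero, zero_add, inv_div] at h2
      have h3 : f / (Y + 1) * Y ≤ f := by
        rw [div_mul_eq_mul_div, div_le_iff₀ (by positivity)]
        nlinarith
      linarith
    · have hk : 0 < f / V := by positivity
      have h2 := h _ hk
      rw [inv_div, div_mul_cancel₀ _ h1.ne'] at h2
      have h3 : f ≤ V / f * Y := by linarith
      rw [div_mul_eq_mul_div, le_div_iff₀ h0] at h3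
      nlinarith

theorem f_sq {N : ℕ} (hN : 1 ≤ N) {R : ℝ} {ρ : ℝ → ℝ} (hm : Monotone ρ) (h0 : ∀ s, 0 ≤ ρ s)
    (h1 : ∀ s, ρ s ≤ R) (hi : IntegrableOn (fun s => R - ρ s) (Ioi (0 : ℝ))) :
    ∫ r in (0 : ℝ)..R, (∫ s in Ioi (0 : ℝ), (R - max r (ρ s))) ^ 2 * (N * r ^ (N - 1)) ≤
      2 * (∫ s in Ioi (0 : ℝ), vv N R (ρ s)) * ∫ s in Ioi (0 : ℝ), cc N R (ρ s) := by
  have hR : 0 ≤ R := (h0 0).trans (h1 0)
  have hmm := hm.measurable
  have hV : 0 ≤ ∫ s in Ioi (0 : ℝ), vv N R (ρ s) :=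
    integral_nonneg fun s => vv_nonneg (h0 s) (h1 s)
  have hC : 0 ≤ ∫ s in Ioi (0 : ℝ), cc N R (ρ s) :=
    integral_nonneg fun s => cc_nonneg (h0 s) (h1 s)
  rcases hR.eq_or_lt with hR0 | hRp
  · rw [← hR0] at hV hC ⊢
    rw [intervalIntegral.integral_same]
    positivity
  have hvi := int_vv (N := N) hm h0 h1 hi
  have hci := int_cc (N := N) hm h0 h1 hi
  obtain ⟨V, hVd⟩ : ∃ V, V = ∫ s in Ioi (0 : ℝ), vv N R (ρ s) := ⟨_, rfl⟩
  rw [← hVd] at hV ⊢
  have hvm : Measurable fun s => vv N R (ρ s) := by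
    unfold vv
    fun_prop
  have hvm2 : Measurable fun z : ℝ × ℝ => vv N R (ρ z.2) := hvm.comp measurable_snd
  -- the integrable function on the product
  have hint : Integrable (Function.uncurry fun r s : ℝ =>
      (R - max r (ρ s)) ^ 2 / vv N R (ρ s) * (N * r ^ (N - 1)))
      ((volume.restrict (Ioc (0 : ℝ) R)).prod (volume.restrict (Ioi (0 : ℝ)))) := by
    refine Csj_prod (c := (N + 1) / R ^ N * (N * R ^ (N - 1))) ?_ hi ?_
    · show Measurable fun z : ℝ × ℝ =>
        (R - max z.1 (ρ z.2)) ^ 2 / vv N R (ρ z.2) * (N * z.1 ^ (N - 1))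
      refine Measurable.mul (Measurable.div ?_ hvm2) ?_
      · fun_prop
      · fun_prop
    · intro r hr s
      obtain ⟨a1, a2⟩ := Csj_max hr.1.le hr.2 (h1 s)
      obtain ⟨b1, b2⟩ := Csj_w (N := N) hr.1.le hr.2
      obtain ⟨c1, c2⟩ := Csj_quot (N := N) hRp (h0 s) (h1 s) a1 a2
      rw [abs_of_nonneg (mul_nonneg c1 b1)]
      calc (R - max r (ρ s)) ^ 2 / vv N R (ρ s) * (N * r ^ (N - 1))
          ≤ ((N + 1) / R ^ N * (R - ρ s)) * (N * R ^ (N - 1)) :=
            mul_le_mul c2 b2 b1 (c1.trans c2)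
        _ = _ := by ring
  -- pointwise inequality
  have key : ∀ r ∈ Ioc (0 : ℝ) R, (∫ s in Ioi (0 : ℝ), (R - max r (ρ s))) ^ 2 ≤
      V * ∫ s in Ioi (0 : ℝ), (R - max r (ρ s)) ^ 2 / vv N R (ρ s) := by
    intro r hr
    have hfi : IntegrableOn (fun s => R - max r (ρ s)) (Ioi (0 : ℝ)) := by
      refine Integrable.mono' hi ?_ (Filter.Eventually.of_forall fun s => ?_)
      · have : Measurable fun s => R - max r (ρ s) := by fun_prop
        exact this.aestronglyMeasurable
      · obtain ⟨a1, a2⟩ := Csj_max hr.1.le hr.2 (h1 s)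
        rw [Real.norm_of_nonneg a1]
        exact a2
    have hYi : IntegrableOn (fun s => (R - max r (ρ s)) ^ 2 / vv N R (ρ s)) (Ioi (0 : ℝ)) := by
      refine Integrable.mono' (hi.const_mul ((N + 1) / R ^ N)) ?_
        (Filter.Eventually.of_forall fun s => ?_)
      · have : Measurable fun s => (R - max r (ρ s)) ^ 2 / vv N R (ρ s) := by
          refine Measurable.div ?_ hvm
          fun_prop
        exact this.aestronglyMeasurable
      · obtain ⟨a1, a2⟩ := Csj_max hr.1.le hr.2 (h1 s)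
        obtain ⟨c1, c2⟩ := Csj_quot (N := N) hRp (h0 s) (h1 s) a1 a2
        rw [Real.norm_of_nonneg c1]
        exact c2
    refine Csj_disc ?_ hV ?_ ?_
    · exact integral_nonneg fun s => (Csj_max hr.1.le hr.2 (h1 s)).1
    · refine integral_nonneg fun s => ?_
      obtain ⟨a1, a2⟩ := Csj_max hr.1.le hr.2 (h1 s)
      exact (Csj_quot (N := N) hRp (h0 s) (h1 s) a1 a2).1
    · intro k hk
      rw [hVd, ← integral_const_mul, ← integral_const_mul, ← integral_const_mul,
        ← integral_add (hvi.const_mul k) (hYi.const_mul k⁻¹)]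
      refine integral_mono (hfi.const_mul 2) ((hvi.const_mul k).add (hYi.const_mul k⁻¹))
        fun s => ?_
      obtain ⟨a1, a2⟩ := Csj_max hr.1.le hr.2 (h1 s)
      refine Csj_amgm hk (vv_nonneg (h0 s) (h1 s)) fun hv => ?_
      have h3 : ρ s = R := by
        by_contra hne
        exact (vv_pos (N := N) (h0 s) (lt_of_le_of_ne (h1 s) hne)).ne' hv
      exact le_antisymm (by linarith) a1
  rw [intervalIntegral.integral_of_le hR]
  have hYr : Integrable (fun r : ℝ => V * ∫ s in Ioi (0 : ℝ),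
      (R - max r (ρ s)) ^ 2 / vv N R (ρ s) * (N * r ^ (N - 1)))
      (volume.restrict (Ioc (0 : ℝ) R)) :=
    hint.integral_prod_left.const_mul V
  calc ∫ r in Ioc (0 : ℝ) R, (∫ s in Ioi (0 : ℝ), (R - max r (ρ s))) ^ 2 * (N * r ^ (N - 1))
      ≤ ∫ r in Ioc (0 : ℝ) R, V * ∫ s in Ioi (0 : ℝ),
          (R - max r (ρ s)) ^ 2 / vv N R (ρ s) * (N * r ^ (N - 1)) := by
        refine integral_mono_of_nonneg ?_ hYr ?_
        · refine ae_restrict_of_forall_mem measurableSet_Ioc fun r hr => ?_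
          exact mul_nonneg (sq_nonneg _) (Csj_w hr.1.le hr.2).1
        · refine ae_restrict_of_forall_mem measurableSet_Ioc fun r hr => ?_
          have hw := (Csj_w (N := N) hr.1.le hr.2).1
          have h3 := mul_le_mul_of_nonneg_right (key r hr) hw
          rw [mul_assoc, ← integral_mul_const] at h3
          exact h3
    _ = V * ∫ s in Ioi (0 : ℝ), ∫ r in Ioc (0 : ℝ) R,
          (R - max r (ρ s)) ^ 2 / vv N R (ρ s) * (N * r ^ (N - 1)) := by
        rw [integral_const_mul, integral_integral_swap hint]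
    _ ≤ V * ∫ s in Ioi (0 : ℝ), 2 * cc N R (ρ s) := by
        refine mul_le_mul_of_nonneg_left ?_ hV
        refine integral_mono_of_nonneg ?_ (hci.const_mul 2) ?_
        · refine Filter.Eventually.of_forall fun s => ?_
          refine setIntegral_nonneg measurableSet_Ioc fun r hr => ?_
          obtain ⟨a1, a2⟩ := Csj_max hr.1.le hr.2 (h1 s)
          exact mul_nonneg (Csj_quot (N := N) hRp (h0 s) (h1 s) a1 a2).1 (Csj_w hr.1.le hr.2).1
        · refine Filter.Eventually.of_forall fun s => ?_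
          show ∫ r in Ioc (0 : ℝ) R, (R - max r (ρ s)) ^ 2 / vv N R (ρ s) * (N * r ^ (N - 1)) ≤
            2 * cc N R (ρ s)
          have e1 : ∀ r : ℝ, (R - max r (ρ s)) ^ 2 / vv N R (ρ s) * (N * r ^ (N - 1)) =
              (vv N R (ρ s))⁻¹ * ((R - max r (ρ s)) ^ 2 * (N * r ^ (N - 1))) := by
            intro r
            ring
          simp_rw [e1]
          rw [integral_const_mul, ← intervalIntegral.integral_of_le hR]
          have h4 := max_sq hN (h0 s) (h1 s)
          have h5 := vv_nonneg (N := N) (h0 s) (h1 s)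
          have h6 := cc_nonneg (N := N) (h0 s) (h1 s)
          rcases h5.eq_or_lt with h7 | h7
          · rw [← h7]
            simp only [inv_zero, zero_mul]
            linarith
          · calc (vv N R (ρ s))⁻¹ * _ ≤ (vv N R (ρ s))⁻¹ * (2 * vv N R (ρ s) * cc N R (ρ s)) :=
                  mul_le_mul_of_nonneg_left h4 (inv_nonneg.2 h5)
              _ = 2 * cc N R (ρ s) := by
                  field_simp
    _ = 2 * V * ∫ s in Ioi (0 : ℝ), cc N R (ρ s) := by
        rw [integral_const_mul]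
        ring

end Pool.Agent.MP9dd972R
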