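import Mathlib
import Pool.Agent.Lib.MP_9dd972_gt_R.Defs
import Pool.Agent.Lib.MP_9dd972_gt_R.Ccv
import Pool.Agent.Lib.MP_9dd972_gt_R.Itg
import Pool.Agent.Lib.MP_9dd972_gt_R.Csj

/-!
# MP_9dd972_gt, bodies with homothetic sections: position of the centroid, one variable
-/

set_option autoImplicit false

namespace Pool.Agent.MP9dd972R

open MeasureTheory Set Metric Pool.Agent.MP9dd972N
open scoped ENNReal NNReal Topology Pointwise

private theorem Cnt_int {R : ℝ} {ρ : ℝ → ℝ} (hm : Monotone ρ) (h1 : ∀ s, ρ s ≤ R)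
    (hi : IntegrableOn (fun s => R - ρ s) (Ioi (0 : ℝ))) {r : ℝ} (hr : r ≤ R) :
    IntegrableOn (fun s => R - max r (ρ s)) (Ioi (0 : ℝ)) := by
  refine Integrable.mono' hi ?_ ?_
  · exact (measurable_const.sub (measurable_const.max hm.measurable)).aestronglyMeasurable
  · refine Filter.Eventually.of_forall fun s => ?_
    have h2 : max r (ρ s) ≤ R := max_le hr (h1 s)
    have h3 := le_max_right r (ρ s)
    rw [Real.norm_eq_abs, abs_of_nonneg (by linarith)]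
    linarith

private theorem Cnt_nonneg {R : ℝ} {ρ : ℝ → ℝ} (h1 : ∀ s, ρ s ≤ R) {r : ℝ} (hr : r ≤ R) :
    0 ≤ ∫ s in Ioi (0 : ℝ), (R - max r (ρ s)) := by
  refine setIntegral_nonneg measurableSet_Ioi fun s _ => ?_
  have h2 : max r (ρ s) ≤ R := max_le hr (h1 s)
  linarith

private theorem Cnt_anti {R : ℝ} {ρ : ℝ → ℝ} (hR : 0 < R) (hm : Monotone ρ) (h1 : ∀ s, ρ s ≤ R)
    (hi : IntegrableOn (fun s => R - ρ s) (Ioi (0 : ℝ))) :
    AntitoneOn (fun r => ∫ s in Ioi (0 : ℝ), (R - max r (ρ s))) (uIcc 0 R) := by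
  rw [uIcc_of_le hR.le]
  intro r hr r' hr' hrr
  refine setIntegral_mono (Cnt_int hm h1 hi hr'.2) (Cnt_int hm h1 hi hr.2) fun s => ?_
  have h2 : max r (ρ s) ≤ max r' (ρ s) := max_le_max hrr le_rfl
  show R - max r' (ρ s) ≤ R - max r (ρ s)
  linarith

/-- Square of a nonnegative antitone function times a continuous weight. -/
private theorem Cnt_sq_int {R : ℝ} {f : ℝ → ℝ} (hf : AntitoneOn f (uIcc 0 R))
    (h0 : ∀ r ∈ uIcc 0 R, 0 ≤ f r) (N : ℕ) :
    IntervalIntegrable (fun r => f r ^ 2 * (N * r ^ (N - 1))) volume 0 R := by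
  have h1 : AntitoneOn (fun r => f r ^ 2) (uIcc 0 R) := by
    intro r hr r' hr' hrr
    exact pow_le_pow_left₀ (h0 r' hr') (hf hr hr' hrr) 2
  exact h1.intervalIntegrable.mul_continuousOn (by fun_prop)

private theorem Cnt_w {N : ℕ} (hN : 1 ≤ N) (R : ℝ) :
    ∫ r in (0 : ℝ)..R, (N : ℝ) * r ^ (N - 1) = R ^ N := by
  rw [intervalIntegral.integral_const_mul, integral_pow]
  have h1 : N - 1 + 1 = N := by omega
  rw [h1]
  have h2 : ((N - 1 : ℕ) : ℝ) + 1 = N := by exact_mod_cast h1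
  rw [h2, zero_pow (by omega), sub_zero]
  have h3 : (N : ℝ) ≠ 0 := by
    have : N ≠ 0 := by omega
    exact_mod_cast this
  field_simp

theorem cent_one {N : ℕ} (hN : 1 ≤ N) {R a b : ℝ} {ρ ρ' : ℝ → ℝ} (hR : 0 < R)
    (hm : Monotone ρ) (h0 : ∀ s, 0 ≤ ρ s) (h1 : ∀ s, ρ s ≤ R)
    (hi : IntegrableOn (fun s => R - ρ s) (Ioi (0 : ℝ)))
    (hm' : Monotone ρ') (h0' : ∀ s, 0 ≤ ρ' s) (h1' : ∀ s, ρ' s ≤ R)
    (hi' : IntegrableOn (fun s => R - ρ' s) (Ioi (0 : ℝ))) (hab : 0 ≤ a + b)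
    (hpos : 0 < a + ∫ s in Ioi (0 : ℝ), (R - ρ s))
    (hc : ∫ r in (0 : ℝ)..R, (a + ∫ s in Ioi (0 : ℝ), (R - max r (ρ s))) ^ 2 *
        (N * r ^ (N - 1)) =
      ∫ r in (0 : ℝ)..R, (b + ∫ s in Ioi (0 : ℝ), (R - max r (ρ' s))) ^ 2 *
        (N * r ^ (N - 1))) :
    0 ≤ a + ∫ s in Ioi (0 : ℝ), cc N R (ρ s) := by
  by_cases ha : 0 ≤ a
  · have h2 : 0 ≤ ∫ s in Ioi (0 : ℝ), cc N R (ρ s) :=
      setIntegral_nonneg measurableSet_Ioi fun s _ => cc_nonneg (h0 s) (h1 s)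
    linarith
  push Not at ha
  have hb : -a ≤ b := by linarith
  have hb0 : 0 < b := by linarith
  -- the functions
  obtain ⟨f, hf⟩ : ∃ f : ℝ → ℝ, f = fun r => ∫ s in Ioi (0 : ℝ), (R - max r (ρ s)) := ⟨_, rfl⟩
  obtain ⟨g, hg⟩ : ∃ g : ℝ → ℝ, g = fun r => ∫ s in Ioi (0 : ℝ), (R - max r (ρ' s)) := ⟨_, rfl⟩
  have fi := f_int hN hm h0 h1 hi
  have fs := f_sq hN hm h0 h1 hi
  have hfa : AntitoneOn f (uIcc 0 R) := by rw [hf]; exact Cnt_anti hR hm h1 hi
  have hga : AntitoneOn g (uIcc 0 R) := by rw [hg]; exact Cnt_anti hR hm' h1' hi'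
  have hf0 : ∀ r ∈ uIcc 0 R, 0 ≤ f r := by
    intro r hr
    rw [uIcc_of_le hR.le] at hr
    rw [hf]
    exact Cnt_nonneg h1 hr.2
  have hg0 : ∀ r ∈ uIcc 0 R, 0 ≤ g r := by
    intro r hr
    rw [uIcc_of_le hR.le] at hr
    rw [hg]
    exact Cnt_nonneg h1' hr.2
  have hc' : ∫ r in (0 : ℝ)..R, (a + f r) ^ 2 * (N * r ^ (N - 1)) =
      ∫ r in (0 : ℝ)..R, (b + g r) ^ 2 * (N * r ^ (N - 1)) := by
    rw [hf, hg]
    exact hc
  have fi' : ∫ r in (0 : ℝ)..R, f r * (N * r ^ (N - 1)) =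
      ∫ s in Ioi (0 : ℝ), vv N R (ρ s) := by
    rw [hf]
    exact fi
  have fs' : ∫ r in (0 : ℝ)..R, f r ^ 2 * (N * r ^ (N - 1)) ≤
      2 * (∫ s in Ioi (0 : ℝ), vv N R (ρ s)) * ∫ s in Ioi (0 : ℝ), cc N R (ρ s) := by
    rw [hf]
    exact fs
  obtain ⟨V, hV⟩ : ∃ V, V = ∫ s in Ioi (0 : ℝ), vv N R (ρ s) := ⟨_, rfl⟩
  obtain ⟨c, hcc⟩ : ∃ c, c = ∫ s in Ioi (0 : ℝ), cc N R (ρ s) := ⟨_, rfl⟩
  rw [← hV] at fi' fs'
  rw [← hcc] at fs' ⊢
  -- V is positive
  have hVpos : 0 < V := by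
    have hV0 : 0 ≤ V := by
      rw [hV]
      exact setIntegral_nonneg measurableSet_Ioi fun s _ => vv_nonneg (h0 s) (h1 s)
    rcases hV0.eq_or_lt with hVz | hVp
    · exfalso
      have h2 : ∫ s in Ioi (0 : ℝ), vv N R (ρ s) = 0 := by rw [← hV, ← hVz]
      rw [setIntegral_eq_zero_iff_of_nonneg_ae
        (Filter.Eventually.of_forall fun s => vv_nonneg (h0 s) (h1 s))
        (int_vv hm h0 h1 hi)] at h2
      have h3 : ∫ s in Ioi (0 : ℝ), (R - ρ s) = 0 := by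
        rw [setIntegral_eq_zero_iff_of_nonneg_ae
          (Filter.Eventually.of_forall fun s => sub_nonneg.2 (h1 s)) hi]
        filter_upwards [h2] with s hs
        have h4 : ¬ ρ s < R := fun h5 => (vv_pos (N := N) (h0 s) h5).ne' hs
        have h6 : ρ s = R := le_antisymm (h1 s) (not_lt.1 h4)
        simp [h6]
      rw [h3] at hpos
      linarith
    · exact hVp
  -- integrability
  have if2 := Cnt_sq_int hfa hf0 N
  have if1 : IntervalIntegrable (fun r => f r * (N * r ^ (N - 1))) volume 0 R :=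
    hfa.intervalIntegrable.mul_continuousOn (by fun_prop)
  have ig2 : IntervalIntegrable (fun r => (b + g r) ^ 2 * (N * r ^ (N - 1))) volume 0 R := by
    refine Cnt_sq_int (f := fun r => b + g r) ?_ ?_ N
    · intro r hr r' hr' hrr
      have := hga hr hr' hrr
      show b + g r' ≤ b + g r
      linarith
    · intro r hr
      have := hg0 r hr
      show 0 ≤ b + g r
      linarith
  have iw : IntervalIntegrable (fun r : ℝ => (N : ℝ) * r ^ (N - 1)) volume 0 R :=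
    Continuous.intervalIntegrable (by fun_prop) _ _
  -- the right-hand side
  have hRHS : b ^ 2 * R ^ N ≤ ∫ r in (0 : ℝ)..R, (b + g r) ^ 2 * (N * r ^ (N - 1)) := by
    rw [← Cnt_w hN R, ← intervalIntegral.integral_const_mul]
    refine intervalIntegral.integral_mono_on hR.le (iw.const_mul _) ig2 fun r hr => ?_
    have h2 := hg0 r (by rw [uIcc_of_le hR.le]; exact hr)
    have h3 : (0 : ℝ) ≤ N * r ^ (N - 1) := mul_nonneg (Nat.cast_nonneg _) (pow_nonneg hr.1 _)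
    refine mul_le_mul_of_nonneg_right ?_ h3
    nlinarith
  -- the left-hand side
  have hLHS : ∫ r in (0 : ℝ)..R, (a + f r) ^ 2 * (N * r ^ (N - 1)) =
      a ^ 2 * R ^ N + 2 * a * V + ∫ r in (0 : ℝ)..R, f r ^ 2 * (N * r ^ (N - 1)) := by
    rw [← fi', ← Cnt_w hN R, ← intervalIntegral.integral_const_mul,
      ← intervalIntegral.integral_const_mul,
      ← intervalIntegral.integral_add (iw.const_mul _) (if1.const_mul _),
      ← intervalIntegral.integral_add ((iw.const_mul _).add (if1.const_mul _)) if2]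
    refine intervalIntegral.integral_congr fun r _ => ?_
    ring
  have hab2 : a ^ 2 * R ^ N ≤ b ^ 2 * R ^ N := by
    refine mul_le_mul_of_nonneg_right ?_ (pow_nonneg hR.le _)
    nlinarith
  have hfin : 0 ≤ 2 * V * (a + c) := by
    rw [hLHS] at hc'
    nlinarith
  by_contra hcon
  push Not at hcon
  have : 2 * V * (a + c) < 0 := mul_neg_of_pos_of_neg (by linarith) hcon
  linarith

end Pool.Agent.MP9dd972R
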