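import Mathlib
import Pool.Agent.Lib.MP_9dd972_gt_R.Defs

/-!
# MP_9dd972_gt, bodies with homothetic sections: convex functions of one variable
-/

set_option autoImplicit false

namespace Pool.Agent.MP9dd972R

open MeasureTheory Set Metric Pool.Agent.MP9dd972N
open scoped ENNReal NNReal Topology Pointwise

theorem convex_line {H : ℝ → ℝ} {R c : ℝ} (hH : ConvexOn ℝ univ H) (hm : Monotone H)
    (hl : ∀ s t, s ≤ t → H t - H s ≤ R * (t - s)) (hb : ∀ s, c ≤ H s - R * s) :
    (∀ s, 0 ≤ derivWithin H (Ioi s) s) ∧ (∀ s, derivWithin H (Ioi s) s ≤ R) ∧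
      (Monotone fun s => derivWithin H (Ioi s) s) ∧
      IntegrableOn (fun s => R - derivWithin H (Ioi s) s) (Ioi (0 : ℝ)) ∧
      c ≤ H 0 - (∫ s in Ioi (0 : ℝ), (R - derivWithin H (Ioi s) s)) ∧
      ∀ γ, 0 ≤ γ → H γ = (H 0 - ∫ s in Ioi (0 : ℝ), (R - derivWithin H (Ioi s) s)) + R * γ +
        ∫ s in Ioi γ, (R - derivWithin H (Ioi s) s) := by
  have huniv : ∀ s : ℝ, s ∈ interior (univ : Set ℝ) := fun s => by
    rw [interior_univ]
    exact mem_univ s
  have hder : ∀ s, HasDerivWithinAt H (derivWithin H (Ioi s) s) (Ioi s) s := fun s =>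
    hH.hasDerivWithinAt_rightDeriv_of_mem_interior (huniv s)
  set ρ : ℝ → ℝ := fun s => derivWithin H (Ioi s) s with hρ
  have hmon : Monotone ρ := fun s t hst =>
    hH.monotoneOn_rightDeriv (huniv s) (huniv t) hst
  have hnn : ∀ s, 0 ≤ ρ s := by
    intro s
    change 0 ≤ derivWithin H (Ioi s) s
    rw [hH.rightDeriv_eq_sInf_slope_of_mem_interior (huniv s)]
    refine Real.sInf_nonneg ?_
    rintro _ ⟨t, ⟨-, hst⟩, rfl⟩
    rw [slope_def_field]
    exact div_nonneg (sub_nonneg.2 (hm hst.le)) (sub_nonneg.2 hst.le)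
  have hle : ∀ s, ρ s ≤ R := by
    intro s
    refine (hH.rightDeriv_le_slope_of_mem_interior (huniv s) (mem_univ (s + 1))
      (by linarith)).trans ?_
    rw [slope_def_field, div_le_iff₀ (by linarith)]
    exact hl s (s + 1) (by linarith)
  have hcont : Continuous H := hH.locallyLipschitz.continuous
  have hii : ∀ a b : ℝ, IntervalIntegrable ρ volume a b := fun a b => hmon.intervalIntegrable
  have hff : ∀ a b : ℝ, IntervalIntegrable (fun s => R - ρ s) volume a b := fun a b =>
    intervalIntegrable_const.sub (hii a b)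
  have hftc : ∀ a b : ℝ, ∫ s in a..b, (R - ρ s) = R * (b - a) - (H b - H a) := by
    intro a b
    rw [intervalIntegral.integral_sub intervalIntegrable_const (hii a b),
      intervalIntegral.integral_const, smul_eq_mul,
      intervalIntegral.integral_eq_sub_of_hasDeriv_right hcont.continuousOn
        (fun x _ => hder x) (hii a b)]
    ring
  have hf0 : ∀ s, 0 ≤ R - ρ s := fun s => sub_nonneg.2 (hle s)
  have hint : ∀ γ : ℝ, IntegrableOn (fun s => R - ρ s) (Ioi γ) := by
    intro γ
    refine integrableOn_Ioi_of_intervalIntegral_norm_bounded (l := Filter.atTop)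
      (b := fun t : ℝ => t) (H γ - R * γ - c) γ (fun i => (hff γ i).1) Filter.tendsto_id ?_
    refine Filter.Eventually.of_forall fun i => ?_
    have h1 : ∫ x in γ..i, ‖R - ρ x‖ = ∫ x in γ..i, (R - ρ x) :=
      intervalIntegral.integral_congr fun x _ => Real.norm_of_nonneg (hf0 x)
    rw [h1, hftc]
    have := hb i
    linarith
  refine ⟨hnn, hle, hmon, hint 0, ?_, fun γ hγ => ?_⟩
  · have h1 := intervalIntegral_tendsto_integral_Ioi 0 (hint 0)
      (Filter.tendsto_id (α := ℝ) (x := Filter.atTop))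
    have h2 : ∫ x in Ioi (0 : ℝ), (R - ρ x) ≤ H 0 - c := by
      refine le_of_tendsto' h1 fun T => ?_
      rw [id, hftc]
      have := hb T
      linarith
    linarith
  · have h1 := intervalIntegral.integral_interval_add_Ioi (hint 0) (hint γ)
    rw [hftc] at h1
    linarith

end Pool.Agent.MP9dd972R
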