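import Mathlib
import Pool.Agent.Lib.MP_9dd972_gt.N.Gauge
import Pool.Agent.Lib.MP_9dd972_gt.N.Hsup
import Pool.Agent.Lib.MP_9dd972_gt_R.Defs
import Pool.Agent.Lib.MP_9dd972_gt_R.Crd
import Pool.Agent.Lib.MP_9dd972_gt_R.Rad
import Pool.Agent.Lib.MP_9dd972_gt_R.Hqa
import Pool.Agent.Lib.MP_9dd972_gt_R.Hqb
import Pool.Agent.Lib.MP_9dd972_gt_R.Nml
import Pool.Agent.Lib.MP_9dd972_gt_R.Cap

/-!
# MP_9dd972_gt, bodies with homothetic sections: the distribution of the slopes
-/

set_option autoImplicit false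

namespace Pool.Agent.MP9dd972R

open MeasureTheory Set Metric Pool.Agent.MP9dd972N
open scoped ENNReal NNReal Topology Pointwise

variable {N : ℕ} {Q : Set (EE N)} {K : Set (EE (N + 1))}

private theorem slp_n0 (K : Set (EE (N + 1))) (ε : ℝ) : Measurable (fun x => ε * NN K x 0) :=
  (((EuclideanSpace.proj (0 : Fin (N + 1)) : EE (N + 1) →L[ℝ] ℝ).continuous.measurable).comp
    (NN_meas K)).const_mul ε

theorem al_meas (hQ : Body Q) (ε : ℝ) (K : Set (EE (N + 1))) : Measurable (slo Q ε K) := by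
  have h1 : Measurable (fun x => hh Q (tl (NN K x))) :=
    (hh_cont hQ.comp ⟨0, interior_subset hQ.zero⟩).measurable.comp
      (cont_tl.measurable.comp (NN_meas K))
  exact h1.div (slp_n0 K ε)

private theorem slp_smul (hQ : Body Q) (ε : ℝ) (K : Set (EE (N + 1))) {A : Set ℝ}
    (hA : MeasurableSet A) {b : ℝ}
    (h : mu ε K (slo Q ε K ⁻¹' A) = ENNReal.ofReal (cQ Q * b)) :
    al Q ε K A = ENNReal.ofReal b := by
  have hc := cQ_pos hQ
  rw [al, Measure.smul_apply, Measure.map_apply (al_meas hQ ε K) hA, h, smul_eq_mul,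
    ← ENNReal.ofReal_mul (inv_pos.2 hc).le, ← mul_assoc, inv_mul_cancel₀ hc.ne', one_mul]

theorem al_Iio (hQ : Body Q) (hK : Body K) (ε : ℝ) : al Q ε K (Iio 0) = 0 := by
  have h := slp_smul hQ ε K (A := Iio 0) measurableSet_Iio (b := 0) (by
    rw [mul_zero, ENNReal.ofReal_zero]
    refine measure_mono_null ?_ (ae_iff.1 (mu_good hK ε))
    intro x hx
    replace hx : slo Q ε K x < 0 := hx
    rw [mem_setOf_eq]
    rintro ⟨_, _, h3⟩
    have := slo_nonneg hQ h3
    linarith)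
  rw [h, ENNReal.ofReal_zero]

theorem al_Iic (hN : 1 ≤ N) (hQ : Body Q) (hK : Body K) (hR : Rev Q K) {ε : ℝ}
    (hε : ε = 1 ∨ ε = -1) {s : ℝ} (hs : 0 ≤ s) (h0 : 0 ≤ rh Q ε K s)
    (h1 : rh Q ε K s ≤ RR Q K) : al Q ε K (Iic s) = ENNReal.ofReal (rh Q ε K s ^ N) := by
  obtain ⟨c1, c2⟩ := bd_cap hN hQ hK hR hε h0 h1
  refine slp_smul hQ ε K measurableSet_Iic (le_antisymm ?_ ?_)
  · rw [← c2]
    refine measure_mono_ae ?_
    filter_upwards [mu_good hK ε] with x hx hxs
    exact nml_le hQ hK hR hε hx.1 hx.2.2 hxs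
  · rw [← c1]
    refine measure_mono_ae ?_
    filter_upwards [mu_good hK ε] with x hx hxs
    by_contra hcon
    have h2 : s < slo Q ε K x := not_le.1 hcon
    exact absurd hxs (not_lt.2 (nml_ge hQ hK hR hε hx.1 hx.2.2 h2))

private theorem slp_bd (hK : Body K) {x : EE (N + 1)} (hx : x ≠ 0) : bd K x ∈ K := by
  rw [← hK.gauge_le_one, bd, gauge_smul_of_nonneg (inv_nonneg.2 (gauge_nonneg x)), smul_eq_mul,
    inv_mul_cancel₀ (hK.gauge_pos hx).ne']

theorem al_univ (hN : 1 ≤ N) (hQ : Body Q) (hK : Body K) (hR : Rev Q K) {ε : ℝ}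
    (hε : ε = 1 ∨ ε = -1) : al Q ε K univ = ENNReal.ofReal (RR Q K ^ N) := by
  obtain ⟨_, c2⟩ := bd_cap hN hQ hK hR hε (RR_pos hN hQ hK).le le_rfl
  refine slp_smul hQ ε K MeasurableSet.univ (le_antisymm ?_ ?_)
  · rw [← c2]
    refine measure_mono_ae ?_
    filter_upwards [mu_good hK ε] with x hx _
    exact q_le_RR hQ hK (slp_bd hK hx.1.2)
  · rw [← c2, preimage_univ]
    exact measure_mono (subset_univ _)

/-- integrals of functions of the slope over the side `ε` of the body -/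
theorem al_int (hN : 1 ≤ N) (hQ : Body Q) (hK : Body K) (hR : Rev Q K) {ε : ℝ}
    (hε : ε = 1 ∨ ε = -1) {g : ℝ → ℝ} (hg : Measurable g) :
    cQ Q * ∫ s, g s * HH Q K ε s ∂(al Q ε K) =
      ∫ x in K ∩ {x | 0 < ε * NN K x 0}, g (slo Q ε K x) := by
  have hc := cQ_pos hQ
  have hm := al_meas hQ ε K
  have hH : Measurable (fun s => HH Q K ε s) := (HH_cont hQ hK ε).measurable
  have hF : Measurable (fun s => g s * HH Q K ε s) := hg.mul hH
  rw [al, integral_smul_measure, integral_map hm.aemeasurable hF.aestronglyMeasurable,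
    ENNReal.toReal_ofReal (inv_pos.2 hc).le, smul_eq_mul, ← mul_assoc, mul_inv_cancel₀ hc.ne',
    one_mul, int_mu hK ε (f := fun x => g (slo Q ε K x) * HH Q K ε (slo Q ε K x))
      (hF.comp hm)]
  have hT : MeasurableSet {x : EE (N + 1) | 0 < ε * NN K x 0} :=
    measurableSet_lt measurable_const (slp_n0 K ε)
  rw [← setIntegral_indicator hT]
  refine integral_congr_ae ?_
  filter_upwards [ae_restrict_of_ae (good_ae hK)] with x hx
  by_cases h : 0 < ε * NN K x 0
  · rw [indicator_of_mem (show x ∈ {x : EE (N + 1) | 0 < ε * NN K x 0} from h),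
      (nml_H hQ hK hR hε hx h).1, max_eq_right h.le, mul_comm (g (slo Q ε K x)), ← mul_assoc,
      mul_inv_cancel₀ h.ne', one_mul]
  · rw [indicator_of_notMem (show x ∉ {x : EE (N + 1) | 0 < ε * NN K x 0} from h),
      max_eq_left (not_lt.1 h), zero_mul]

theorem al_H (hN : 1 ≤ N) (hQ : Body Q) (hK : Body K) (hR : Rev Q K) {ε : ℝ}
    (hε : ε = 1 ∨ ε = -1) : Integrable (fun s => HH Q K ε s) (al Q ε K) := by
  have hm := al_meas hQ ε K
  have hH : Measurable (fun s => HH Q K ε s) := (HH_cont hQ hK ε).measurable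
  rw [al]
  refine Integrable.smul_measure ?_ ENNReal.ofReal_ne_top
  rw [integrable_map_measure hH.aestronglyMeasurable hm.aemeasurable, mu,
    integrable_withDensity_iff ((slp_n0 K ε).ennreal_ofReal)
      (Filter.Eventually.of_forall fun _ => ENNReal.ofReal_lt_top)]
  have hfin : IsFiniteMeasure (volume.restrict K) :=
    ⟨by rw [Measure.restrict_apply_univ]; exact hK.comp.measure_lt_top⟩
  refine Integrable.of_bound
    (((hH.comp hm).mul (slp_n0 K ε).ennreal_ofReal.ennreal_toReal).aestronglyMeasurable) 1 ?_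
  filter_upwards [ae_restrict_of_ae (good_ae hK)] with x hx
  by_cases h : 0 < ε * NN K x 0
  · simp only [Function.comp_apply]
    rw [(nml_H hQ hK hR hε hx h).1, ENNReal.toReal_ofReal h.le, inv_mul_cancel₀ h.ne', norm_one]
  · rw [ENNReal.ofReal_of_nonpos (not_lt.1 h), ENNReal.toReal_zero, mul_zero, norm_zero]
    exact zero_le_one

end Pool.Agent.MP9dd972R
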