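import Mathlib
import Pool.Agent.Lib.MP_9dd972_gt.N.Gauge
import Pool.Agent.Lib.MP_9dd972_gt.N.Hsup
import Pool.Agent.Lib.MP_9dd972_gt_R.Defs
import Pool.Agent.Lib.MP_9dd972_gt_R.Crd
import Pool.Agent.Lib.MP_9dd972_gt_R.Rad
import Pool.Agent.Lib.MP_9dd972_gt_R.Hqa
import Pool.Agent.Lib.MP_9dd972_gt_R.Hqb
import Pool.Agent.Lib.MP_9dd972_gt_R.Nml
import Pool.Agent.Lib.MP_9dd972_gt_R.Slp
import Pool.Agent.Lib.MP_9dd972_gt_R.Cvx

/-!
# MP_9dd972_gt, bodies with homothetic sections: the data of the two sides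
-/

set_option autoImplicit false

namespace Pool.Agent.MP9dd972R

open MeasureTheory Set Metric Pool.Agent.MP9dd972N
open scoped ENNReal NNReal Topology Pointwise

variable {N : ℕ} {Q : Set (EE N)} {K : Set (EE (N + 1))}

private theorem line_K (hQ : Body Q) (hK : Body K) {w : ℝ}
    (hw : ∀ ε s : ℝ, ε * w + RR Q K * s ≤ HH Q K ε s) (ε : ℝ) :
    (∀ s, 0 ≤ rh Q ε K s) ∧ (∀ s, rh Q ε K s ≤ RR Q K) ∧ (Monotone fun s => rh Q ε K s) ∧
      IntegrableOn (fun s => RR Q K - rh Q ε K s) (Ioi (0 : ℝ)) ∧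
      ε * w ≤ xi Q ε K ∧
      ∀ γ, 0 ≤ γ → HH Q K ε γ = xi Q ε K + RR Q K * γ +
        ∫ s in Ioi γ, (RR Q K - rh Q ε K s) :=
  convex_line (H := fun s => HH Q K ε s) (R := RR Q K) (c := ε * w) (HH_conv hQ hK ε)
    (HH_mono hQ hK ε) (fun _ _ h => HH_lip hQ hK ε h) (fun s => by
      have := hw ε s
      show ε * w ≤ HH Q K ε s - RR Q K * s
      linarith)

theorem side_K (hN : 1 ≤ N) (hQ : Body Q) (hK : Body K) (hR : Rev Q K) {ε : ℝ}
    (hε : ε = 1 ∨ ε = -1) :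
    Side N (RR Q K) (xi Q ε K) (rh Q ε K) (fun s => HH Q K ε s) (al Q ε K) := by
  obtain ⟨w, hw⟩ := HH_low hQ hK
  obtain ⟨h1, h2, h3, h4, -, h6⟩ := line_K hQ hK hw ε
  exact
    { R_pos := RR_pos hN hQ hK
      mono := h3
      nn := h1
      le := h2
      int := h4
      H_eq := h6
      H_pos := fun γ hγ => HH_pos hQ hK hε hγ
      H_cont := HH_cont hQ hK ε
      neg := al_Iio hQ hK ε
      mass := fun s hs => al_Iic hN hQ hK hR hε hs (h1 s) (h2 s)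
      tot := al_univ hN hQ hK hR hε
      H_int := al_H hN hQ hK hR hε }

theorem xi_add (hN : 1 ≤ N) (hQ : Body Q) (hK : Body K) : 0 ≤ xi Q 1 K + xi Q (-1) K := by
  obtain ⟨w, hw⟩ := HH_low hQ hK
  obtain ⟨-, -, -, -, h5, -⟩ := line_K hQ hK hw 1
  obtain ⟨-, -, -, -, h5', -⟩ := line_K hQ hK hw (-1)
  linarith

end Pool.Agent.MP9dd972R
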