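import Mathlib
import Pool.Agent.Lib.MP_9dd972_gt.N.Gauge
import Pool.Agent.Lib.MP_9dd972_gt.N.Hsup
import Pool.Agent.Lib.MP_9dd972_gt_R.Defs
import Pool.Agent.Lib.MP_9dd972_gt_R.Crd
import Pool.Agent.Lib.MP_9dd972_gt_R.Rad
import Pool.Agent.Lib.MP_9dd972_gt_R.Hqa
import Pool.Agent.Lib.MP_9dd972_gt_R.Hqb
import Pool.Agent.Lib.MP_9dd972_gt_R.Nml
import Pool.Agent.Lib.MP_9dd972_gt_R.Cnt
import Pool.Agent.Lib.MP_9dd972_gt_R.Sde
import Pool.Agent.Lib.MP_9dd972_gt_R.Vlm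

/-!
# MP_9dd972_gt, bodies with homothetic sections: position of the centroid
-/

set_option autoImplicit false

namespace Pool.Agent.MP9dd972R

open MeasureTheory Set Metric Pool.Agent.MP9dd972N
open scoped ENNReal NNReal Topology Pointwise

variable {N : ℕ} {Q : Set (EE N)} {K : Set (EE (N + 1))}

theorem cent_side (hN : 1 ≤ N) (hQ : Body Q) (hK : Body K) (hR : Rev Q K)
    (hc : ∫ x in K, x 0 = (0 : ℝ)) {ε : ℝ} (hε : ε = 1 ∨ ε = -1) :
    0 ≤ xi Q ε K + ∫ s in Ioi (0 : ℝ), cc N (RR Q K) (rh Q ε K s) := by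
  have S1 := side_K hN hQ hK hR (ε := 1) (Or.inl rfl)
  have S2 := side_K hN hQ hK hR (ε := -1) (Or.inr rfl)
  have hx := xi_add hN hQ hK
  have hpos : ∀ δ : ℝ, (δ = 1 ∨ δ = -1) →
      0 < xi Q δ K + ∫ s in Ioi (0 : ℝ), (RR Q K - rh Q δ K s) := by
    intro δ hδ
    have h1 := HH_pos hQ hK hδ le_rfl
    have h2 : xi Q δ K + ∫ s in Ioi (0 : ℝ), (RR Q K - rh Q δ K s) = HH Q K δ 0 := by
      unfold xi
      ring
    rw [h2]
    exact h1
  have hcen := cen_eq hN hQ hK hR hc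
  rcases hε with rfl | rfl
  · exact cent_one hN S1.R_pos S1.mono S1.nn S1.le S1.int S2.mono S2.nn S2.le S2.int hx
      (hpos 1 (Or.inl rfl)) hcen
  · exact cent_one hN S1.R_pos S2.mono S2.nn S2.le S2.int S1.mono S1.nn S1.le S1.int
      (by linarith) (hpos (-1) (Or.inr rfl)) hcen.symm

end Pool.Agent.MP9dd972R
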