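import Mathlib
import Pool.Agent.Lib.MP_9dd972_gt.N.Gauge
import Pool.Agent.Lib.MP_9dd972_gt.N.Hsup
import Pool.Agent.Lib.MP_9dd972_gt_R.Defs
import Pool.Agent.Lib.MP_9dd972_gt_R.Crd
import Pool.Agent.Lib.MP_9dd972_gt_R.Rad
import Pool.Agent.Lib.MP_9dd972_gt_R.Hqa
import Pool.Agent.Lib.MP_9dd972_gt_R.Nml
import Pool.Agent.Lib.MP_9dd972_gt_R.Cap

/-!
# MP_9dd972_gt, bodies with homothetic sections: the distribution of the radii
-/

set_option autoImplicit false

namespace Pool.Agent.MP9dd972R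

open MeasureTheory Set Metric Pool.Agent.MP9dd972N
open scoped ENNReal NNReal Topology Pointwise

variable {N : ℕ} {Q : Set (EE N)} {K : Set (EE (N + 1))}

private theorem dis_int (hN : 1 ≤ N) {c b : ℝ} (hc : 0 ≤ c) (hb : 0 ≤ b) :
    ∫⁻ r in Ioc (0 : ℝ) b, ENNReal.ofReal (c * (N * r ^ (N - 1))) = ENNReal.ofReal (c * b ^ N) := by
  have hcont : Continuous fun r : ℝ => c * (N * r ^ (N - 1)) := by fun_prop
  have h1 : ∀ᵐ r ∂(volume.restrict (Ioc (0 : ℝ) b)), 0 ≤ c * (N * r ^ (N - 1)) := by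
    rw [ae_restrict_iff' measurableSet_Ioc]
    refine Filter.Eventually.of_forall fun r hr => ?_
    have := hr.1
    positivity
  have h2 : Integrable (fun r : ℝ => c * (N * r ^ (N - 1))) (volume.restrict (Ioc (0 : ℝ) b)) :=
    (hcont.intervalIntegrable 0 b).1
  rw [← ofReal_integral_eq_lintegral_ofReal h2 h1, ← intervalIntegral.integral_of_le hb]
  congr 1
  have h3 : ∀ x ∈ uIcc (0 : ℝ) b, HasDerivAt (fun r : ℝ => c * r ^ N) (c * (N * x ^ (N - 1))) x :=
    fun x _ => (hasDerivAt_pow N x).const_mul c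
  rw [intervalIntegral.integral_eq_sub_of_hasDerivAt h3 (hcont.intervalIntegrable 0 b),
    zero_pow (by omega), mul_zero, sub_zero]

private theorem dis_meas (hQ : Body Q) (hK : Body K) :
    Measurable fun x : EE (N + 1) => gauge Q (tl (bd K x)) :=
  (q_cont hQ).measurable.comp (bd_meas hK)

private theorem dis_law (hN : 1 ≤ N) (hQ : Body Q) (hK : Body K) (hR : Rev Q K) {ε : ℝ}
    (hε : ε = 1 ∨ ε = -1) :
    (mu ε K).map (fun x => gauge Q (tl (bd K x))) =
      (volume.restrict (Ioc 0 (RR Q K))).withDensity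
        (fun r => ENNReal.ofReal (cQ Q * (N * r ^ (N - 1)))) := by
  have hfin : IsFiniteMeasure (mu ε K) := mu_fin hK ε
  have hRp := RR_pos hN hQ hK
  have hm := dis_meas hQ hK
  have hc := (cQ_pos hQ).le
  have : IsFiniteMeasure ((mu ε K).map (fun x => gauge Q (tl (bd K x)))) :=
    Measure.isFiniteMeasure_map _ _
  refine Measure.ext_of_Iic _ _ fun a => ?_
  rw [Measure.map_apply hm measurableSet_Iic, withDensity_apply _ measurableSet_Iic,
    Measure.restrict_restrict measurableSet_Iic]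
  rcases lt_or_ge a 0 with ha | ha
  · have e1 : (fun x : EE (N + 1) => gauge Q (tl (bd K x))) ⁻¹' Iic a = ∅ := by
      ext x
      rw [mem_preimage, mem_Iic, mem_empty_iff_false, iff_false, not_le]
      exact ha.trans_le (gauge_nonneg _)
    have e2 : Iic a ∩ Ioc 0 (RR Q K) = ∅ := by
      ext r
      rw [mem_inter_iff, mem_Iic, mem_Ioc, mem_empty_iff_false, iff_false]
      rintro ⟨h1, h2, -⟩
      linarith
    rw [e1, e2, measure_empty, Measure.restrict_empty, lintegral_zero_measure]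
  · have hb : 0 ≤ min a (RR Q K) := le_min ha hRp.le
    have e1 : (fun x : EE (N + 1) => gauge Q (tl (bd K x))) ⁻¹' Iic a =
        {x | gauge Q (tl (bd K x)) ≤ min a (RR Q K)} := by
      ext x
      rw [mem_preimage, mem_Iic, Set.mem_ofPred_eq, le_min_iff]
      exact ⟨fun h => ⟨h, q_le_RR hQ hK (bd_mem hK x)⟩, fun h => h.1⟩
    have e2 : Iic a ∩ Ioc 0 (RR Q K) = Ioc 0 (min a (RR Q K)) := by
      ext r
      rw [mem_inter_iff, mem_Iic, mem_Ioc, mem_Ioc, le_min_iff]
      tauto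
    rw [e1, e2, (bd_cap hN hQ hK hR hε hb (min_le_right _ _)).2, dis_int hN hc hb]

theorem radii (hN : 1 ≤ N) (hQ : Body Q) (hK : Body K) (hR : Rev Q K) {ε : ℝ}
    (hε : ε = 1 ∨ ε = -1) {φ : ℝ → ℝ} (hφ : Measurable φ) :
    ∫ x in K, max 0 (ε * NN K x 0) * φ (gauge Q (tl (bd K x))) =
      cQ Q * ∫ r in (0 : ℝ)..(RR Q K), φ r * (N * r ^ (N - 1)) := by
  have hRp := RR_pos hN hQ hK
  have hm := dis_meas hQ hK
  have hc := (cQ_pos hQ).le
  have hd : Measurable fun r : ℝ => ENNReal.ofReal (cQ Q * (N * r ^ (N - 1))) := by fun_prop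
  have h1 : ∫ x in K, max 0 (ε * NN K x 0) * φ (gauge Q (tl (bd K x))) =
      ∫ x, φ (gauge Q (tl (bd K x))) ∂(mu ε K) := (int_mu hK ε (hφ.comp hm)).symm
  have h2 := integral_map (μ := mu ε K) hm.aemeasurable (f := φ) hφ.aestronglyMeasurable
  rw [h1, ← h2, dis_law hN hQ hK hR hε, integral_withDensity_eq_integral_toReal_smul hd
    (Filter.Eventually.of_forall fun x => ENNReal.ofReal_lt_top),
    intervalIntegral.integral_of_le hRp.le, ← integral_const_mul]
  refine setIntegral_congr_fun measurableSet_Ioc fun r hr => ?_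
  have hr0 := hr.1
  change (ENNReal.ofReal (cQ Q * (N * r ^ (N - 1)))).toReal • φ r = _
  rw [ENNReal.toReal_ofReal (by positivity), smul_eq_mul]
  ring

end Pool.Agent.MP9dd972R
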