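import Mathlib
import Pool.Agent.Lib.MP_9dd972_gt_R.Defs

/-!
# MP_9dd972_gt, bodies with homothetic sections: integrals against the support function
-/

set_option autoImplicit false

namespace Pool.Agent.MP9dd972R

open MeasureTheory Set Metric Pool.Agent.MP9dd972N
open scoped ENNReal NNReal Topology Pointwise

private theorem Fub_Ioc {N : ℕ} {R ξ : ℝ} {ρ H : ℝ → ℝ} {α : Measure ℝ}
    (_S : Side N R ξ ρ H α) (γ : ℝ) :
    EqOn (fun s => R - ρ s * (Ici γ).indicator 1 s) (fun _ => R) (Ioo 0 γ) := by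
  intro s hs
  have h : s ∉ Ici γ := fun h => absurd hs.2 (not_lt.2 h)
  simp only [indicator_of_notMem h, mul_zero, sub_zero]

private theorem Fub_Ioi {R : ℝ} {ρ : ℝ → ℝ} (γ : ℝ) :
    EqOn (fun s => R - ρ s * (Ici γ).indicator 1 s) (fun s => R - ρ s) (Ioi γ) := by
  intro s hs
  have h : s ∈ Ici γ := (mem_Ioi.1 hs).le
  simp only [indicator_of_mem h, Pi.one_apply, mul_one]

private theorem Fub_int {N : ℕ} {R ξ : ℝ} {ρ H : ℝ → ℝ} {α : Measure ℝ} (S : Side N R ξ ρ H α)
    {γ : ℝ} (hγ : 0 ≤ γ) :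
    IntegrableOn (fun s => R - ρ s * (Ici γ).indicator 1 s) (Ioc 0 γ) ∧
      IntegrableOn (fun s => R - ρ s * (Ici γ).indicator 1 s) (Ioi γ) := by
  constructor
  · rw [integrableOn_Ioc_iff_integrableOn_Ioo]
    exact (integrableOn_congr_fun (Fub_Ioc S γ) measurableSet_Ioo).2
      (integrableOn_const (by simp [Real.volume_Ioo]))
  · exact (integrableOn_congr_fun (Fub_Ioi γ) measurableSet_Ioi).2
      (S.int.mono_set (Ioi_subset_Ioi hγ))

private theorem Fub_int' {N : ℕ} {R ξ : ℝ} {ρ H : ℝ → ℝ} {α : Measure ℝ} (S : Side N R ξ ρ H α)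
    {γ : ℝ} (hγ : 0 ≤ γ) :
    IntegrableOn (fun s => R - ρ s * (Ici γ).indicator 1 s) (Ioi 0) := by
  rw [← Ioc_union_Ioi_eq_Ioi hγ]
  exact (Fub_int S hγ).1.union (Fub_int S hγ).2

theorem side_H {N : ℕ} {R ξ : ℝ} {ρ H : ℝ → ℝ} {α : Measure ℝ} (S : Side N R ξ ρ H α) {γ : ℝ}
    (hγ : 0 ≤ γ) : H γ - ξ = ∫ s in Ioi (0 : ℝ), (R - ρ s * (Ici γ).indicator 1 s) := by
  obtain ⟨i1, i2⟩ := Fub_int S hγ
  rw [← Ioc_union_Ioi_eq_Ioi hγ, setIntegral_union Ioc_disjoint_Ioi_same measurableSet_Ioi i1 i2,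
    setIntegral_congr_set Ioo_ae_eq_Ioc.symm, setIntegral_congr_fun measurableSet_Ioo (Fub_Ioc S γ),
    setIntegral_congr_fun measurableSet_Ioi (Fub_Ioi γ), S.H_eq γ hγ, setIntegral_const,
    Real.volume_real_Ioo_of_le hγ, smul_eq_mul]
  ring

theorem fubini_side {N : ℕ} {R ξ : ℝ} {ρ H : ℝ → ℝ} {α : Measure ℝ} (S : Side N R ξ ρ H α)
    {g : ℝ → ℝ} (hg : Measurable g) {G : ℝ} (hb : ∀ᵐ t ∂α, |g t| ≤ G) :
    IntegrableOn (fun s => R * (∫ t, g t ∂α) - ρ s * ∫ t in Iic s, g t ∂α) (Ioi (0 : ℝ)) ∧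
      ∫ t, g t * H t ∂α = ξ * (∫ t, g t ∂α) +
        ∫ s in Ioi (0 : ℝ), (R * (∫ t, g t ∂α) - ρ s * ∫ t in Iic s, g t ∂α) := by
  have hfin : IsFiniteMeasure α := ⟨by rw [S.tot]; exact ENNReal.ofReal_lt_top⟩
  have hpos : ∀ᵐ t ∂α, 0 ≤ t := by
    have h1 : ∀ᵐ t ∂α, t ∉ Iio (0 : ℝ) := measure_eq_zero_iff_ae_notMem.1 S.neg
    filter_upwards [h1] with t ht
    simpa using ht
  have hρ : Measurable ρ := S.mono.measurable
  have hgi : Integrable g α :=
    Integrable.of_bound hg.aestronglyMeasurable G (hb.mono fun t ht => by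
      rwa [Real.norm_eq_abs])
  have hHi : Integrable (fun t => H t - ξ) α := S.H_int.sub (integrable_const ξ)
  have hgH : Integrable (fun t => g t * (H t - ξ)) α :=
    hHi.bdd_mul hg.aestronglyMeasurable (c := G) (hb.mono fun t ht => by rwa [Real.norm_eq_abs])
  have hn : ∀ t s : ℝ, 0 ≤ R - ρ s * (Ici t).indicator 1 s := by
    intro t s
    by_cases h : s ∈ Ici t
    · rw [indicator_of_mem h, Pi.one_apply, mul_one]
      linarith [S.le s]
    · rw [indicator_of_notMem h, mul_zero]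
      linarith [S.R_pos]
  have hind : ∀ t s : ℝ, (Ici t).indicator (1 : ℝ → ℝ) s =
      {p : ℝ × ℝ | p.1 ≤ p.2}.indicator (1 : ℝ × ℝ → ℝ) (t, s) := by
    intro t s
    by_cases h : t ≤ s
    · rw [indicator_of_mem (show s ∈ Ici t from h),
        indicator_of_mem (show (t, s) ∈ {p : ℝ × ℝ | p.1 ≤ p.2} from h)]
      rfl
    · rw [indicator_of_notMem (show s ∉ Ici t from h),
        indicator_of_notMem (show (t, s) ∉ {p : ℝ × ℝ | p.1 ≤ p.2} from h)]
  have hmeas : Measurable (Function.uncurry fun t s : ℝ =>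
      g t * (R - ρ s * (Ici t).indicator 1 s)) := by
    have h1 : (Function.uncurry fun t s : ℝ => g t * (R - ρ s * (Ici t).indicator 1 s)) =
        fun p : ℝ × ℝ => g p.1 *
          (R - ρ p.2 * {p : ℝ × ℝ | p.1 ≤ p.2}.indicator (1 : ℝ × ℝ → ℝ) p) := by
      funext p
      show g p.1 * (R - ρ p.2 * (Ici p.1).indicator 1 p.2) = _
      rw [hind]
    rw [h1]
    refine (hg.comp measurable_fst).mul (measurable_const.sub
      ((hρ.comp measurable_snd).mul ?_))
    exact measurable_one.indicator (measurableSet_le measurable_fst measurable_snd)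
  have hF : Integrable (Function.uncurry fun t s : ℝ =>
      g t * (R - ρ s * (Ici t).indicator 1 s)) (α.prod (volume.restrict (Ioi (0 : ℝ)))) := by
    rw [integrable_prod_iff hmeas.aestronglyMeasurable]
    constructor
    · filter_upwards [hpos] with t ht
      exact (Fub_int' S ht).const_mul (g t)
    · refine (hgH.norm).congr ?_
      filter_upwards [hpos] with t ht
      have h1 : ∀ s : ℝ, ‖(Function.uncurry fun t s : ℝ =>
          g t * (R - ρ s * (Ici t).indicator 1 s)) (t, s)‖ =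
          |g t| * (R - ρ s * (Ici t).indicator 1 s) := by
        intro s
        show ‖g t * (R - ρ s * (Ici t).indicator 1 s)‖ = _
        rw [norm_mul, Real.norm_eq_abs, Real.norm_eq_abs, abs_of_nonneg (hn t s)]
      simp_rw [h1]
      rw [integral_const_mul, ← side_H S ht, norm_mul, Real.norm_eq_abs, Real.norm_eq_abs]
      congr 1
      rw [side_H S ht]
      exact abs_of_nonneg (integral_nonneg fun s => hn t s)
  have hin : ∀ s : ℝ, ∫ t, g t * (R - ρ s * (Ici t).indicator 1 s) ∂α =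
      R * (∫ t, g t ∂α) - ρ s * ∫ t in Iic s, g t ∂α := by
    intro s
    have h1 : ∀ t : ℝ, g t * (R - ρ s * (Ici t).indicator 1 s) =
        R * g t - ρ s * (Iic s).indicator g t := by
      intro t
      by_cases h : t ≤ s
      · rw [indicator_of_mem (show s ∈ Ici t from h), indicator_of_mem (show t ∈ Iic s from h)]
        simp only [Pi.one_apply]
        ring
      · rw [indicator_of_notMem (show s ∉ Ici t from h),
          indicator_of_notMem (show t ∉ Iic s from h)]
        ring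
    simp_rw [h1]
    rw [integral_sub (hgi.const_mul R) ((hgi.indicator measurableSet_Iic).const_mul (ρ s)),
      integral_const_mul, integral_const_mul, integral_indicator measurableSet_Iic]
  have hswap := integral_integral_swap hF
  have hout : ∫ t, (∫ s in Ioi (0 : ℝ), g t * (R - ρ s * (Ici t).indicator 1 s)) ∂α =
      ∫ t, g t * (H t - ξ) ∂α := by
    refine integral_congr_ae ?_
    filter_upwards [hpos] with t ht
    rw [integral_const_mul, ← side_H S ht]
  constructor
  · have h1 := hF.integral_prod_right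
    refine h1.congr (Filter.Eventually.of_forall fun s => ?_)
    exact hin s
  · have h2 : ∫ t, g t * H t ∂α = (∫ t, g t * (H t - ξ) ∂α) + ξ * ∫ t, g t ∂α := by
      rw [← integral_const_mul, ← integral_add hgH (hgi.const_mul ξ)]
      refine integral_congr_ae (Filter.Eventually.of_forall fun t => ?_)
      dsimp only
      ring
    rw [h2, ← hout, hswap]
    simp_rw [hin]
    ring

end Pool.Agent.MP9dd972R
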