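import Mathlib
import Pool.Agent.Lib.MP_9dd972_gt_R.Defs
import Pool.Agent.Lib.MP_9dd972_gt_R.Fub
import Pool.Agent.Lib.MP_9dd972_gt_R.Itg

/-!
# MP_9dd972_gt, bodies with homothetic sections: the integral of the support function
-/

set_option autoImplicit false

namespace Pool.Agent.MP9dd972R

open MeasureTheory Set Metric Pool.Agent.MP9dd972N
open scoped ENNReal NNReal Topology Pointwise

theorem int_H {N : ℕ} {R ξ : ℝ} {ρ H : ℝ → ℝ} {α : Measure ℝ} (S : Side N R ξ ρ H α) :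
    ∫ t, H t ∂α = R ^ N * ξ + (N + 1) * ∫ s in Ioi (0 : ℝ), vv N R (ρ s) := by
  obtain ⟨-, h2⟩ := fubini_side S (g := fun _ => (1 : ℝ)) measurable_const (G := 1)
    (Filter.Eventually.of_forall fun t => by simp)
  have htot : ∫ _t, (1 : ℝ) ∂α = R ^ N := by
    rw [integral_const, smul_eq_mul, mul_one, Measure.real, S.tot,
      ENNReal.toReal_ofReal (pow_nonneg S.R_pos.le N)]
  have hmass : ∀ s, 0 ≤ s → ∫ _t in Iic s, (1 : ℝ) ∂α = ρ s ^ N := by
    intro s hs
    rw [setIntegral_const, smul_eq_mul, mul_one, Measure.real, S.mass s hs,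
      ENNReal.toReal_ofReal (pow_nonneg (S.nn s) N)]
  simp only [one_mul] at h2
  rw [h2, htot]
  have h3 : ∫ s in Ioi (0 : ℝ), (R * R ^ N - ρ s * ∫ _t in Iic s, (1 : ℝ) ∂α) =
      ∫ s in Ioi (0 : ℝ), (N + 1) * vv N R (ρ s) := by
    refine setIntegral_congr_fun measurableSet_Ioi fun s hs => ?_
    have hs' : (0 : ℝ) < s := hs
    show R * R ^ N - ρ s * ∫ _t in Iic s, (1 : ℝ) ∂α = (N + 1) * vv N R (ρ s)
    rw [hmass s hs'.le]
    unfold vv
    have hN : ((N : ℝ) + 1) ≠ 0 := by positivity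
    field_simp
    ring
  rw [h3, integral_const_mul]
  ring

end Pool.Agent.MP9dd972R
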