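import Mathlib
import Pool.Agent.Lib.MP_9dd972_gt.N.Gauge
import Pool.Agent.Lib.MP_9dd972_gt.N.Hsup
import Pool.Agent.Lib.MP_9dd972_gt_R.Defs
import Pool.Agent.Lib.MP_9dd972_gt_R.Crd
import Pool.Agent.Lib.MP_9dd972_gt_R.Rad
import Pool.Agent.Lib.MP_9dd972_gt_R.Hqa
import Pool.Agent.Lib.MP_9dd972_gt_R.Hqb
import Pool.Agent.Lib.MP_9dd972_gt_R.Nml
import Pool.Agent.Lib.MP_9dd972_gt_R.Slp
import Pool.Agent.Lib.MP_9dd972_gt_R.Cvx
import Pool.Agent.Lib.MP_9dd972_gt_R.Sde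

/-!
# MP_9dd972_gt, bodies with homothetic sections: height of a boundary point
-/

set_option autoImplicit false

namespace Pool.Agent.MP9dd972R

open MeasureTheory Set Metric Pool.Agent.MP9dd972N
open scoped ENNReal NNReal Topology Pointwise

variable {N : ℕ} {Q : Set (EE N)} {K : Set (EE (N + 1))}

theorem height (hN : 1 ≤ N) (hQ : Body Q) (hK : Body K) (hR : Rev Q K) {ε : ℝ}
    (hε : ε = 1 ∨ ε = -1) {x : EE (N + 1)} (hx : Good K x) (h : 0 < ε * NN K x 0) :
    ε * bd K x 0 = xi Q ε K +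
      ∫ s in Ioi (0 : ℝ), (RR Q K - max (gauge Q (tl (bd K x))) (rh Q ε K s)) := by
  have S := side_K hN hQ hK hR hε
  set r := gauge Q (tl (bd K x)) with hr
  set σ := slo Q ε K x with hσ
  have hσ0 : 0 ≤ σ := slo_nonneg hQ h
  obtain ⟨-, h2⟩ := nml_H hQ hK hR hε hx h
  have hH := S.H_eq σ hσ0
  have hH' : HH Q K ε σ = xi Q ε K + RR Q K * σ + ∫ s in Ioi σ, (RR Q K - rh Q ε K s) := hH
  have hsplit : Ioi (0 : ℝ) = Ioc 0 σ ∪ Ioi σ := (Ioc_union_Ioi_eq_Ioi hσ0).symm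
  have e1 : ∫ s in Ioc 0 σ, (RR Q K - max r (rh Q ε K s)) = σ * (RR Q K - r) := by
    have h3 : ∫ s in Ioc 0 σ, (RR Q K - max r (rh Q ε K s)) =
        ∫ s in Ioc 0 σ, (RR Q K - r) := by
      rw [integral_Ioc_eq_integral_Ioo, integral_Ioc_eq_integral_Ioo]
      refine setIntegral_congr_fun measurableSet_Ioo fun s hs => ?_
      show RR Q K - max r (rh Q ε K s) = RR Q K - r
      rw [max_eq_left (nml_ge hQ hK hR hε hx h hs.2)]
    rw [h3, setIntegral_const]
    simp [Measure.real, hσ0]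
  have hcong : ∀ s ∈ Ioi σ, RR Q K - max r (rh Q ε K s) = RR Q K - rh Q ε K s := by
    intro s hs
    rw [max_eq_right (nml_le hQ hK hR hε hx h (le_of_lt hs))]
  have e2 : ∫ s in Ioi σ, (RR Q K - max r (rh Q ε K s)) =
      ∫ s in Ioi σ, (RR Q K - rh Q ε K s) :=
    setIntegral_congr_fun measurableSet_Ioi hcong
  have i2 : IntegrableOn (fun s => RR Q K - max r (rh Q ε K s)) (Ioi σ) := by
    refine (integrableOn_congr_fun hcong measurableSet_Ioi).2 ?_
    exact S.int.mono_set (Ioi_subset_Ioi hσ0)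
  have i1 : IntegrableOn (fun s => RR Q K - max r (rh Q ε K s)) (Ioc 0 σ) := by
    have h4 : IntegrableOn (fun _ : ℝ => RR Q K - r) (Ioo 0 σ) :=
      integrableOn_const (by simp)
    have h5 : IntegrableOn (fun s => RR Q K - max r (rh Q ε K s)) (Ioo 0 σ) := by
      refine (integrableOn_congr_fun (fun s hs => ?_) measurableSet_Ioo).2 h4
      show RR Q K - max r (rh Q ε K s) = RR Q K - r
      rw [max_eq_left (nml_ge hQ hK hR hε hx h hs.2)]
    exact (integrableOn_Ioc_iff_integrableOn_Ioo).2 h5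
  rw [hsplit, setIntegral_union (by
    rw [Set.disjoint_left]
    intro s hs hs'
    exact absurd hs.2 (not_le.2 hs')) measurableSet_Ioi i1 i2, e1, e2]
  linarith

end Pool.Agent.MP9dd972R
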