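import Mathlib
import Pool.Agent.Lib.MP_9dd972_gt.N.Gauge
import Pool.Agent.Lib.MP_9dd972_gt.N.Hsup
import Pool.Agent.Lib.MP_9dd972_gt.N.Div
import Pool.Agent.Lib.MP_9dd972_gt_R.Defs
import Pool.Agent.Lib.MP_9dd972_gt_R.Crd
import Pool.Agent.Lib.MP_9dd972_gt_R.Rad
import Pool.Agent.Lib.MP_9dd972_gt_R.Hqa
import Pool.Agent.Lib.MP_9dd972_gt_R.Hqb
import Pool.Agent.Lib.MP_9dd972_gt_R.Nml
import Pool.Agent.Lib.MP_9dd972_gt_R.Csj
import Pool.Agent.Lib.MP_9dd972_gt_R.Sde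
import Pool.Agent.Lib.MP_9dd972_gt_R.Zed
import Pool.Agent.Lib.MP_9dd972_gt_R.Dis
import Pool.Agent.Lib.MP_9dd972_gt_R.Cap

/-!
# MP_9dd972_gt, bodies with homothetic sections: volume and centroid
-/

set_option autoImplicit false

namespace Pool.Agent.MP9dd972R

open MeasureTheory Set Metric Pool.Agent.MP9dd972N
open scoped ENNReal NNReal Topology Pointwise

variable {N : ℕ} {Q : Set (EE N)} {K : Set (EE (N + 1))}

/-- the first coordinate is measurable -/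
private theorem Vlm_c0 : Continuous fun x : EE (N + 1) => x 0 :=
  (continuous_apply (0 : Fin (N + 1))).comp (PiLp.continuous_ofLp 2 _)

private theorem Vlm_abs0 (x : EE (N + 1)) : |x 0| ≤ ‖x‖ := by
  have h := PiLp.norm_apply_le x (0 : Fin (N + 1))
  rwa [Real.norm_eq_abs] at h

private theorem Vlm_int (hK : Body K) {ε : ℝ} (hε : ε = 1 ∨ ε = -1) (k : ℕ) :
    IntegrableOn (fun x => max 0 (ε * NN K x 0) * (ε * bd K x 0) ^ k) K := by
  obtain ⟨r, R, hr, hR, hrd⟩ := hK.round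
  have hKv : volume K < ∞ := hK.comp.measure_lt_top
  have hεa : |ε| = 1 := by
    rcases hε with h | h
    · rw [h, abs_one]
    · rw [h, abs_neg, abs_one]
  have hm1 : Measurable fun x => NN K x 0 := Vlm_c0.measurable.comp (NN_meas K)
  have hm2 : Measurable fun x => bd K x 0 := Vlm_c0.measurable.comp (bd_meas hK)
  refine Measure.integrableOn_of_bounded (M := r⁻¹ * R ^ k) hKv.ne ?_ ?_
  · exact ((measurable_const.max (hm1.const_mul ε)).mul
      ((hm2.const_mul ε).pow_const k)).aestronglyMeasurable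
  · refine Filter.Eventually.of_forall fun x => ?_
    have h1 : |NN K x 0| ≤ r⁻¹ := (Vlm_abs0 _).trans (norm_NN_le hr hrd x)
    have h2 : |bd K x 0| ≤ R := by
      refine (Vlm_abs0 _).trans ?_
      have := hrd.out (bd_mem hK x)
      rwa [mem_closedBall_zero_iff] at this
    have h3 : |max 0 (ε * NN K x 0)| ≤ r⁻¹ := by
      rw [abs_of_nonneg (le_max_left _ _)]
      refine max_le (inv_nonneg.2 hr.le) ((le_abs_self _).trans ?_)
      rw [abs_mul, hεa, one_mul]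
      exact h1
    have h4 : |ε * bd K x 0| ≤ R := by
      rw [abs_mul, hεa, one_mul]
      exact h2
    rw [Real.norm_eq_abs, abs_mul, abs_pow]
    exact mul_le_mul h3 (pow_le_pow_left₀ (abs_nonneg _) h4 k) (by positivity)
      (inv_nonneg.2 hr.le)

private theorem Vlm_fd (k : ℕ) (x : EE (N + 1)) :
    HasFDerivAt (fun x : EE (N + 1) => (x 0) ^ k • (EuclideanSpace.single 0 1 : EE (N + 1)))
      ((((k : ℝ) * (x 0) ^ (k - 1)) • (EuclideanSpace.proj (0 : Fin (N + 1)) :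
        EE (N + 1) →L[ℝ] ℝ)).smulRight (EuclideanSpace.single 0 1 : EE (N + 1))) x := by
  have h1 : HasFDerivAt (fun x : EE (N + 1) => x 0)
      (EuclideanSpace.proj (0 : Fin (N + 1)) : EE (N + 1) →L[ℝ] ℝ) x :=
    (EuclideanSpace.proj (0 : Fin (N + 1)) : EE (N + 1) →L[ℝ] ℝ).hasFDerivAt
  have h2 := (h1.pow k).smul_const (EuclideanSpace.single 0 1 : EE (N + 1))
  rw [nsmul_eq_mul] at h2
  exact h2

private theorem Vlm_dv (k : ℕ) (x : EE (N + 1)) :
    dv (fun x : EE (N + 1) => (x 0) ^ k • (EuclideanSpace.single 0 1 : EE (N + 1))) x =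
      k * (x 0) ^ (k - 1) := by
  unfold dv
  rw [(Vlm_fd k x).fderiv]
  rw [Finset.sum_eq_single 0]
  · simp
  · intro i _ hi
    simp [hi]
  · simp

private theorem Vlm_smooth (k : ℕ) :
    ContDiff ℝ 1 (fun x : EE (N + 1) => (x 0) ^ k • (EuclideanSpace.single 0 1 : EE (N + 1))) := by
  have h1 : ContDiff ℝ 1 fun x : EE (N + 1) => x 0 :=
    (EuclideanSpace.proj (0 : Fin (N + 1)) : EE (N + 1) →L[ℝ] ℝ).contDiff
  exact (h1.pow k).smul contDiff_const

private theorem Vlm_cone (hK : Body K) (k : ℕ) :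
    ∫ x in K, (k : ℝ) * (x 0) ^ (k - 1) = (N + 1) * ∫ x in K, NN K x 0 * (bd K x 0) ^ k := by
  have h := div_cone (Nat.succ_pos N) hK (Vlm_smooth k)
  have h1 : ∀ x : EE (N + 1), (inner ℝ (NN K x)
      ((bd K x 0) ^ k • (EuclideanSpace.single 0 1 : EE (N + 1))) : ℝ) =
      NN K x 0 * (bd K x 0) ^ k := by
    intro x
    rw [inner_smul_right, EuclideanSpace.inner_single_right]
    simp [mul_comm]
  simp only [Vlm_dv, h1] at h
  rw [h]
  push_cast
  rfl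

theorem vol_div (hK : Body K) :
    (volume K).toReal = (N + 1) * ((∫ x in K, max 0 (1 * NN K x 0) * (1 * bd K x 0)) +
      ∫ x in K, max 0 (-1 * NN K x 0) * (-1 * bd K x 0)) := by
  have h := Vlm_cone hK 1
  have h1 := Vlm_int hK (Or.inl rfl : (1 : ℝ) = 1 ∨ (1 : ℝ) = -1) 1
  have h2 := Vlm_int hK (Or.inr rfl : (-1 : ℝ) = 1 ∨ (-1 : ℝ) = -1) 1
  simp only [pow_one] at h1 h2
  rw [← integral_add h1 h2]
  simp only [Nat.cast_one, Nat.sub_self, pow_zero, mul_one, pow_one] at h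
  rw [setIntegral_const, smul_eq_mul, mul_one] at h
  have h3 : (volume K).toReal = volume.real K := rfl
  rw [h3, h]
  congr 1
  refine integral_congr_ae (Filter.Eventually.of_forall fun x => ?_)
  show NN K x 0 * bd K x 0 = max 0 (1 * NN K x 0) * (1 * bd K x 0) +
    max 0 (-1 * NN K x 0) * (-1 * bd K x 0)
  rcases le_total 0 (NN K x 0) with h4 | h4
  · rw [max_eq_right (by linarith), max_eq_left (by linarith)]
    ring
  · rw [max_eq_left (by linarith), max_eq_right (by linarith)]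
    ring

theorem cen_div (hK : Body K) (hc : ∫ x in K, x 0 = (0 : ℝ)) :
    ∫ x in K, max 0 (1 * NN K x 0) * (1 * bd K x 0) ^ 2 =
      ∫ x in K, max 0 (-1 * NN K x 0) * (-1 * bd K x 0) ^ 2 := by
  have h := Vlm_cone hK 2
  have h1 := Vlm_int hK (Or.inl rfl : (1 : ℝ) = 1 ∨ (1 : ℝ) = -1) 2
  have h2 := Vlm_int hK (Or.inr rfl : (-1 : ℝ) = 1 ∨ (-1 : ℝ) = -1) 2
  have h5 : ∫ x in K, ((2 : ℕ) : ℝ) * (x 0) ^ (2 - 1) = 0 := by
    rw [integral_const_mul]
    simp only [Nat.add_one_sub_one, pow_one]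
    rw [hc, mul_zero]
  rw [h5] at h
  have h6 : ∫ x in K, NN K x 0 * (bd K x 0) ^ 2 = 0 := by
    have h7 : ((N : ℝ) + 1) ≠ 0 := by positivity
    rcases mul_eq_zero.1 h.symm with h8 | h8
    · exact absurd h8 h7
    · exact h8
  rw [← sub_eq_zero, ← integral_sub h1 h2]
  refine Eq.trans ?_ h6
  refine integral_congr_ae (Filter.Eventually.of_forall fun x => ?_)
  show max 0 (1 * NN K x 0) * (1 * bd K x 0) ^ 2 -
    max 0 (-1 * NN K x 0) * (-1 * bd K x 0) ^ 2 = NN K x 0 * (bd K x 0) ^ 2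
  rcases le_total 0 (NN K x 0) with h4 | h4
  · rw [max_eq_right (by linarith), max_eq_left (by linarith)]
    ring
  · rw [max_eq_left (by linarith), max_eq_right (by linarith)]
    ring

/-- the height function of a side, cut off at the largest radius -/
private noncomputable def Vlm_g (R : ℝ) (ρ : ℝ → ℝ) (r : ℝ) : ℝ :=
  ∫ s in Ioi (0 : ℝ), (R - max (min r R) (ρ s))

private theorem Vlm_gint {R : ℝ} {ρ : ℝ → ℝ} (hm : Monotone ρ)
    (h1 : ∀ s, ρ s ≤ R) (hi : IntegrableOn (fun s => R - ρ s) (Ioi (0 : ℝ))) (r : ℝ) :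
    IntegrableOn (fun s => R - max (min r R) (ρ s)) (Ioi (0 : ℝ)) := by
  refine Integrable.mono hi ?_ (Filter.Eventually.of_forall fun s => ?_)
  · exact (measurable_const.sub (measurable_const.max hm.measurable)).aestronglyMeasurable
  · have h2 : max (min r R) (ρ s) ≤ R := max_le (min_le_right _ _) (h1 s)
    have h3 : ρ s ≤ max (min r R) (ρ s) := le_max_right _ _
    rw [Real.norm_eq_abs, Real.norm_eq_abs, abs_of_nonneg (by linarith),
      abs_of_nonneg (by linarith)]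
    linarith

private theorem Vlm_ganti {R : ℝ} {ρ : ℝ → ℝ} (hm : Monotone ρ)
    (h1 : ∀ s, ρ s ≤ R) (hi : IntegrableOn (fun s => R - ρ s) (Ioi (0 : ℝ))) :
    Antitone (Vlm_g R ρ) := by
  intro r t hrt
  refine integral_mono (Vlm_gint hm h1 hi t) (Vlm_gint hm h1 hi r) fun s => ?_
  have h2 : max (min r R) (ρ s) ≤ max (min t R) (ρ s) :=
    max_le_max (min_le_min hrt le_rfl) le_rfl
  show R - max (min t R) (ρ s) ≤ R - max (min r R) (ρ s)
  linarith

private theorem Vlm_geq {R : ℝ} {ρ : ℝ → ℝ} {r : ℝ} (h : r ≤ R) :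
    Vlm_g R ρ r = ∫ s in Ioi (0 : ℝ), (R - max r (ρ s)) := by
  rw [Vlm_g, min_eq_left h]

private theorem Vlm_side (hN : 1 ≤ N) (hQ : Body Q) (hK : Body K) (hR : Rev Q K) {ε : ℝ}
    (hε : ε = 1 ∨ ε = -1) (k : ℕ) :
    ∫ x in K, max 0 (ε * NN K x 0) * (ε * bd K x 0) ^ k =
      cQ Q * ∫ r in (0 : ℝ)..(RR Q K), (xi Q ε K + ∫ s in Ioi (0 : ℝ),
        (RR Q K - max r (rh Q ε K s))) ^ k * (N * r ^ (N - 1)) := by
  have hS := side_K hN hQ hK hR hε
  have ha := Vlm_ganti hS.mono hS.le hS.int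
  have hφ : Measurable fun r => (xi Q ε K + Vlm_g (RR Q K) (rh Q ε K) r) ^ k :=
    (measurable_const.add ha.measurable).pow_const k
  have h1 := radii hN hQ hK hR hε hφ
  have h2 : ∫ x in K, max 0 (ε * NN K x 0) * (ε * bd K x 0) ^ k =
      ∫ x in K, max 0 (ε * NN K x 0) *
        (fun r => (xi Q ε K + Vlm_g (RR Q K) (rh Q ε K) r) ^ k) (gauge Q (tl (bd K x))) := by
    refine setIntegral_congr_ae hK.comp.isClosed.measurableSet ?_
    filter_upwards [good_ae hK] with x hx _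
    show max 0 (ε * NN K x 0) * (ε * bd K x 0) ^ k = max 0 (ε * NN K x 0) *
      (xi Q ε K + Vlm_g (RR Q K) (rh Q ε K) (gauge Q (tl (bd K x)))) ^ k
    rcases le_or_gt (ε * NN K x 0) 0 with h | h
    · rw [max_eq_left h, zero_mul, zero_mul]
    · rw [height hN hQ hK hR hε hx h, Vlm_geq (q_le_RR hQ hK (bd_mem hK x))]
  rw [h2, h1]
  congr 1
  refine intervalIntegral.integral_congr fun r hr => ?_
  rw [uIcc_of_le hS.R_pos.le] at hr
  show (xi Q ε K + Vlm_g (RR Q K) (rh Q ε K) r) ^ k * (N * r ^ (N - 1)) = _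
  rw [Vlm_geq hr.2]

private theorem Vlm_one (hN : 1 ≤ N) {R ξ : ℝ} {ρ : ℝ → ℝ} (hR : 0 < R) (hm : Monotone ρ)
    (h0 : ∀ s, 0 ≤ ρ s) (h1 : ∀ s, ρ s ≤ R)
    (hi : IntegrableOn (fun s => R - ρ s) (Ioi (0 : ℝ))) :
    ∫ r in (0 : ℝ)..R, (ξ + ∫ s in Ioi (0 : ℝ), (R - max r (ρ s))) ^ 1 * (N * r ^ (N - 1)) =
      R ^ N * ξ + ∫ s in Ioi (0 : ℝ), vv N R (ρ s) := by
  have ha := Vlm_ganti hm h1 hi
  have hc : Continuous fun r : ℝ => (N : ℝ) * r ^ (N - 1) := by fun_prop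
  have e1 : ∫ r in (0 : ℝ)..R,
      (ξ + ∫ s in Ioi (0 : ℝ), (R - max r (ρ s))) ^ 1 * (N * r ^ (N - 1)) =
      ∫ r in (0 : ℝ)..R, (ξ * (N * r ^ (N - 1)) + Vlm_g R ρ r * (N * r ^ (N - 1))) := by
    refine intervalIntegral.integral_congr fun r hr => ?_
    rw [uIcc_of_le hR.le] at hr
    show (ξ + ∫ s in Ioi (0 : ℝ), (R - max r (ρ s))) ^ 1 * (N * r ^ (N - 1)) =
      ξ * (N * r ^ (N - 1)) + Vlm_g R ρ r * (N * r ^ (N - 1))
    rw [Vlm_geq hr.2, pow_one, add_mul]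
  have e2 : ∫ r in (0 : ℝ)..R, Vlm_g R ρ r * (N * r ^ (N - 1)) =
      ∫ s in Ioi (0 : ℝ), vv N R (ρ s) := by
    rw [← f_int hN hm h0 h1 hi]
    refine intervalIntegral.integral_congr fun r hr => ?_
    rw [uIcc_of_le hR.le] at hr
    show Vlm_g R ρ r * (N * r ^ (N - 1)) =
      (∫ s in Ioi (0 : ℝ), (R - max r (ρ s))) * (N * r ^ (N - 1))
    rw [Vlm_geq hr.2]
  have e3 : ∫ r in (0 : ℝ)..R, ξ * ((N : ℝ) * r ^ (N - 1)) = R ^ N * ξ := by
    rw [intervalIntegral.integral_const_mul, intervalIntegral.integral_const_mul, integral_pow]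
    have h4 : N - 1 + 1 = N := by omega
    have h5 : ((N - 1 : ℕ) : ℝ) + 1 = N := by exact_mod_cast h4
    have h6 : (N : ℝ) ≠ 0 := by positivity
    rw [h4, h5, zero_pow (by omega), sub_zero]
    field_simp
  rw [e1, intervalIntegral.integral_add, e2, e3]
  · exact (hc.const_mul ξ).intervalIntegrable _ _
  · exact (ha.intervalIntegrable).mul_continuousOn hc.continuousOn

theorem vol_eq (hN : 1 ≤ N) (hQ : Body Q) (hK : Body K) (hR : Rev Q K) :
    (volume K).toReal = (N + 1) * cQ Q * (RR Q K ^ N * (xi Q 1 K + xi Q (-1) K) +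
      (∫ s in Ioi (0 : ℝ), vv N (RR Q K) (rh Q 1 K s)) +
      ∫ s in Ioi (0 : ℝ), vv N (RR Q K) (rh Q (-1) K s)) := by
  have hS := side_K hN hQ hK hR (Or.inl rfl : (1 : ℝ) = 1 ∨ (1 : ℝ) = -1)
  have hT := side_K hN hQ hK hR (Or.inr rfl : (-1 : ℝ) = 1 ∨ (-1 : ℝ) = -1)
  have h1 := Vlm_side hN hQ hK hR (Or.inl rfl : (1 : ℝ) = 1 ∨ (1 : ℝ) = -1) 1
  have h2 := Vlm_side hN hQ hK hR (Or.inr rfl : (-1 : ℝ) = 1 ∨ (-1 : ℝ) = -1) 1
  rw [Vlm_one hN hS.R_pos hS.mono hS.nn hS.le hS.int] at h1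
  rw [Vlm_one hN hT.R_pos hT.mono hT.nn hT.le hT.int] at h2
  simp only [pow_one] at h1 h2
  rw [vol_div hK, h1, h2]
  ring

theorem cen_eq (hN : 1 ≤ N) (hQ : Body Q) (hK : Body K) (hR : Rev Q K)
    (hc : ∫ x in K, x 0 = (0 : ℝ)) :
    ∫ r in (0 : ℝ)..(RR Q K), (xi Q 1 K + ∫ s in Ioi (0 : ℝ),
        (RR Q K - max r (rh Q 1 K s))) ^ 2 * (N * r ^ (N - 1)) =
      ∫ r in (0 : ℝ)..(RR Q K), (xi Q (-1) K + ∫ s in Ioi (0 : ℝ),
        (RR Q K - max r (rh Q (-1) K s))) ^ 2 * (N * r ^ (N - 1)) := by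
  have h1 := Vlm_side hN hQ hK hR (Or.inl rfl : (1 : ℝ) = 1 ∨ (1 : ℝ) = -1) 2
  have h2 := Vlm_side hN hQ hK hR (Or.inr rfl : (-1 : ℝ) = 1 ∨ (-1 : ℝ) = -1) 2
  have h3 := cen_div hK hc
  rw [h1, h2] at h3
  exact mul_left_cancel₀ (cQ_pos hQ).ne' h3

end Pool.Agent.MP9dd972R
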