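import Mathlib
import Pool.Agent.Lib.MP_9dd972_gt.N.Gauge
import Pool.Agent.Lib.MP_9dd972_gt.N.Hsup
import Pool.Agent.Lib.MP_9dd972_gt_R.Defs
import Pool.Agent.Lib.MP_9dd972_gt_R.Crd
import Pool.Agent.Lib.MP_9dd972_gt_R.Rad
import Pool.Agent.Lib.MP_9dd972_gt_R.Hqa
import Pool.Agent.Lib.MP_9dd972_gt_R.Hqb
import Pool.Agent.Lib.MP_9dd972_gt_R.Nml
import Pool.Agent.Lib.MP_9dd972_gt_R.Hal
import Pool.Agent.Lib.MP_9dd972_gt_R.Slp
import Pool.Agent.Lib.MP_9dd972_gt_R.Sde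
import Pool.Agent.Lib.MP_9dd972_gt_R.Vlm
import Pool.Agent.Lib.MP_9dd972_gt_R.Cap

/-!
# MP_9dd972_gt, bodies with homothetic sections: the cylindrical part
-/

set_option autoImplicit false

namespace Pool.Agent.MP9dd972R

open MeasureTheory Set Metric Pool.Agent.MP9dd972N
open scoped ENNReal NNReal Topology Pointwise

variable {N : ℕ} {Q : Set (EE N)} {K : Set (EE (N + 1))}

private theorem coord_meas (K : Set (EE (N + 1))) : Measurable fun x => NN K x 0 :=
  (by fun_prop : Measurable fun u : EE (N + 1) => u 0).comp (NN_meas K)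

/-- the volume of the part of `K` on the side `ε` -/
private theorem side_vol (hN : 1 ≤ N) (hQ : Body Q) (hK : Body K) (hR : Rev Q K) {ε : ℝ}
    (hε : ε = 1 ∨ ε = -1) :
    (volume (K ∩ {x | 0 < ε * NN K x 0})).toReal = cQ Q * (RR Q K ^ N * xi Q ε K +
      (N + 1) * ∫ s in Ioi (0 : ℝ), vv N (RR Q K) (rh Q ε K s)) := by
  have h1 := al_int hN hQ hK hR hε (g := fun _ => (1 : ℝ)) measurable_const
  simp only [one_mul] at h1
  rw [int_H (side_K hN hQ hK hR hε)] at h1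
  rw [h1]
  simp [Measure.real]

theorem flat_vol (hN : 1 ≤ N) (hQ : Body Q) (hK : Body K) (hR : Rev Q K) :
    (volume (K ∩ {x | NN K x 0 = 0})).toReal =
      N * cQ Q * RR Q K ^ N * (xi Q 1 K + xi Q (-1) K) := by
  have hm := coord_meas K
  have hfin : ∀ A : Set (EE (N + 1)), volume (K ∩ A) ≠ ∞ := fun A =>
    ((measure_mono inter_subset_left).trans_lt hK.comp.measure_lt_top).ne
  have e1 := side_vol hN hQ hK hR (ε := 1) (Or.inl rfl)
  have e2 := side_vol hN hQ hK hR (ε := -1) (Or.inr rfl)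
  have m0 : MeasurableSet {x : EE (N + 1) | NN K x 0 = 0} :=
    measurableSet_eq_fun hm measurable_const
  have m1 : MeasurableSet {x : EE (N + 1) | 0 < 1 * NN K x 0} :=
    measurableSet_lt measurable_const (hm.const_mul 1)
  have s1 := measure_inter_add_sdiff K m0 (μ := volume)
  have s2 := measure_inter_add_sdiff (K \ {x : EE (N + 1) | NN K x 0 = 0}) m1 (μ := volume)
  have t1 : (K \ {x : EE (N + 1) | NN K x 0 = 0}) ∩ {x | 0 < 1 * NN K x 0} =
      K ∩ {x | 0 < 1 * NN K x 0} := by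
    ext x
    simp only [mem_inter_iff, mem_sdiff, mem_ofPred_eq, one_mul]
    constructor
    · rintro ⟨⟨h1, -⟩, h2⟩
      exact ⟨h1, h2⟩
    · rintro ⟨h1, h2⟩
      exact ⟨⟨h1, h2.ne'⟩, h2⟩
  have t2 : (K \ {x : EE (N + 1) | NN K x 0 = 0}) \ {x | 0 < 1 * NN K x 0} =
      K ∩ {x | 0 < -1 * NN K x 0} := by
    ext x
    simp only [mem_inter_iff, mem_sdiff, mem_ofPred_eq, one_mul]
    constructor
    · rintro ⟨⟨h1, h3⟩, h2⟩
      refine ⟨h1, ?_⟩
      have h4 : NN K x 0 < 0 := lt_of_le_of_ne (not_lt.1 h2) h3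
      linarith
    · rintro ⟨h1, h2⟩
      exact ⟨⟨h1, by intro h3; rw [h3] at h2; norm_num at h2⟩, by linarith⟩
  rw [t1, t2] at s2
  rw [← s2] at s1
  have s3 := congrArg ENNReal.toReal s1
  rw [ENNReal.toReal_add (hfin _) (ENNReal.add_ne_top.2 ⟨hfin _, hfin _⟩),
    ENNReal.toReal_add (hfin _) (hfin _), e1, e2, vol_eq hN hQ hK hR] at s3
  linarith

end Pool.Agent.MP9dd972R
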