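import Mathlib
import Pool.Agent.Lib.MP_9dd972_gt.N.Gauge
import Pool.Agent.Lib.MP_9dd972_gt.N.Hsup
import Pool.Agent.Lib.MP_9dd972_gt.N.Hypr
import Pool.Agent.Lib.MP_9dd972_gt_R.Defs
import Pool.Agent.Lib.MP_9dd972_gt_R.Crd
import Pool.Agent.Lib.MP_9dd972_gt_R.Rad
import Pool.Agent.Lib.MP_9dd972_gt_R.Hqa
import Pool.Agent.Lib.MP_9dd972_gt_R.Hqb
import Pool.Agent.Lib.MP_9dd972_gt_R.Nml
import Pool.Agent.Lib.MP_9dd972_gt_R.Slp
import Pool.Agent.Lib.MP_9dd972_gt_R.Cap

/-!
# MP_9dd972_gt, bodies with homothetic sections: equal L_p surface area measures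
-/

set_option autoImplicit false

namespace Pool.Agent.MP9dd972R

open MeasureTheory Set Metric Pool.Agent.MP9dd972N
open scoped ENNReal NNReal Topology Pointwise

variable {N : ℕ} {Q : Set (EE N)} {K : Set (EE (N + 1))}

/-- the density of the surface area measure of `C` with respect to that of `K` -/
noncomputable def be (Q : Set (EE N)) (ε p : ℝ) (K C : Set (EE (N + 1))) (s : ℝ) : ℝ :=
  (HH Q K ε |s| / HH Q C ε |s|) ^ (1 - p)

theorem be_meas (hQ : Body Q) {C : Set (EE (N + 1))} (hK : Body K) (hC : Body C) (ε p : ℝ) :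
    Measurable (be Q ε p K C) := by
  have h1 : Measurable fun s => HH Q K ε |s| :=
    ((HH_cont hQ hK ε).comp continuous_abs).measurable
  have h2 : Measurable fun s => HH Q C ε |s| :=
    ((HH_cont hQ hC ε).comp continuous_abs).measurable
  exact (h1.div h2).pow_const _

theorem be_bound (hQ : Body Q) {C : Set (EE (N + 1))} (hK : Body K) (hC : Body C) {ε : ℝ}
    (hε : ε = 1 ∨ ε = -1) (p : ℝ) :
    ∃ m M : ℝ, 0 < m ∧ ∀ s, m ≤ be Q ε p K C s ∧ be Q ε p K C s ≤ M := by
  obtain ⟨c1, hc1, h1⟩ := HH_cmp hQ hK hC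
  obtain ⟨c2, hc2, h2⟩ := HH_cmp hQ hC hK
  have hlo : ∀ s, c2⁻¹ ≤ HH Q K ε |s| / HH Q C ε |s| := by
    intro s
    have hp := HH_pos hQ hC hε (abs_nonneg s)
    rw [le_div_iff₀ hp, inv_mul_le_iff₀ hc2]
    exact h2 ε |s| hε (abs_nonneg s)
  have hhi : ∀ s, HH Q K ε |s| / HH Q C ε |s| ≤ c1 := by
    intro s
    have hp := HH_pos hQ hC hε (abs_nonneg s)
    rw [div_le_iff₀ hp]
    exact h1 ε |s| hε (abs_nonneg s)
  have hc2' : 0 < c2⁻¹ := inv_pos.2 hc2
  rcases le_total 0 (1 - p) with hp | hp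
  · refine ⟨c2⁻¹ ^ (1 - p), c1 ^ (1 - p), Real.rpow_pos_of_pos hc2' _, fun s => ⟨?_, ?_⟩⟩
    · exact Real.rpow_le_rpow hc2'.le (hlo s) hp
    · exact Real.rpow_le_rpow (hc2'.le.trans (hlo s)) (hhi s) hp
  · refine ⟨c1 ^ (1 - p), c2⁻¹ ^ (1 - p), Real.rpow_pos_of_pos hc1 _, fun s => ⟨?_, ?_⟩⟩
    · exact Real.rpow_le_rpow_of_nonpos (hc2'.trans_le (hlo s)) (hhi s) hp
    · exact Real.rpow_le_rpow_of_nonpos hc2' (hlo s) hp

private theorem Hyl_coord : Measurable fun u : EE (N + 1) => u 0 := by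
  have : Continuous fun u : EE (N + 1) => u 0 := by fun_prop
  exact this.measurable

private theorem Hyl_hh (hQ : Body Q) : Measurable fun u : EE (N + 1) => hh Q (tl u) := by
  obtain ⟨r, R, hr, hR, hrd⟩ := hQ.round
  have h1 : LipschitzWith (Real.toNNReal R) (hh Q) := by
    refine LipschitzWith.of_dist_le_mul fun u v => ?_
    rw [Real.dist_eq, dist_eq_norm, Real.coe_toNNReal R (by linarith)]
    exact hh_lip hQ.comp ⟨0, interior_subset hQ.zero⟩ hrd.out u v
  exact (h1.continuous.comp cont_tl).measurable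

private theorem Hyl_hh_nonneg (hQ : Body Q) (u : EE N) : 0 ≤ hh Q u := by
  have h := inner_le_hh hQ.comp (interior_subset hQ.zero) u
  rwa [inner_zero_right] at h

/-- integrals with respect to `al` -/
private theorem Hyl_lint (hQ : Body Q) (ε : ℝ) (K : Set (EE (N + 1))) {g : ℝ → ℝ≥0∞}
    (hg : Measurable g) : ∫⁻ s, g s ∂(al Q ε K) = ENNReal.ofReal (cQ Q)⁻¹ *
      ∫⁻ x in K, ENNReal.ofReal (ε * NN K x 0) * g (slo Q ε K x) := by
  have hm : Measurable fun x : EE (N + 1) => ENNReal.ofReal (ε * NN K x 0) :=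
    ((Hyl_coord.comp (NN_meas K)).const_mul ε).ennreal_ofReal
  have hs : Measurable (slo Q ε K) := al_meas hQ ε K
  unfold al
  rw [lintegral_smul_measure, lintegral_map hg hs, smul_eq_mul]
  congr 1
  unfold mu
  exact lintegral_withDensity_eq_lintegral_mul _ hm (hg.comp hs)

theorem al_dens (hN : 1 ≤ N) (hQ : Body Q) {C : Set (EE (N + 1))} (hK : Body K) (hC : Body C)
    (hKR : Rev Q K) (hCR : Rev Q C) {p : ℝ} (hyp : Hyp p K C) {ε : ℝ}
    (hε : ε = 1 ∨ ε = -1) :
    al Q ε C = (al Q ε K).withDensity fun s => ENNReal.ofReal (be Q ε p K C s) := by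
  ext E hE
  have hbe : Measurable fun s => ENNReal.ofReal (be Q ε p K C s) :=
    (be_meas hQ hK hC ε p).ennreal_ofReal
  rw [withDensity_apply _ hE, ← lintegral_indicator hE, ← lintegral_indicator_one hE,
    Hyl_lint hQ ε C (measurable_one.indicator hE), Hyl_lint hQ ε K (hbe.indicator hE)]
  congr 1
  have hsig : Measurable fun u : EE (N + 1) => hh Q (tl u) / (ε * u 0) :=
    (Hyl_hh hQ).div (Hyl_coord.const_mul ε)
  have hH : Measurable fun s => HH Q C ε |s| :=
    ((HH_cont hQ hC ε).comp continuous_abs).measurable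
  have key := hyp (fun u => if 0 < ε * u 0 then ENNReal.ofReal ((ε * u 0) ^ p) *
    ENNReal.ofReal ((HH Q C ε |hh Q (tl u) / (ε * u 0)|) ^ (p - 1)) *
      E.indicator (1 : ℝ → ℝ≥0∞) (hh Q (tl u) / (ε * u 0)) else 0) ?_ ?_
  · -- the two integrals
    have hC' : ∫⁻ x in C, ENNReal.ofReal (ε * NN C x 0) *
        E.indicator (1 : ℝ → ℝ≥0∞) (slo Q ε C x) = ∫⁻ x in C, (fun u : EE (N + 1) =>
        if 0 < ε * u 0 then ENNReal.ofReal ((ε * u 0) ^ p) *
    ENNReal.ofReal ((HH Q C ε |hh Q (tl u) / (ε * u 0)|) ^ (p - 1)) *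
      E.indicator (1 : ℝ → ℝ≥0∞) (hh Q (tl u) / (ε * u 0)) else 0) (NN C x) := by
      refine lintegral_congr_ae ?_
      filter_upwards [ae_restrict_of_ae (good_ae hC)] with x hx
      change _ = if 0 < ε * NN C x 0 then _ else _
      by_cases h : 0 < ε * NN C x 0
      · rw [if_pos h]
        have e1 := (nml_H hQ hC hCR hε hx h).1
        have e2 := slo_nonneg (K := C) hQ h
        change _ = ENNReal.ofReal ((ε * NN C x 0) ^ p) *
          ENNReal.ofReal ((HH Q C ε |slo Q ε C x|) ^ (p - 1)) *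
          E.indicator (1 : ℝ → ℝ≥0∞) (slo Q ε C x)
        rw [abs_of_nonneg e2, e1, ← ENNReal.ofReal_mul (Real.rpow_nonneg h.le p)]
        congr 2
        rw [Real.inv_rpow h.le, ← Real.rpow_neg h.le, ← Real.rpow_add h]
        norm_num
      · rw [if_neg h, ENNReal.ofReal_of_nonpos (not_lt.1 h), zero_mul]
    have hK' : ∫⁻ x in K, ENNReal.ofReal (ε * NN K x 0) *
        E.indicator (fun s => ENNReal.ofReal (be Q ε p K C s)) (slo Q ε K x) =
        ∫⁻ x in K, (fun u : EE (N + 1) =>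
        if 0 < ε * u 0 then ENNReal.ofReal ((ε * u 0) ^ p) *
    ENNReal.ofReal ((HH Q C ε |hh Q (tl u) / (ε * u 0)|) ^ (p - 1)) *
      E.indicator (1 : ℝ → ℝ≥0∞) (hh Q (tl u) / (ε * u 0)) else 0) (NN K x) := by
      refine lintegral_congr_ae ?_
      filter_upwards [ae_restrict_of_ae (good_ae hK)] with x hx
      change _ = if 0 < ε * NN K x 0 then _ else _
      by_cases h : 0 < ε * NN K x 0
      · rw [if_pos h]
        have e1 := (nml_H hQ hK hKR hε hx h).1
        have e2 := slo_nonneg (K := K) hQ h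
        change _ = ENNReal.ofReal ((ε * NN K x 0) ^ p) *
          ENNReal.ofReal ((HH Q C ε |slo Q ε K x|) ^ (p - 1)) *
          E.indicator (1 : ℝ → ℝ≥0∞) (slo Q ε K x)
        by_cases hsE : slo Q ε K x ∈ E
        · rw [indicator_of_mem hsE, indicator_of_mem hsE, Pi.one_apply, mul_one,
            ← ENNReal.ofReal_mul (Real.rpow_nonneg h.le p), ← ENNReal.ofReal_mul h.le]
          congr 1
          unfold be
          rw [abs_of_nonneg e2, e1]
          have hCp := HH_pos hQ hC hε e2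
          set a := ε * NN K x 0 with ha
          set b := HH Q C ε (slo Q ε K x) with hb
          clear_value a b
          have e3 : a⁻¹ / b = (a * b)⁻¹ := by rw [mul_inv, div_eq_mul_inv]
          have hab : 0 < a * b := mul_pos h hCp
          rw [e3, Real.inv_rpow hab.le, ← Real.rpow_neg hab.le, neg_sub,
            Real.mul_rpow h.le hCp.le, ← mul_assoc]
          congr 1
          have e4 : a * a ^ (p - 1) = a ^ (1 : ℝ) * a ^ (p - 1) := by rw [Real.rpow_one]
          rw [e4, ← Real.rpow_add h]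
          congr 1
          ring
        · rw [indicator_of_notMem hsE, indicator_of_notMem hsE, mul_zero, mul_zero]
      · rw [if_neg h, ENNReal.ofReal_of_nonpos (not_lt.1 h), zero_mul]
    rw [hC', hK', key]
  · refine Measurable.ite (measurableSet_lt measurable_const (Hyl_coord.const_mul ε)) ?_
      measurable_const
    exact (((Hyl_coord.const_mul ε).pow_const p).ennreal_ofReal.mul
      ((hH.comp hsig).pow_const (p - 1)).ennreal_ofReal).mul
        ((measurable_one.indicator hE).comp hsig)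
  · intro c u hc
    have e0 : (c • u) 0 = c * u 0 := rfl
    have e1 : hh Q (tl (c • u)) / (ε * (c • u) 0) = hh Q (tl u) / (ε * u 0) := by
      rw [tl_smul, hh_smul Q hc.le, e0, mul_left_comm, mul_div_mul_left _ _ hc.ne']
    have e2 : ε * (c • u) 0 = c * (ε * u 0) := by rw [e0]; ring
    simp only [e1]
    rw [e2]
    by_cases h : 0 < ε * u 0
    · rw [if_pos h, if_pos (mul_pos hc h), Real.mul_rpow hc.le h.le,
        ENNReal.ofReal_mul (Real.rpow_nonneg hc.le p)]
      ring
    · rw [if_neg h, if_neg, mul_zero]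
      intro h'
      exact h ((mul_pos_iff_of_pos_left hc).1 h')

theorem flat_dens (hN : 1 ≤ N) (hQ : Body Q) {C : Set (EE (N + 1))} (hK : Body K)
    (hC : Body C) (hKR : Rev Q K) (hCR : Rev Q C) {p : ℝ} (hp : 0 < p) (hyp : Hyp p K C) :
    (volume (K ∩ {x | NN K x 0 = 0})).toReal * RR Q K ^ (-p) =
      (volume (C ∩ {x | NN C x 0 = 0})).toReal * RR Q C ^ (-p) := by
  have hG : Measurable fun u : EE (N + 1) => if u 0 = 0 then (hh Q (tl u)) ^ p else 0 :=
    Measurable.ite (Hyl_coord (measurableSet_singleton 0)) ((Hyl_hh hQ).pow_const p)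
      measurable_const
  have key := hyp_real (Nat.succ_pos N) hp hK hC hyp hG (fun u => by
    split_ifs
    · exact Real.rpow_nonneg (Hyl_hh_nonneg hQ _) p
    · exact le_rfl) (fun c u hc => by
    have e0 : (c • u) 0 = c * u 0 := rfl
    by_cases h : u 0 = 0
    · have h' : (c • u) 0 = 0 := by rw [e0, h, mul_zero]
      rw [if_pos h, if_pos h', tl_smul, hh_smul Q hc.le,
        Real.mul_rpow hc.le (Hyl_hh_nonneg hQ _)]
    · have h' : ¬ (c • u) 0 = 0 := by
        rw [e0]
        exact mul_ne_zero hc.ne' h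
      rw [if_neg h, if_neg h', mul_zero])
  have one : ∀ D : Set (EE (N + 1)), Body D → Rev Q D →
      ∫ x in D, (if NN D x 0 = 0 then (hh Q (tl (NN D x))) ^ p else 0) =
      (volume (D ∩ {x | NN D x 0 = 0})).toReal * RR Q D ^ (-p) := by
    intro D hD hDR
    have hms : MeasurableSet {x : EE (N + 1) | NN D x 0 = 0} :=
      (Hyl_coord.comp (NN_meas D)) (measurableSet_singleton 0)
    have e1 : ∫ x in D, (if NN D x 0 = 0 then (hh Q (tl (NN D x))) ^ p else 0) =
        ∫ x in D, {x | NN D x 0 = 0}.indicator (fun _ => RR Q D ^ (-p)) x := by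
      refine integral_congr_ae ?_
      filter_upwards [ae_restrict_of_ae (good_ae hD)] with x hx
      by_cases h : NN D x 0 = 0
      · rw [if_pos h, indicator_of_mem (show x ∈ {x | NN D x 0 = 0} from h)]
        have hR := RR_pos hN hQ hD
        have e2 : hh Q (tl (NN D x)) = (RR Q D)⁻¹ :=
          eq_inv_of_mul_eq_one_left (nml_flat hQ hD hDR hx h)
        rw [e2, Real.inv_rpow hR.le, Real.rpow_neg hR.le]
      · rw [if_neg h, indicator_of_notMem (show x ∉ {x | NN D x 0 = 0} from h)]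
    rw [e1, setIntegral_indicator hms, setIntegral_const]
    rfl
  rw [← one K hK hKR, ← one C hC hCR]
  exact key

end Pool.Agent.MP9dd972R
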