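import Mathlib
import Pool.Agent.Lib.MP_9dd972_gt.N.Gauge
import Pool.Agent.Lib.MP_9dd972_gt.N.Hsup
import Pool.Agent.Lib.MP_9dd972_gt_R.Defs
import Pool.Agent.Lib.MP_9dd972_gt_R.Crd
import Pool.Agent.Lib.MP_9dd972_gt_R.Rad
import Pool.Agent.Lib.MP_9dd972_gt_R.Hqa
import Pool.Agent.Lib.MP_9dd972_gt_R.Hqb
import Pool.Agent.Lib.MP_9dd972_gt_R.Nml
import Pool.Agent.Lib.MP_9dd972_gt_R.Slp
import Pool.Agent.Lib.MP_9dd972_gt_R.Cap
import Pool.Agent.Lib.MP_9dd972_gt_R.Hyl

/-!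
# MP_9dd972_gt, bodies with homothetic sections: the integral of the logarithm
-/

set_option autoImplicit false

namespace Pool.Agent.MP9dd972R

open MeasureTheory Set Metric Pool.Agent.MP9dd972N
open scoped ENNReal NNReal Topology Pointwise

variable {N : ℕ} {Q : Set (EE N)} {K : Set (EE (N + 1))}

private theorem Lgi_side (hQ : Body Q) {C : Set (EE (N + 1))} (hK : Body K) (hC : Body C)
    (hKR : Rev Q K) (hCR : Rev Q C) (p : ℝ) {ε : ℝ} (hε : ε = 1 ∨ ε = -1)
    {x : EE (N + 1)} (hx : Good K x) (h : 0 < ε * NN K x 0) :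
    (1 - p) * -Real.log (hh C (NN K x)) = Real.log (be Q ε p K C (slo Q ε K x)) := by
  have hε2 : ε * ε = 1 := by rcases hε with h | h <;> rw [h] <;> norm_num
  have hs := slo_nonneg hQ h
  have hHK := (nml_H hQ hK hKR hε hx h).1
  have hHC := HH_pos hQ hC hε hs
  have e1 : hh C (NN K x) = (ε * NN K x 0) * HH Q C ε (slo Q ε K x) := by
    rw [hh_eq hQ hC hCR, ← HH_smul Q C h.le]
    congr 1
    · linear_combination (-(NN K x 0)) * hε2
    · rw [slo, mul_div_cancel₀ _ h.ne']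
  rw [be, abs_of_nonneg hs, Real.log_rpow, hHK, e1]
  · congr 1
    rw [← Real.log_inv, mul_inv, div_eq_mul_inv]
  · rw [hHK]
    positivity

private theorem Lgi_flat (hN : 1 ≤ N) (hQ : Body Q) {C : Set (EE (N + 1))} (hK : Body K)
    (hC : Body C) (hKR : Rev Q K) (hCR : Rev Q C) (p : ℝ)
    {x : EE (N + 1)} (hx : Good K x) (h : NN K x 0 = 0) :
    (1 - p) * -Real.log (hh C (NN K x)) = (1 - p) * Real.log (RR Q K / RR Q C) := by
  have h1 := nml_flat hQ hK hKR hx h
  have hRK := RR_pos hN hQ hK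
  have hb : 0 ≤ hh Q (tl (NN K x)) := by
    by_contra hcon
    have h2 := mul_neg_of_neg_of_pos (not_le.1 hcon) hRK
    linarith
  have e1 : hh C (NN K x) = hh Q (tl (NN K x)) * RR Q C := by
    rw [hh_eq hQ hC hCR, h, RR, ← HH_smul Q C hb, mul_zero, mul_one]
  have e2 : hh Q (tl (NN K x)) = (RR Q K)⁻¹ := eq_inv_of_mul_eq_one_left h1
  rw [e1, e2, ← Real.log_inv, mul_inv, inv_inv, div_eq_mul_inv]

private theorem Lgi_int {C : Set (EE (N + 1))} (hK : Body K) (hC : Body C) :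
    IntegrableOn (fun x => Real.log (hh C (NN K x))) K := by
  obtain ⟨r, R, hr, hR, hrd⟩ := hK.round
  obtain ⟨r', R', hr', hR', hrd'⟩ := hC.round
  have hne : C.Nonempty := ⟨0, interior_subset hC.zero⟩
  have hR0 : 0 < R := by linarith
  refine Measure.integrableOn_of_bounded
    (M := max |Real.log (r' * R⁻¹)| |Real.log (R' * r⁻¹)|) hK.comp.measure_lt_top.ne
    ((Real.measurable_log.comp
      ((hh_cont hC.comp hne).measurable.comp (NN_meas K))).aestronglyMeasurable) ?_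
  refine ae_restrict_of_ae ?_
  filter_upwards [good_ae hK] with x hx
  have h1 := norm_NN_le hr hrd x
  have h2 := le_norm_NN hR0 hrd hx.1 hx.2
  have h3 := le_hh hC.comp hr' hrd'.inn (NN K x)
  have h4 := hh_bound hne hrd'.out (NN K x)
  have h5 : r' * R⁻¹ ≤ hh C (NN K x) := (mul_le_mul_of_nonneg_left h2 hr'.le).trans h3
  have h6 : hh C (NN K x) ≤ R' * r⁻¹ :=
    h4.trans (mul_le_mul_of_nonneg_left h1 (by linarith))
  have h7 : 0 < r' * R⁻¹ := by positivity
  rw [Real.norm_eq_abs]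
  exact abs_le_max_abs_abs (Real.log_le_log h7 h5) (Real.log_le_log (h7.trans_le h5) h6)

theorem log_int (hN : 1 ≤ N) (hQ : Body Q) {C : Set (EE (N + 1))} (hK : Body K)
    (hC : Body C) (hKR : Rev Q K) (hCR : Rev Q C) (p : ℝ) :
    (1 - p) * ∫ x in K, -Real.log (hh C (NN K x)) =
      cQ Q * (∫ s, Real.log (be Q 1 p K C s) * HH Q K 1 s ∂(al Q 1 K)) +
      cQ Q * (∫ s, Real.log (be Q (-1) p K C s) * HH Q K (-1) s ∂(al Q (-1) K)) +
      (volume (K ∩ {x | NN K x 0 = 0})).toReal * ((1 - p) * Real.log (RR Q K / RR Q C)) := by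
  have hmK : MeasurableSet K := hK.comp.isClosed.measurableSet
  have hm0 : Measurable fun x : EE (N + 1) => NN K x 0 :=
    (EuclideanSpace.proj (𝕜 := ℝ) (0 : Fin (N + 1))).continuous.measurable.comp (NN_meas K)
  have hmA : MeasurableSet {x : EE (N + 1) | 0 < 1 * NN K x 0} :=
    measurableSet_lt measurable_const (hm0.const_mul 1)
  have hmB : MeasurableSet {x : EE (N + 1) | 0 < -1 * NN K x 0} :=
    measurableSet_lt measurable_const (hm0.const_mul (-1))
  have hmZ : MeasurableSet {x : EE (N + 1) | NN K x 0 = 0} :=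
    measurableSet_eq_fun hm0 measurable_const
  have hint : IntegrableOn (fun x => (1 - p) * -Real.log (hh C (NN K x))) K :=
    (Lgi_int hK hC).neg.const_mul (1 - p)
  have side : ∀ ε : ℝ, ε = 1 ∨ ε = -1 →
      MeasurableSet {x : EE (N + 1) | 0 < ε * NN K x 0} →
      ∫ x in K ∩ {x | 0 < ε * NN K x 0}, (1 - p) * -Real.log (hh C (NN K x)) =
        cQ Q * (∫ s, Real.log (be Q ε p K C s) * HH Q K ε s ∂(al Q ε K)) := by
    intro ε hε hm
    have h0 := al_int hN hQ hK hKR hε (Real.measurable_log.comp (be_meas hQ hK hC ε p))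
    simp only [Function.comp_apply] at h0
    rw [h0]
    refine setIntegral_congr_ae (hmK.inter hm) ?_
    filter_upwards [good_ae hK] with x hx hx2
    exact Lgi_side hQ hK hC hKR hCR p hε hx hx2.2
  have flat : ∫ x in K ∩ {x | NN K x 0 = 0}, (1 - p) * -Real.log (hh C (NN K x)) =
      (volume (K ∩ {x | NN K x 0 = 0})).toReal * ((1 - p) * Real.log (RR Q K / RR Q C)) := by
    have e1 : ∫ x in K ∩ {x | NN K x 0 = 0}, (1 - p) * -Real.log (hh C (NN K x)) =
        ∫ _ in K ∩ {x | NN K x 0 = 0}, (1 - p) * Real.log (RR Q K / RR Q C) := by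
      refine setIntegral_congr_ae (hmK.inter hmZ) ?_
      filter_upwards [good_ae hK] with x hx hx2
      exact Lgi_flat hN hQ hK hC hKR hCR p hx hx2.2
    rw [e1, setIntegral_const, smul_eq_mul]
    rfl
  rw [← integral_const_mul, ← side 1 (Or.inl rfl) hmA, ← side (-1) (Or.inr rfl) hmB, ← flat,
    ← integral_inter_add_sdiff hmA hint,
    ← integral_inter_add_sdiff hmB (hint.mono_set sdiff_subset), ← add_assoc]
  have s1 : (K \ {x : EE (N + 1) | 0 < 1 * NN K x 0}) ∩ {x | 0 < -1 * NN K x 0} =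
      K ∩ {x | 0 < -1 * NN K x 0} := by
    ext x
    simp only [mem_inter_iff, mem_sdiff, mem_ofPred_eq]
    constructor
    · rintro ⟨⟨h1, _⟩, h3⟩
      exact ⟨h1, h3⟩
    · rintro ⟨h1, h3⟩
      exact ⟨⟨h1, by linarith⟩, h3⟩
  have s2 : (K \ {x : EE (N + 1) | 0 < 1 * NN K x 0}) \ {x | 0 < -1 * NN K x 0} =
      K ∩ {x | NN K x 0 = 0} := by
    ext x
    simp only [mem_inter_iff, mem_sdiff, mem_ofPred_eq]
    constructor
    · rintro ⟨⟨h1, h2⟩, h3⟩
      exact ⟨h1, by linarith⟩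
    · rintro ⟨h1, h3⟩
      rw [h3]
      refine ⟨⟨h1, by norm_num⟩, by norm_num⟩
  rw [s1, s2]

end Pool.Agent.MP9dd972R
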