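import Mathlib
import Pool.Agent.Lib.MP_9dd972_gt_R.Defs
import Pool.Agent.Lib.MP_9dd972_gt_R.Ccv

/-!
# MP_9dd972_gt, bodies with homothetic sections: the frustum inequality
-/

set_option autoImplicit false

namespace Pool.Agent.MP9dd972R

open MeasureTheory Set Metric Pool.Agent.MP9dd972N
open scoped ENNReal NNReal Topology Pointwise

private theorem Fru_tangent {t b v : ℝ} (ht : 0 ≤ t) (hb : 0 ≤ b) (h0 : t = 0 ↔ b = 0)
    (hv : 0 < v) : t * Real.log (b / t) ≤ t * Real.log v + b / v - t := by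
  rcases ht.eq_or_lt with h | h
  · have hb0 : b = 0 := h0.1 h.symm
    rw [← h, hb0]
    simp
  · have hb' : 0 < b := lt_of_le_of_ne hb fun e => h.ne' (h0.2 e.symm)
    have h1 : Real.log (b / t / v) ≤ b / t / v - 1 :=
      Real.log_le_sub_one_of_pos (by positivity)
    rw [Real.log_div (by positivity) hv.ne'] at h1
    have h2 : t * (Real.log (b / t) - Real.log v) ≤ t * (b / t / v - 1) :=
      mul_le_mul_of_nonneg_left h1 h.le
    have h3 : t * (b / t / v - 1) = b / v - t := by
      field_simp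
    linarith

private theorem Fru_point {N : ℕ} (hN : 1 ≤ N) {t A b B x κ : ℝ} (ht : 0 ≤ t) (hb : 0 ≤ b)
    (h0 : t = 0 ↔ b = 0) (htA : t < A) (hbB : b < B) (hx : 0 < x) (hx1 : t < x ^ N)
    (hx2 : x ^ N < A) (hκ : 0 < κ) :
    N * x ^ N * Real.log ((B - b) / (A - t)) +
        ((A - x ^ N) / (A - t) * (t * Real.log (b / t)) +
          (x ^ N - t) / (A - t) * (A * Real.log (B / A))) ≤
      N * x ^ N * (Real.log κ - 1) +
        N * ((B - b) / (A - t)) * (b + (x ^ N - t) * ((B - b) / (A - t))) ^ (1 / (N : ℝ)) *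
          x ^ (N - 1) / κ := by
  have hN0 : (0:ℝ) < N := by exact_mod_cast hN
  have hAt : 0 < A - t := by linarith
  have hBb : 0 < B - b := by linarith
  set K := (B - b) / (A - t) with hK
  have hK0 : 0 < K := by positivity
  set X := x ^ N with hX
  have hX0 : 0 < X := by positivity
  set z := b + (X - t) * K with hz
  have hz0 : 0 < z := by
    have : 0 < (X - t) * K := mul_pos (by linarith) hK0
    linarith
  set v := z / X with hv
  have hv0 : 0 < v := by positivity
  -- the linear interpolation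
  have h1 := Fru_tangent ht hb h0 hv0
  have hA0 : 0 < A := by linarith
  have hB0 : 0 < B := by linarith
  have h2 := Fru_tangent hA0.le hB0.le (by constructor <;> intro h <;> linarith) hv0
  have hl1 : 0 ≤ (A - X) / (A - t) := div_nonneg (by linarith) hAt.le
  have hl2 : 0 ≤ (X - t) / (A - t) := div_nonneg (by linarith) hAt.le
  have h3 : (A - X) / (A - t) * (t * Real.log (b / t)) +
      (X - t) / (A - t) * (A * Real.log (B / A)) ≤ X * Real.log v := by
    have e1 : (A - X) / (A - t) * (t * Real.log v + b / v - t) +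
        (X - t) / (A - t) * (A * Real.log v + B / v - A) = X * Real.log v := by
      have e2 : (A - X) / (A - t) * b + (X - t) / (A - t) * B = z := by
        rw [hz, hK]
        field_simp
        ring
      have e3 : (A - X) / (A - t) * t + (X - t) / (A - t) * A = X := by
        field_simp
        ring
      have e4 : (A - X) / (A - t) * (t * Real.log v + b / v - t) +
          (X - t) / (A - t) * (A * Real.log v + B / v - A) =
          ((A - X) / (A - t) * t + (X - t) / (A - t) * A) * Real.log v +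
          ((A - X) / (A - t) * b + (X - t) / (A - t) * B) / v -
          ((A - X) / (A - t) * t + (X - t) / (A - t) * A) := by ring
      rw [e4, e2, e3, hv]
      field_simp
      ring
    calc _ ≤ (A - X) / (A - t) * (t * Real.log v + b / v - t) +
        (X - t) / (A - t) * (A * Real.log v + B / v - A) :=
          add_le_add (mul_le_mul_of_nonneg_left h1 hl1) (mul_le_mul_of_nonneg_left h2 hl2)
      _ = _ := e1
  -- the logarithm of `y`
  set y := K * z ^ (1 / (N : ℝ)) / x with hy
  have hzr : 0 < z ^ (1 / (N : ℝ)) := Real.rpow_pos_of_pos hz0 _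
  have hy0 : 0 < y := by positivity
  have h4 : Real.log (y / κ) ≤ y / κ - 1 := Real.log_le_sub_one_of_pos (by positivity)
  rw [Real.log_div hy0.ne' hκ.ne'] at h4
  have h5 : Real.log y = Real.log K + 1 / N * Real.log z - Real.log x := by
    rw [hy, Real.log_div (by positivity) hx.ne', Real.log_mul hK0.ne' hzr.ne',
      Real.log_rpow hz0]
  have h6 : Real.log v = Real.log z - N * Real.log x := by
    rw [hv, Real.log_div hz0.ne' hX0.ne', hX, Real.log_pow]
  have h7 : N * X * Real.log y = N * X * Real.log K + X * Real.log v := by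
    rw [h5, h6]
    field_simp
    ring
  have h8 : N * X * Real.log y ≤ N * X * (Real.log κ - 1) + N * X * (y / κ) := by
    have : N * X * Real.log y ≤ N * X * (Real.log κ + (y / κ - 1)) :=
      mul_le_mul_of_nonneg_left (by linarith) (by positivity)
    linarith
  have h9 : N * X * (y / κ) = N * K * z ^ (1 / (N : ℝ)) * x ^ (N - 1) / κ := by
    have e : X = x ^ (N - 1) * x := by
      rw [hX, ← pow_succ, Nat.sub_add_cancel hN]
    rw [hy, e]
    field_simp
  rw [h9] at h8
  linarith

/-- Frustum inequality: `L1`, `L2` are the integrals of `log β` over the levels below `r ^ N` and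
between `r ^ N` and `R ^ N`. -/
theorem frustum {N : ℕ} (hN : 1 ≤ N) {R r R' r' L1 L2 κ : ℝ} (hr : 0 ≤ r) (hR : r < R)
    (hr' : 0 ≤ r') (hR' : r' < R') (h0 : r = 0 ↔ r' = 0) (hκ : 0 < κ)
    (h1 : L1 ≤ r ^ N * Real.log (r' ^ N / r ^ N))
    (h2 : L2 ≤ (R ^ N - r ^ N) * Real.log ((R' ^ N - r' ^ N) / (R ^ N - r ^ N))) :
    R * (L1 + L2) - r * L1 + cc N R r * (R ^ N * Real.log (R' ^ N / R ^ N) - (L1 + L2)) ≤
      N * (vv N R r * Real.log κ + vv N R' r' / κ - vv N R r) := by
  have hN0 : (0:ℝ) < N := by exact_mod_cast hN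
  have hNne : N ≠ 0 := by omega
  have hR0 : 0 < R := by linarith
  have hR0' : 0 < R' := by linarith
  have htA : r ^ N < R ^ N := pow_lt_pow_left₀ hR hr hNne
  have hbB : r' ^ N < R' ^ N := pow_lt_pow_left₀ hR' hr' hNne
  have ht : 0 ≤ r ^ N := by positivity
  have hb : 0 ≤ r' ^ N := by positivity
  have h00 : r ^ N = 0 ↔ r' ^ N = 0 := by
    rw [pow_eq_zero_iff hNne, pow_eq_zero_iff hNne]
    exact h0
  have eR : R ^ (N + 1) = R * R ^ N := pow_succ' R N
  have er : r ^ (N + 1) = r * r ^ N := pow_succ' r N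
  have hm1 := mean_le (N := N) hr hR.le
  have hm2 := le_mean (N := N) hr hR.le
  obtain ⟨t, ht'⟩ : ∃ t, t = r ^ N := ⟨_, rfl⟩
  obtain ⟨A, hA'⟩ : ∃ A, A = R ^ N := ⟨_, rfl⟩
  obtain ⟨b, hb'⟩ : ∃ b, b = r' ^ N := ⟨_, rfl⟩
  obtain ⟨B, hB'⟩ : ∃ B, B = R' ^ N := ⟨_, rfl⟩
  have hAt : 0 < A - t := by rw [ht', hA']; linarith
  have hBb : 0 < B - b := by rw [hb', hB']; linarith
  obtain ⟨K, hK⟩ : ∃ K, K = (B - b) / (A - t) := ⟨_, rfl⟩
  have hK0 : 0 < K := by rw [hK]; positivity
  -- the primitive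
  obtain ⟨z, hz⟩ : ∃ z : ℝ → ℝ, z = fun x => b + (x ^ N - t) * K := ⟨_, rfl⟩
  obtain ⟨P, hP⟩ : ∃ P : ℝ → ℝ, P = fun x =>
      (Real.log κ - 1) * ((N : ℝ) / (N + 1) * x ^ (N + 1)) +
        (N : ℝ) / (N + 1) * z x ^ (((N : ℝ) + 1) / N) / κ -
      (Real.log K * ((N : ℝ) / (N + 1) * x ^ (N + 1)) +
        (t * Real.log (b / t) * ((A * x - x ^ (N + 1) / (N + 1)) / (A - t)) +
          A * Real.log (B / A) * ((x ^ (N + 1) / (N + 1) - t * x) / (A - t)))) := ⟨_, rfl⟩
  have hzd : ∀ x, HasDerivAt z (N * x ^ (N - 1) * K) x := by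
    intro x
    rw [hz]
    exact (((hasDerivAt_pow N x).sub_const t).mul_const K).const_add b
  have hN1 : ((N : ℝ) + 1) ≠ 0 := by positivity
  have hPd : ∀ x, HasDerivAt P (N * x ^ N * (Real.log κ - 1) +
        N * K * z x ^ (1 / (N : ℝ)) * x ^ (N - 1) / κ -
      (N * x ^ N * Real.log K + ((A - x ^ N) / (A - t) * (t * Real.log (b / t)) +
          (x ^ N - t) / (A - t) * (A * Real.log (B / A))))) x := by
    intro x
    have hp : HasDerivAt (fun x : ℝ => x ^ (N + 1)) (((N + 1 : ℕ) : ℝ) * x ^ N) x :=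
      hasDerivAt_pow (N + 1) x
    have hzp : HasDerivAt (fun x => z x ^ (((N : ℝ) + 1) / N))
        (N * x ^ (N - 1) * K * (((N : ℝ) + 1) / N) * z x ^ (((N : ℝ) + 1) / N - 1)) x :=
      (hzd x).rpow_const (Or.inr (by rw [le_div_iff₀ hN0]; linarith))
    have e1 : ((N : ℝ) + 1) / N - 1 = 1 / N := by field_simp; ring
    rw [e1] at hzp
    have d1 := (hp.const_mul ((N : ℝ) / (N + 1))).const_mul (Real.log κ - 1)
    have d2 := (hzp.const_mul ((N : ℝ) / (N + 1))).div_const κ
    have d3 := (hp.const_mul ((N : ℝ) / (N + 1))).const_mul (Real.log K)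
    have d4 := ((((hasDerivAt_id x).const_mul A).sub (hp.div_const ((N:ℝ) + 1))).div_const
      (A - t)).const_mul (t * Real.log (b / t))
    have d5 := (((hp.div_const ((N:ℝ) + 1)).sub ((hasDerivAt_id x).const_mul t)).div_const
      (A - t)).const_mul (A * Real.log (B / A))
    have d6 := (d1.add d2).sub (d3.add (d4.add d5))
    rw [hP]
    refine d6.congr_deriv ?_
    push_cast
    field_simp
  have hmono : MonotoneOn P (Icc r R) := by
    apply monotoneOn_of_deriv_nonneg (convex_Icc r R)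
    · exact fun x _ => (hPd x).continuousAt.continuousWithinAt
    · exact fun x _ => (hPd x).differentiableAt.differentiableWithinAt
    · intro x hx
      rw [interior_Icc] at hx
      rw [(hPd x).deriv]
      have hx0 : 0 < x := lt_of_le_of_lt hr hx.1
      have h3 := Fru_point (N := N) hN (t := t) (A := A) (b := b) (B := B) (x := x) (κ := κ)
        (by rw [ht']; exact ht) (by rw [hb']; exact hb) (by rw [ht', hb']; exact h00)
        (by linarith) (by linarith) hx0 (by rw [ht']; exact pow_lt_pow_left₀ hx.1 hr hNne)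
        (by rw [hA']; exact pow_lt_pow_left₀ hx.2 hx0.le hNne) hκ
      rw [← hK] at h3
      have e2 : z x = b + (x ^ N - t) * K := by rw [hz]
      rw [e2]
      linarith
  have hPle := hmono (left_mem_Icc.2 hR.le) (right_mem_Icc.2 hR.le) hR.le
  have ezR : z R = B := by
    rw [hz]
    show b + (R ^ N - t) * K = B
    rw [← hA', hK]
    field_simp
    ring
  have ezr : z r = b := by
    rw [hz]
    show b + (r ^ N - t) * K = b
    rw [← ht']
    ring
  have hpow : ∀ x : ℝ, 0 ≤ x → (x ^ N) ^ (((N : ℝ) + 1) / N) = x ^ (N + 1) := by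
    intro x hx
    rw [← Real.rpow_natCast x N, ← Real.rpow_mul hx]
    have : (N : ℝ) * (((N : ℝ) + 1) / N) = ((N + 1 : ℕ) : ℝ) := by
      push_cast
      field_simp
    rw [this, Real.rpow_natCast]
  rw [hP] at hPle
  simp only [ezR, ezr] at hPle
  rw [hb', hB', hpow r' hr', hpow R' hR0'.le, ← hb', ← hB'] at hPle
  -- the mean
  obtain ⟨W, hW⟩ : ∃ W, W = (N : ℝ) / (N + 1) * (R ^ (N + 1) - r ^ (N + 1)) := ⟨_, rfl⟩
  rw [← hW, ← ht', ← hA'] at hm1 hm2
  obtain ⟨m, hm⟩ : ∃ m, m = W / (A - t) := ⟨_, rfl⟩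
  have hmW : m * (A - t) = W := by rw [hm]; field_simp
  have hmr : r ≤ m := by rw [hm, le_div_iff₀ hAt]; linarith
  have hm0 : 0 ≤ m := hr.trans hmr
  have hcc : cc N R r = R - m := by
    unfold cc
    rw [← hW, ← ht', ← hA', hm]
    field_simp
  have hvv : N * vv N R r = W := by
    unfold vv
    rw [hW]
    ring
  have e3 : (A * R - R ^ (N + 1) / (N + 1)) / (A - t) - (A * r - r ^ (N + 1) / (N + 1)) / (A - t) =
      m - r := by
    rw [hm, hW, eR, er, ← ht', ← hA']
    field_simp
    ring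
  have e4 : (R ^ (N + 1) / (N + 1) - t * R) / (A - t) - (r ^ (N + 1) / (N + 1) - t * r) / (A - t) =
      R - m := by
    rw [hm, hW, eR, er, ← ht', ← hA']
    field_simp
    ring
  have hZ : m * (A - t) * Real.log K + ((m - r) * (t * Real.log (b / t)) +
      (R - m) * (A * Real.log (B / A))) ≤ W * (Real.log κ - 1) + N * vv N R' r' / κ := by
    have e5 : N * vv N R' r' / κ = (N : ℝ) / (N + 1) * R' ^ (N + 1) / κ -
        (N : ℝ) / (N + 1) * r' ^ (N + 1) / κ := by
      unfold vv
      ring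
    rw [e5, hmW, ← e3, ← e4]
    have e6 : W = (N : ℝ) / (N + 1) * R ^ (N + 1) - (N : ℝ) / (N + 1) * r ^ (N + 1) := by
      rw [hW]; ring
    rw [e6]
    linarith
  -- conclusion
  rw [← ht', ← hb'] at h1
  rw [← ht', ← hb', ← hA', ← hB', ← hK] at h2
  rw [← hA', ← hB', hcc]
  have h5 : (m - r) * L1 ≤ (m - r) * (t * Real.log (b / t)) :=
    mul_le_mul_of_nonneg_left h1 (by linarith)
  have h6 : m * L2 ≤ m * ((A - t) * Real.log K) := mul_le_mul_of_nonneg_left h2 hm0
  have e7 : N * (vv N R r * Real.log κ + vv N R' r' / κ - vv N R r) =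
      (N * vv N R r) * (Real.log κ - 1) + N * vv N R' r' / κ := by ring
  rw [e7, hvv]
  linarith

end Pool.Agent.MP9dd972R
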