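import Mathlib
import Pool.Agent.Lib.MP_9dd972_gt_R.Defs

/-!
# MP_9dd972_gt, bodies with homothetic sections: the inequality of Jensen for the logarithm
-/

set_option autoImplicit false

namespace Pool.Agent.MP9dd972R

open MeasureTheory Set Metric Pool.Agent.MP9dd972N
open scoped ENNReal NNReal Topology Pointwise

theorem jensen_log {α : Measure ℝ} [IsFiniteMeasure α] {β : ℝ → ℝ} (hβ : Measurable β) {m M : ℝ}
    (hm : 0 < m) (hb : ∀ᵐ s ∂α, m ≤ β s ∧ β s ≤ M) {E : Set ℝ} (hE : MeasurableSet E) :
    ∫ s in E, Real.log (β s) ∂α ≤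
      (α E).toReal * Real.log ((∫ s in E, β s ∂α) / (α E).toReal) := by
  rcases eq_or_ne (α E) 0 with h0 | h0
  · rw [Measure.restrict_eq_zero.2 h0, h0]
    simp
  set a : ℝ := (α E).toReal with ha
  have ha0 : 0 < a := ENNReal.toReal_pos h0 (measure_ne_top α E)
  have hb' : ∀ᵐ s ∂(α.restrict E), m ≤ β s ∧ β s ≤ M := ae_restrict_of_ae hb
  have hint : Integrable β (α.restrict E) := by
    refine Integrable.of_bound hβ.aestronglyMeasurable M ?_
    filter_upwards [hb'] with s hs
    rw [Real.norm_eq_abs, abs_of_nonneg (hm.le.trans hs.1)]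
    exact hs.2
  have hintl : Integrable (fun s => Real.log (β s)) (α.restrict E) := by
    refine Integrable.of_bound (Real.measurable_log.comp hβ).aestronglyMeasurable
      (|Real.log m| + |Real.log M|) ?_
    filter_upwards [hb'] with s hs
    have h1 : Real.log m ≤ Real.log (β s) := Real.log_le_log hm hs.1
    have h2 : Real.log (β s) ≤ Real.log M := Real.log_le_log (hm.trans_le hs.1) hs.2
    have h3 := neg_abs_le (Real.log m)
    have h4 := le_abs_self (Real.log M)
    have h5 := abs_nonneg (Real.log m)
    have h6 := abs_nonneg (Real.log M)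
    rw [Real.norm_eq_abs, abs_le]
    constructor <;> linarith
  have hreal : (α.restrict E).real univ = a := by
    rw [measureReal_def, Measure.restrict_apply_univ]
  have hlow : m * a ≤ ∫ s in E, β s ∂α := by
    have h1 : ∫ _ in E, m ∂α ≤ ∫ s in E, β s ∂α := by
      refine integral_mono_ae (integrable_const m) hint ?_
      filter_upwards [hb'] with s hs
      exact hs.1
    rw [integral_const, hreal, smul_eq_mul, mul_comm] at h1
    exact h1
  set k : ℝ := (∫ s in E, β s ∂α) / a with hk
  have hk0 : 0 < k := by
    refine div_pos (lt_of_lt_of_le (mul_pos hm ha0) hlow) ha0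
  have hka : ∫ s in E, β s ∂α = k * a := by
    rw [hk, div_mul_cancel₀ _ ha0.ne']
  have hle : ∫ s in E, Real.log (β s) ∂α ≤ ∫ s in E, ((Real.log k - 1) + β s / k) ∂α := by
    refine integral_mono_ae hintl ((integrable_const _).add (hint.div_const k)) ?_
    filter_upwards [hb'] with s hs
    have hβ0 : 0 < β s := hm.trans_le hs.1
    have h1 := Real.log_le_sub_one_of_pos (div_pos hβ0 hk0)
    rw [Real.log_div hβ0.ne' hk0.ne'] at h1
    change Real.log (β s) ≤ Real.log k - 1 + β s / k
    linarith
  refine hle.trans (le_of_eq ?_)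
  rw [integral_add (integrable_const _) (hint.div_const k), integral_const, hreal,
    integral_div, hka, smul_eq_mul]
  field_simp
  ring

end Pool.Agent.MP9dd972R
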