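import Mathlib
import Pool.Agent.Lib.MP_9dd972_gt_R.Defs
import Pool.Agent.Lib.MP_9dd972_gt_R.Ccv
import Pool.Agent.Lib.MP_9dd972_gt_R.Fru
import Pool.Agent.Lib.MP_9dd972_gt_R.Jns
import Pool.Agent.Lib.MP_9dd972_gt_R.Fub
import Pool.Agent.Lib.MP_9dd972_gt_R.Itg

/-!
# MP_9dd972_gt, bodies with homothetic sections: the inequality for one side
-/

set_option autoImplicit false

namespace Pool.Agent.MP9dd972R

open MeasureTheory Set Metric Pool.Agent.MP9dd972N
open scoped ENNReal NNReal Topology Pointwise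

private theorem sid_finite {N : ℕ} {R ξ : ℝ} {ρ H : ℝ → ℝ} {α : Measure ℝ}
    (S : Side N R ξ ρ H α) : IsFiniteMeasure α :=
  ⟨by rw [S.tot]; exact ENNReal.ofReal_lt_top⟩

private theorem sid_tz {α : Measure ℝ} [IsFiniteMeasure α] {E : Set ℝ} :
    (α E).toReal = 0 ↔ α E = 0 :=
  measureReal_eq_zero_iff (measure_ne_top α E)

private theorem sid_univ {N : ℕ} {R ξ : ℝ} {ρ H : ℝ → ℝ} {α : Measure ℝ}
    (S : Side N R ξ ρ H α) : (α univ).toReal = R ^ N := by
  rw [S.tot, ENNReal.toReal_ofReal (pow_nonneg S.R_pos.le N)]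

private theorem sid_Iic {N : ℕ} {R ξ : ℝ} {ρ H : ℝ → ℝ} {α : Measure ℝ}
    (S : Side N R ξ ρ H α) {s : ℝ} (hs : 0 ≤ s) : (α (Iic s)).toReal = ρ s ^ N := by
  rw [S.mass s hs, ENNReal.toReal_ofReal (pow_nonneg (S.nn s) N)]

private theorem sid_Ioi {N : ℕ} {R ξ : ℝ} {ρ H : ℝ → ℝ} {α : Measure ℝ}
    (S : Side N R ξ ρ H α) {s : ℝ} (hs : 0 ≤ s) : (α (Ioi s)).toReal = R ^ N - ρ s ^ N := by
  have := sid_finite S
  have h1 : α.real (Iic s) + α.real (Iic s)ᶜ = α.real univ :=
    measureReal_add_measureReal_compl measurableSet_Iic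
  rw [compl_Iic] at h1
  have h2 : α.real (Iic s) = ρ s ^ N := sid_Iic S hs
  have h3 : α.real univ = R ^ N := sid_univ S
  have h4 : (α (Ioi s)).toReal = α.real (Ioi s) := rfl
  rw [h4]
  linarith

private theorem sid_dens {α α' : Measure ℝ} {β : ℝ → ℝ} (hβ : Measurable β) (h0 : ∀ s, 0 ≤ β s)
    (hα : α' = α.withDensity fun s => ENNReal.ofReal (β s)) {E : Set ℝ} (hE : MeasurableSet E) :
    ∫ s in E, β s ∂α = (α' E).toReal := by
  rw [hα, withDensity_apply _ hE, integral_eq_lintegral_of_nonneg_ae]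
  · exact Filter.Eventually.of_forall h0
  · exact hβ.aestronglyMeasurable

private theorem sid_zero {α α' : Measure ℝ} {β : ℝ → ℝ} (hβ : Measurable β) (h0 : ∀ s, 0 < β s)
    (hα : α' = α.withDensity fun s => ENNReal.ofReal (β s)) (E : Set ℝ) :
    α E = 0 ↔ α' E = 0 := by
  constructor
  · intro h
    rw [hα]
    exact withDensity_absolutelyContinuous α _ h
  · intro h
    rw [hα] at h
    have h1 : α ≪ α.withDensity fun s => ENNReal.ofReal (β s) :=
      withDensity_absolutelyContinuous' (hβ.ennreal_ofReal).aemeasurable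
        (Filter.Eventually.of_forall fun s => by
          simp only [ne_eq, ENNReal.ofReal_eq_zero, not_le]
          exact h0 s)
    exact h1 h

theorem side_ineq {N : ℕ} (hN : 1 ≤ N) {R ξ R' ξ' : ℝ} {ρ H ρ' H' : ℝ → ℝ} {α α' : Measure ℝ}
    (S : Side N R ξ ρ H α) (S' : Side N R' ξ' ρ' H' α') {β : ℝ → ℝ} (hβ : Measurable β)
    {m M : ℝ} (hm : 0 < m) (hb : ∀ s, m ≤ β s ∧ β s ≤ M)
    (hα : α' = α.withDensity fun s => ENNReal.ofReal (β s))
    (hc : 0 ≤ ξ + ∫ s in Ioi (0 : ℝ), cc N R (ρ s)) {κ : ℝ} (hκ : 0 < κ) :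
    ∫ s, Real.log (β s) * H s ∂α ≤
      N * ((∫ s in Ioi (0 : ℝ), vv N R (ρ s)) * Real.log κ +
        (∫ s in Ioi (0 : ℝ), vv N R' (ρ' s)) / κ - ∫ s in Ioi (0 : ℝ), vv N R (ρ s)) +
      R ^ N * ξ * Real.log (R' ^ N / R ^ N) := by
  have := sid_finite S
  have := sid_finite S'
  have hβ0 : ∀ s, 0 < β s := fun s => hm.trans_le (hb s).1
  have hlm : Measurable fun s => Real.log (β s) := Real.measurable_log.comp hβ
  obtain ⟨G, hG⟩ : ∃ G : ℝ, ∀ s, |Real.log (β s)| ≤ G := by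
    refine ⟨max |Real.log m| |Real.log M|, fun s => ?_⟩
    have h1 : Real.log m ≤ Real.log (β s) := Real.log_le_log hm (hb s).1
    have h2 : Real.log (β s) ≤ Real.log M := Real.log_le_log (hβ0 s) (hb s).2
    exact abs_le_max_abs_abs h1 h2
  have hint : Integrable (fun s => Real.log (β s)) α := by
    refine Integrable.mono' (integrable_const G) hlm.aestronglyMeasurable ?_
    exact Filter.Eventually.of_forall fun s => hG s
  obtain ⟨hI, hF⟩ := fubini_side S hlm (Filter.Eventually.of_forall hG)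
  obtain ⟨L, hL⟩ : ∃ L : ℝ, L = ∫ t, Real.log (β t) ∂α := ⟨_, rfl⟩
  obtain ⟨LL, hLL⟩ : ∃ LL : ℝ → ℝ, ∀ s, LL s = ∫ t in Iic s, Real.log (β t) ∂α :=
    ⟨_, fun _ => rfl⟩
  obtain ⟨J, hJ⟩ : ∃ J : ℝ, J = R ^ N * Real.log (R' ^ N / R ^ N) - L := ⟨_, rfl⟩
  rw [← hL] at hI hF
  simp only [← hLL] at hI hF
  have hbae : ∀ᵐ s ∂α, m ≤ β s ∧ β s ≤ M := Filter.Eventually.of_forall hb
  have hJ0 : 0 ≤ J := by
    have h1 := jensen_log hβ hm hbae (E := univ) MeasurableSet.univ
    rw [sid_dens hβ (fun s => (hβ0 s).le) hα MeasurableSet.univ, sid_univ S, sid_univ S',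
      Measure.restrict_univ, ← hL] at h1
    rw [hJ]; linarith
  -- the pointwise inequality
  have hpt : ∀ s ∈ Ioi (0 : ℝ), (R * L - ρ s * LL s) + cc N R (ρ s) * J ≤
      N * (vv N R (ρ s) * Real.log κ + vv N R' (ρ' s) / κ - vv N R (ρ s)) := by
    intro s hs
    have hs0 : 0 ≤ s := le_of_lt hs
    have e1 : LL s ≤ ρ s ^ N * Real.log (ρ' s ^ N / ρ s ^ N) := by
      have h1 := jensen_log hβ hm hbae (E := Iic s) measurableSet_Iic
      rwa [sid_dens hβ (fun s => (hβ0 s).le) hα measurableSet_Iic, sid_Iic S hs0, sid_Iic S' hs0,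
        ← hLL] at h1
    have e2 : L - LL s = ∫ t in Ioi s, Real.log (β t) ∂α := by
      have h1 := integral_add_compl (μ := α) (s := Iic s) measurableSet_Iic hint
      rw [compl_Iic, ← hLL, ← hL] at h1
      linarith
    have e3 : L - LL s ≤ (R ^ N - ρ s ^ N) *
        Real.log ((R' ^ N - ρ' s ^ N) / (R ^ N - ρ s ^ N)) := by
      have h1 := jensen_log hβ hm hbae (E := Ioi s) measurableSet_Ioi
      rwa [sid_dens hβ (fun s => (hβ0 s).le) hα measurableSet_Ioi, sid_Ioi S hs0, sid_Ioi S' hs0,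
        ← e2] at h1
    have hN0 : N ≠ 0 := by omega
    have z1 : ρ s = 0 ↔ ρ' s = 0 := by
      have h1 := sid_zero hβ hβ0 hα (Iic s)
      rw [S.mass s hs0, S'.mass s hs0, ENNReal.ofReal_eq_zero, ENNReal.ofReal_eq_zero] at h1
      have h2 : ρ s ^ N ≤ 0 ↔ ρ s = 0 := by
        constructor
        · intro h
          exact pow_eq_zero_iff hN0 |>.mp (le_antisymm h (pow_nonneg (S.nn s) N))
        · intro h
          rw [h, zero_pow hN0]
      have h3 : ρ' s ^ N ≤ 0 ↔ ρ' s = 0 := by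
        constructor
        · intro h
          exact pow_eq_zero_iff hN0 |>.mp (le_antisymm h (pow_nonneg (S'.nn s) N))
        · intro h
          rw [h, zero_pow hN0]
      rwa [h2, h3] at h1
    have z2 : ρ s = R ↔ ρ' s = R' := by
      have h1 := sid_zero hβ hβ0 hα (Ioi s)
      have h2 : α (Ioi s) = 0 ↔ ρ s = R := by
        rw [← sid_tz, sid_Ioi S hs0]
        constructor
        · intro h
          exact (pow_left_inj₀ (S.nn s) S.R_pos.le hN0).mp (by linarith)
        · intro h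
          rw [h, sub_self]
      have h3 : α' (Ioi s) = 0 ↔ ρ' s = R' := by
        rw [← sid_tz, sid_Ioi S' hs0]
        constructor
        · intro h
          exact (pow_left_inj₀ (S'.nn s) S'.R_pos.le hN0).mp (by linarith)
        · intro h
          rw [h, sub_self]
      rwa [h2, h3] at h1
    rcases (S.le s).lt_or_eq with hlt | heq
    · have hlt' : ρ' s < R' := lt_of_le_of_ne (S'.le s) fun h => hlt.ne (z2.mpr h)
      have h1 := frustum hN (S.nn s) hlt (S'.nn s) hlt' z1 hκ e1 e3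
      have h2 : LL s + (L - LL s) = L := by ring
      rw [h2] at h1
      rw [hJ]
      exact h1
    · have h1 := z2.mp heq
      have h2 : α (Ioi s) = 0 := by
        have h3 := sid_Ioi S hs0
        rw [heq, sub_self] at h3
        exact sid_tz.mp h3
      have h3 : L - LL s = 0 := by
        rw [e2, Measure.restrict_eq_zero.mpr h2, integral_zero_measure]
      have h4 : LL s = L := by linarith
      rw [heq, h1, h4, cc_self]
      unfold vv
      simp
  have hcc := int_cc (N := N) S.mono S.nn S.le S.int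
  have hvv := int_vv (N := N) S.mono S.nn S.le S.int
  have hvv' := int_vv (N := N) S'.mono S'.nn S'.le S'.int
  have hmono := setIntegral_mono_on (hI.add (hcc.mul_const J))
    (((hvv.mul_const (Real.log κ)).add (hvv'.div_const κ)).sub hvv |>.const_mul (N : ℝ))
    measurableSet_Ioi hpt
  have i1 : ∫ s in Ioi (0 : ℝ), ((fun s => R * L - ρ s * LL s) + fun s => cc N R (ρ s) * J) s =
      (∫ s in Ioi (0 : ℝ), (R * L - ρ s * LL s)) + (∫ s in Ioi (0 : ℝ), cc N R (ρ s)) * J := by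
    rw [← integral_mul_const, ← integral_add hI (hcc.mul_const J)]
    rfl
  have i2 : ∫ s in Ioi (0 : ℝ), (N : ℝ) *
      (((fun s => vv N R (ρ s) * Real.log κ) + fun s => vv N R' (ρ' s) / κ) -
        fun s => vv N R (ρ s)) s =
      N * ((∫ s in Ioi (0 : ℝ), vv N R (ρ s)) * Real.log κ +
        (∫ s in Ioi (0 : ℝ), vv N R' (ρ' s)) / κ - ∫ s in Ioi (0 : ℝ), vv N R (ρ s)) := by
    have a1 : ∫ s in Ioi (0 : ℝ), (vv N R (ρ s) * Real.log κ + vv N R' (ρ' s) / κ) =
        (∫ s in Ioi (0 : ℝ), vv N R (ρ s)) * Real.log κ +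
          (∫ s in Ioi (0 : ℝ), vv N R' (ρ' s)) / κ := by
      rw [← integral_mul_const, ← integral_div]
      exact integral_add (hvv.mul_const (Real.log κ)) (hvv'.div_const κ)
    have a2 : ∫ s in Ioi (0 : ℝ), ((vv N R (ρ s) * Real.log κ + vv N R' (ρ' s) / κ) -
        vv N R (ρ s)) = (∫ s in Ioi (0 : ℝ), (vv N R (ρ s) * Real.log κ + vv N R' (ρ' s) / κ)) -
        ∫ s in Ioi (0 : ℝ), vv N R (ρ s) :=
      integral_sub ((hvv.mul_const (Real.log κ)).add (hvv'.div_const κ)) hvv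
    rw [← a1, ← a2, ← integral_const_mul]
    rfl
  rw [i1, i2] at hmono
  rw [hF]
  have hfin : ξ * L + (∫ s in Ioi (0 : ℝ), cc N R (ρ s)) * (-J) ≤
      R ^ N * ξ * Real.log (R' ^ N / R ^ N) := by
    have h5 : L = R ^ N * Real.log (R' ^ N / R ^ N) - J := by rw [hJ]; ring
    have h6 : R ^ N * ξ * Real.log (R' ^ N / R ^ N) -
        (ξ * L + (∫ s in Ioi (0 : ℝ), cc N R (ρ s)) * (-J)) =
        (ξ + ∫ s in Ioi (0 : ℝ), cc N R (ρ s)) * J := by
      rw [h5]; ring
    have h7 := mul_nonneg hc hJ0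
    linarith
  linarith

end Pool.Agent.MP9dd972R
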