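import Mathlib
import Pool.Agent.Lib.MP_9dd972_gt_R.Defs
import Pool.Agent.Lib.MP_9dd972_gt_R.Ccv
import Pool.Agent.Lib.MP_9dd972_gt_R.Itg
import Pool.Agent.Lib.MP_9dd972_gt_R.Sid
import Pool.Agent.Lib.MP_9dd972_gt_R.Sde
import Pool.Agent.Lib.MP_9dd972_gt_R.Vlm
import Pool.Agent.Lib.MP_9dd972_gt_R.Flt
import Pool.Agent.Lib.MP_9dd972_gt_R.Ctr
import Pool.Agent.Lib.MP_9dd972_gt_R.Hyl
import Pool.Agent.Lib.MP_9dd972_gt_R.Lgi
import Pool.Agent.Lib.MP_9dd972_gt_R.Cap
import Pool.Agent.Lib.MP_9dd972_gt_R.Hqa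

/-!
# MP_9dd972_gt, bodies with homothetic sections: the dual inequality
-/

set_option autoImplicit false

namespace Pool.Agent.MP9dd972R

open MeasureTheory Set Metric Pool.Agent.MP9dd972N
open scoped ENNReal NNReal Topology Pointwise

variable {N : ℕ} {Q : Set (EE N)} {K : Set (EE (N + 1))}

private theorem vol_pos {K : Set (EE (N + 1))} (hK : Body K) : 0 < (volume K).toReal := by
  refine ENNReal.toReal_pos ?_ hK.comp.measure_lt_top.ne
  have h1 : 0 < volume (interior K) := isOpen_interior.measure_pos volume ⟨0, hK.zero⟩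
  exact (h1.trans_le (measure_mono interior_subset)).ne'

/-- the flat part -/
private theorem flat_ineq {N : ℕ} (hN : 1 ≤ N) {R R' l l' p κ : ℝ} (hR : 0 < R) (hR' : 0 < R')
    (hκ : 0 < κ) (hl : 0 ≤ l)
    (h : R ^ N * l * R ^ (-p) = R' ^ N * l' * R' ^ (-p)) :
    N * (R ^ N * l * ((1 - p) * Real.log (R / R'))) ≤
      N * (R ^ N * l * Real.log κ + R' ^ N * l' / κ - R ^ N * l) -
        R ^ N * l * Real.log (R' ^ N / R ^ N) := by
  have hRp : 0 < R ^ (-p) := Real.rpow_pos_of_pos hR _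
  have hRp' : 0 < R' ^ (-p) := Real.rpow_pos_of_pos hR' _
  have hA : 0 < R ^ N := pow_pos hR N
  have hB : 0 < R' ^ N := pow_pos hR' N
  have hN0 : (0 : ℝ) < N := by exact_mod_cast hN
  rcases hl.eq_or_lt with h0 | h0
  · rw [← h0] at h ⊢
    have h1 : R' ^ N * l' * R' ^ (-p) = 0 := by rw [← h]; ring
    have h2 : R' ^ N * l' = 0 := by
      rcases mul_eq_zero.1 h1 with h3 | h3
      · exact h3
      · exact absurd h3 hRp'.ne'
    rw [h2]
    simp
  · set y : ℝ := R' ^ N * l' / (R ^ N * l) with hy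
    have hAl : 0 < R ^ N * l := mul_pos hA h0
    have hyp : y = R ^ (-p) / R' ^ (-p) := by
      rw [hy, div_eq_div_iff hAl.ne' hRp'.ne']
      linarith
    have hy0 : 0 < y := by rw [hyp]; positivity
    have hlog : Real.log y = -p * Real.log R + p * Real.log R' := by
      rw [hyp, Real.log_div hRp.ne' hRp'.ne', Real.log_rpow hR, Real.log_rpow hR']
      ring
    have h1 : Real.log y ≤ Real.log κ + y / κ - 1 := by
      have h2 := Real.log_le_sub_one_of_pos (div_pos hy0 hκ)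
      rw [Real.log_div hy0.ne' hκ.ne'] at h2
      linarith
    have h3 : Real.log (R' ^ N / R ^ N) = N * Real.log R' - N * Real.log R := by
      rw [Real.log_div hB.ne' hA.ne', Real.log_pow, Real.log_pow]
    have h4 : Real.log (R / R') = Real.log R - Real.log R' := Real.log_div hR.ne' hR'.ne'
    have h5 : R' ^ N * l' = R ^ N * l * y := by
      rw [hy]
      field_simp
    rw [h3, h4, h5]
    have h6 : N * (R ^ N * l) * Real.log y ≤ N * (R ^ N * l) * (Real.log κ + y / κ - 1) :=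
      mul_le_mul_of_nonneg_left h1 (by positivity)
    rw [hlog] at h6
    have h7 : R ^ N * l * y / κ = R ^ N * l * (y / κ) := by ring
    rw [h7]
    nlinarith [h6]

/-- The dual inequality. -/
theorem dual (hN : 1 ≤ N) (hQ : Body Q) {C : Set (EE (N + 1))} (hK : Body K)
    (hC : Body C) (hKR : Rev Q K) (hCR : Rev Q C) {p : ℝ} (hp : 0 < p) (hp1 : p < 1)
    (hc : ∫ x in K, x 0 = (0 : ℝ)) (hyp : Hyp p K C) :
    (N + 1) * ((1 - p) * ∫ x in K, -Real.log (hh C (NN K x))) ≤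
      N * (volume K).toReal * Real.log ((volume C).toReal / (volume K).toReal) := by
  have hVK := vol_pos hK
  have hVC := vol_pos hC
  have eK := vol_eq hN hQ hK hKR
  have eC := vol_eq hN hQ hC hCR
  have hc0 := cQ_pos hQ
  have hR : 0 < RR Q K := RR_pos hN hQ hK
  have hR' : 0 < RR Q C := RR_pos hN hQ hC
  have hl : 0 ≤ xi Q 1 K + xi Q (-1) K := xi_add hN hQ hK
  have fl := flat_dens hN hQ hK hC hKR hCR hp hyp
  rw [flat_vol hN hQ hK hKR, flat_vol hN hQ hC hCR] at fl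
  have hlog := log_int hN hQ hK hC hKR hCR p
  rw [flat_vol hN hQ hK hKR] at hlog
  set κ : ℝ := (volume C).toReal / (volume K).toReal with hκd
  have hκ : 0 < κ := div_pos hVC hVK
  have s1 : ∀ ε : ℝ, (ε = 1 ∨ ε = -1) →
      ∫ s, Real.log (be Q ε p K C s) * HH Q K ε s ∂(al Q ε K) ≤
      N * ((∫ s in Ioi (0 : ℝ), vv N (RR Q K) (rh Q ε K s)) * Real.log κ +
        (∫ s in Ioi (0 : ℝ), vv N (RR Q C) (rh Q ε C s)) / κ -
          ∫ s in Ioi (0 : ℝ), vv N (RR Q K) (rh Q ε K s)) +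
      RR Q K ^ N * xi Q ε K * Real.log (RR Q C ^ N / RR Q K ^ N) := by
    intro ε hε
    obtain ⟨m, M, hm, hb⟩ := be_bound hQ hK hC hε p
    exact side_ineq hN (side_K hN hQ hK hKR hε) (side_K hN hQ hC hCR hε)
      (be_meas hQ hK hC ε p) hm hb (al_dens hN hQ hK hC hKR hCR hyp hε)
      (cent_side hN hQ hK hKR hc hε) hκ
  have a1 := s1 1 (Or.inl rfl)
  have a2 := s1 (-1) (Or.inr rfl)
  set R := RR Q K
  set R' := RR Q C
  set l := xi Q 1 K + xi Q (-1) K with hld
  set l' := xi Q 1 C + xi Q (-1) C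
  set v1 := ∫ s in Ioi (0 : ℝ), vv N R (rh Q 1 K s)
  set v2 := ∫ s in Ioi (0 : ℝ), vv N R (rh Q (-1) K s)
  set w1 := ∫ s in Ioi (0 : ℝ), vv N R' (rh Q 1 C s)
  set w2 := ∫ s in Ioi (0 : ℝ), vv N R' (rh Q (-1) C s)
  set I1 := ∫ s, Real.log (be Q 1 p K C s) * HH Q K 1 s ∂(al Q 1 K)
  set I2 := ∫ s, Real.log (be Q (-1) p K C s) * HH Q K (-1) s ∂(al Q (-1) K)
  set c := cQ Q
  set VK := (volume K).toReal
  set VC := (volume C).toReal
  have hN0 : (0 : ℝ) < N := by exact_mod_cast hN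
  have hfl : R ^ N * l * R ^ (-p) = R' ^ N * l' * R' ^ (-p) := by
    have h1 : (N * c) * (R ^ N * l * R ^ (-p)) = (N * c) * (R' ^ N * l' * R' ^ (-p)) := by
      linarith
    exact mul_left_cancel₀ (by positivity) h1
  have a3 := flat_ineq hN hR hR' hκ hl hfl
  have hn1 : (0 : ℝ) < (N + 1) * c := by positivity
  have key : I1 + I2 + N * (R ^ N * l * ((1 - p) * Real.log (R / R'))) ≤
      N * (R ^ N * l + v1 + v2) * Real.log κ + N * ((R' ^ N * l' + w1 + w2) / κ) -
        N * (R ^ N * l + v1 + v2) := by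
    have h1 : R ^ N * xi Q 1 K * Real.log (R' ^ N / R ^ N) +
        R ^ N * xi Q (-1) K * Real.log (R' ^ N / R ^ N) =
          R ^ N * l * Real.log (R' ^ N / R ^ N) := by
      rw [hld]
      ring
    have h2 : (R' ^ N * l' + w1 + w2) / κ = R' ^ N * l' / κ + w1 / κ + w2 / κ := by ring
    rw [h2]
    linarith
  have h3 : (N + 1) * ((1 - p) * ∫ x in K, -Real.log (hh C (NN K x))) =
      ((N + 1) * c) * (I1 + I2 + N * (R ^ N * l * ((1 - p) * Real.log (R / R')))) := by
    rw [hlog]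
    ring
  rw [h3]
  refine (mul_le_mul_of_nonneg_left key hn1.le).trans (le_of_eq ?_)
  have h4 : ((N + 1) * c) * (N * ((R' ^ N * l' + w1 + w2) / κ)) = N * VK := by
    have h5 : ((N + 1) * c) * (N * ((R' ^ N * l' + w1 + w2) / κ)) = N * (VC / κ) := by
      rw [eC]
      ring
    rw [h5, hκd]
    field_simp
  have h6 : ((N + 1) * c) * (N * (R ^ N * l + v1 + v2) * Real.log κ) =
      N * VK * Real.log κ := by
    rw [eK]
    ring
  have h7 : ((N + 1) * c) * (N * (R ^ N * l + v1 + v2)) = N * VK := by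
    rw [eK]
    ring
  calc ((N + 1) * c) * (N * (R ^ N * l + v1 + v2) * Real.log κ +
        N * ((R' ^ N * l' + w1 + w2) / κ) - N * (R ^ N * l + v1 + v2))
      = ((N + 1) * c) * (N * (R ^ N * l + v1 + v2) * Real.log κ) +
        ((N + 1) * c) * (N * ((R' ^ N * l' + w1 + w2) / κ)) -
        ((N + 1) * c) * (N * (R ^ N * l + v1 + v2)) := by ring
    _ = N * VK * Real.log κ := by rw [h4, h6, h7]; ring

end Pool.Agent.MP9dd972R
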