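import Mathlib
import Pool.Agent.Lib.MP_9dd972_gt.N.Gauge
import Pool.Agent.Lib.MP_9dd972_gt.N.Lininv
import Pool.Agent.Lib.MP_9dd972_gt.N.Hypof
import Pool.Agent.Lib.MP_9dd972_gt_R.Defs

/-!
# MP_9dd972_gt, bodies with homothetic sections: the L_p surface area measure of a symmetric body
-/

set_option autoImplicit false

namespace Pool.Agent.MP9dd972R

open MeasureTheory Set Metric Pool.Agent.MP9dd972N
open scoped ENNReal NNReal Topology Pointwise

private theorem Iva_NN {n : ℕ} {K : Set (EE n)} (T : EE n ≃ₗᵢ[ℝ] EE n) (hT : T '' K = K)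
    (x : EE n) : NN K (T x) = T (NN K x) := by
  refine ext_inner_right ℝ fun w => ?_
  have h1 := LininvAux.inner_NN K T.toContinuousLinearEquiv x (T.symm w)
  have h2 : (T.toContinuousLinearEquiv : EE n → EE n) '' K = K := hT
  rw [h2] at h1
  have h3 : T.toContinuousLinearEquiv x = T x := rfl
  have h4 : T.toContinuousLinearEquiv (T.symm w) = w := T.apply_symm_apply w
  rw [h3, h4] at h1
  rw [h1]
  have h5 := T.inner_map_map (NN K x) (T.symm w)
  rw [T.apply_symm_apply] at h5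
  exact h5.symm

private theorem Iva_T {n : ℕ} {K : Set (EE n)} (T : EE n ≃ₗᵢ[ℝ] EE n) (hT : T '' K = K)
    (x : EE n) : HypofAux.T K (T x) = T (HypofAux.T K x) := by
  unfold HypofAux.T
  rw [Iva_NN T hT, T.norm_map, map_smul]

private theorem Iva_mu {n : ℕ} (K : Set (EE n)) (p : ℝ) {s : Set (EE n)}
    (hs : MeasurableSet s) : HypofAux.mu K p s =
      ∫⁻ x in (HypofAux.T K ⁻¹' s) ∩ K, ENNReal.ofReal (‖NN K x‖ ^ p) := by
  unfold HypofAux.mu
  rw [Measure.map_apply (HypofAux.T_meas K) hs, withDensity_apply _ (HypofAux.T_meas K hs),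
    Measure.restrict_restrict (HypofAux.T_meas K hs)]

theorem mu_inv {n : ℕ} (hn : 0 < n) {K : Set (EE n)} (hK : Body K) (p : ℝ)
    (T : EE n ≃ₗᵢ[ℝ] EE n) (hT : T '' K = K) :
    (HypofAux.mu K p).map T = HypofAux.mu K p := by
  have hTm : Measurable T := T.continuous.measurable
  refine Measure.ext fun s hs => ?_
  rw [Measure.map_apply hTm hs, Iva_mu K p (hTm hs), Iva_mu K p hs]
  have h1 : (HypofAux.T K ⁻¹' (T ⁻¹' s)) ∩ K = T ⁻¹' ((HypofAux.T K ⁻¹' s) ∩ K) := by
    ext x
    simp only [mem_inter_iff, mem_preimage]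
    rw [Iva_T T hT]
    have h2 : T x ∈ K ↔ x ∈ K := by
      constructor
      · intro h
        rw [← hT] at h
        obtain ⟨y, hy, hyx⟩ := h
        rwa [← T.injective hyx]
      · intro h
        rw [← hT]
        exact ⟨x, h, rfl⟩
    rw [h2]
  rw [h1]
  have h3 : ∀ x, ENNReal.ofReal (‖NN K x‖ ^ p) = ENNReal.ofReal (‖NN K (T x)‖ ^ p) := by
    intro x
    rw [Iva_NN T hT, T.norm_map]
  have h4 := T.measurePreserving.setLIntegral_comp_preimage_emb
    T.toHomeomorph.measurableEmbedding (fun x => ENNReal.ofReal (‖NN K x‖ ^ p))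
    ((HypofAux.T K ⁻¹' s) ∩ K)
  exact (lintegral_congr fun x => h3 x).trans h4

theorem mu_unit {n : ℕ} (hn : 0 < n) {K : Set (EE n)} (hK : Body K) (p : ℝ) :
    ∀ᵐ u ∂(HypofAux.mu K p), ‖u‖ = 1 := by
  unfold HypofAux.mu
  rw [ae_map_iff (HypofAux.T_meas K).aemeasurable
    (measurableSet_eq_fun measurable_norm measurable_const)]
  refine (withDensity_absolutelyContinuous _ _).ae_le ?_
  refine ae_restrict_of_ae ?_
  filter_upwards [HypofAux.NN_ne hn hK] with x hx
  have h1 : ‖NN K x‖ ≠ 0 := norm_ne_zero_iff.2 hx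
  unfold HypofAux.T
  rw [norm_smul, norm_inv, norm_norm, inv_mul_cancel₀ h1]

theorem mu_mass {n : ℕ} (hn : 0 < n) {K : Set (EE n)} (hK : Body K) (p : ℝ) :
    HypofAux.mu K p univ ≠ 0 ∧ HypofAux.mu K p univ ≠ ∞ := by
  have h0 := Iva_mu K p (MeasurableSet.univ (α := EE n))
  rw [preimage_univ, univ_inter] at h0
  rw [h0]
  constructor
  · intro h
    rw [lintegral_eq_zero_iff (HypofAux.dens_meas K p)] at h
    have h1 : ∀ᵐ x ∂(volume.restrict K), False := by
      filter_upwards [h, ae_restrict_of_ae (HypofAux.NN_ne hn hK)] with x hx hx'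
      have h2 : 0 < ‖NN K x‖ ^ p := Real.rpow_pos_of_pos (norm_pos_iff.2 hx') p
      rw [Pi.zero_apply, ENNReal.ofReal_eq_zero] at hx
      linarith
    rw [ae_iff] at h1
    simp only [not_false_eq_true, ofPred_true, Measure.restrict_apply_univ] at h1
    have h3 : 0 < volume K :=
      lt_of_lt_of_le (isOpen_interior.measure_pos volume ⟨0, hK.zero⟩)
        (measure_mono interior_subset)
    exact h3.ne' h1
  · obtain ⟨r, R, hr, hR, hrd⟩ := hK.round
    have hR0 : 0 < R := by linarith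
    have h1 : ∀ᵐ x ∂(volume.restrict K), ENNReal.ofReal (‖NN K x‖ ^ p) ≤
        ENNReal.ofReal (r⁻¹ ^ p + R⁻¹ ^ p) := by
      filter_upwards [ae_restrict_of_ae (hK.ae_diff hn)] with x hx
      refine ENNReal.ofReal_le_ofReal ?_
      have h2 := norm_NN_le hr hrd x
      have h3 := le_norm_NN hR0 hrd hx.1 hx.2
      have h4 : 0 < R⁻¹ := inv_pos.2 hR0
      have h5 : 0 < r⁻¹ := inv_pos.2 hr
      have h6 : 0 ≤ r⁻¹ ^ p := Real.rpow_nonneg h5.le p
      have h7 : 0 ≤ R⁻¹ ^ p := Real.rpow_nonneg h4.le p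
      rcases le_total 0 p with hp | hp
      · have := Real.rpow_le_rpow (norm_nonneg _) h2 hp
        linarith
      · have := Real.rpow_le_rpow_of_nonpos h4 h3 hp
        linarith
    have h2 := lintegral_mono_ae h1
    rw [lintegral_const, Measure.restrict_apply_univ] at h2
    exact (h2.trans_lt (ENNReal.mul_lt_top ENNReal.ofReal_lt_top hK.comp.measure_lt_top)).ne

end Pool.Agent.MP9dd972R
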