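import Mathlib
import Pool.Agent.Lib.MP_9dd972_gt.N.Gauge
import Pool.Agent.Lib.MP_9dd972_gt.N.Lininv
import Pool.Agent.Lib.MP_9dd972_gt.N.Hypof
import Pool.Agent.Lib.MP_9dd972_gt_R.Defs

/-!
# MP_9dd972_gt, bodies with homothetic sections: the L_p surface area measure of a ball
-/

set_option autoImplicit false

namespace Pool.Agent.MP9dd972R

open MeasureTheory Set Metric Pool.Agent.MP9dd972N
open scoped ENNReal NNReal Topology Pointwise

private theorem Ivb_mu {n : ℕ} (K : Set (EE n)) (p : ℝ) {s : Set (EE n)}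
    (hs : MeasurableSet s) : HypofAux.mu K p s =
      ∫⁻ x in K, ENNReal.ofReal (‖NN K x‖ ^ p) *
        s.indicator (fun _ => (1 : ℝ≥0∞)) (‖NN K x‖⁻¹ • NN K x) := by
  have h0 : Measurable (s.indicator (fun _ : EE n => (1 : ℝ≥0∞))) :=
    measurable_const.indicator hs
  have h1 : HypofAux.mu K p s = ∫⁻ u, s.indicator (fun _ => (1 : ℝ≥0∞)) u ∂(HypofAux.mu K p) := by
    rw [lintegral_indicator_const hs, one_mul]
  rw [h1]
  unfold HypofAux.mu
  rw [lintegral_map h0 (HypofAux.T_meas K)]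
  exact lintegral_withDensity_eq_lintegral_mul (volume.restrict K) (HypofAux.dens_meas K p)
    (h0.comp (HypofAux.T_meas K))

theorem mu_of_hyp {n : ℕ} (hn : 0 < n) {K C : Set (EE n)} (hK : Body K) (hC : Body C) {p : ℝ}
    (h : Hyp p K C) : HypofAux.mu K p = HypofAux.mu C p := by
  apply Measure.ext
  intro s hs
  rw [Ivb_mu K p hs, Ivb_mu C p hs]
  have h0 : Measurable (s.indicator (fun _ : EE n => (1 : ℝ≥0∞))) :=
    measurable_const.indicator hs
  refine h (fun u => ENNReal.ofReal (‖u‖ ^ p) *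
    s.indicator (fun _ => (1 : ℝ≥0∞)) (‖u‖⁻¹ • u)) ?_ ?_
  · exact ((measurable_norm.pow_const p).ennreal_ofReal).mul
      (h0.comp (measurable_norm.inv.smul measurable_id))
  · intro c u hc
    have h1 : ‖c • u‖ = c * ‖u‖ := by rw [norm_smul, Real.norm_eq_abs, abs_of_pos hc]
    have h2 : ‖c • u‖⁻¹ • c • u = ‖u‖⁻¹ • u := by
      rw [h1, smul_smul, mul_inv, mul_right_comm, inv_mul_cancel₀ hc.ne', one_mul]
    rw [h2, h1, Real.mul_rpow hc.le (norm_nonneg u),
      ENNReal.ofReal_mul (Real.rpow_nonneg hc.le p), mul_assoc]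

theorem hyp_of_mu {n : ℕ} (hn : 0 < n) {K C : Set (EE n)} (hK : Body K) (hC : Body C) {p : ℝ}
    (h : HypofAux.mu K p = HypofAux.mu C p) : Hyp p K C := by
  intro G hG hGh
  rw [HypofAux.lint_mu hn hK p hG hGh, HypofAux.lint_mu hn hC p hG hGh, h]

/-- a centered ball with prescribed total mass -/
theorem ball_mass {n : ℕ} (hn : 0 < n) {p : ℝ} (hp : p < n) {m : ℝ≥0∞} (hm : m ≠ 0)
    (hm' : m ≠ ∞) : ∃ r : ℝ, 0 < r ∧
      HypofAux.mu (closedBall (0 : EE n) r) p univ = m := by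
  have hV0 : (volume (ball (0 : EE n) 1)) ≠ 0 := (measure_ball_pos volume _ one_pos).ne'
  have hV1 : (volume (ball (0 : EE n) 1)) ≠ ∞ := measure_ball_lt_top.ne
  obtain ⟨V, hV⟩ : ∃ V, V = volume (ball (0 : EE n) 1) := ⟨_, rfl⟩
  rw [← hV] at hV0 hV1
  have hVp : 0 < V.toReal := ENNReal.toReal_pos hV0 hV1
  have hmp : 0 < m.toReal := ENNReal.toReal_pos hm hm'
  have hq : 0 < m.toReal / V.toReal := div_pos hmp hVp
  have hnp : 0 < (n : ℝ) - p := by linarith
  obtain ⟨r, hr⟩ : ∃ r, r = (m.toReal / V.toReal) ^ (1 / ((n : ℝ) - p)) := ⟨_, rfl⟩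
  have hr0 : 0 < r := by
    rw [hr]
    exact Real.rpow_pos_of_pos hq _
  have hrp : r ^ ((n : ℝ) - p) = m.toReal / V.toReal := by
    rw [hr, ← Real.rpow_mul hq.le, one_div_mul_cancel hnp.ne', Real.rpow_one]
  refine ⟨r, hr0, ?_⟩
  have hB : Body (closedBall (0 : EE n) r) :=
    { conv := convex_closedBall 0 r
      comp := isCompact_closedBall 0 r
      zero := by
        rw [interior_closedBall 0 hr0.ne']
        exact mem_ball_self hr0 }
  have hRd : Round r r (closedBall (0 : EE n) r) :=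
    { toBody := hB
      inn := ball_subset_closedBall
      out := Subset.rfl }
  rw [Ivb_mu _ p MeasurableSet.univ]
  have h1 : ∫⁻ x in closedBall (0 : EE n) r,
      ENNReal.ofReal (‖NN (closedBall (0 : EE n) r) x‖ ^ p) *
        (univ : Set (EE n)).indicator (fun _ => (1 : ℝ≥0∞))
          (‖NN (closedBall (0 : EE n) r) x‖⁻¹ • NN (closedBall (0 : EE n) r) x) =
      ∫⁻ _ in closedBall (0 : EE n) r, ENNReal.ofReal ((r⁻¹) ^ p) := by
    refine lintegral_congr_ae (ae_restrict_of_ae ?_)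
    filter_upwards [hB.ae_diff hn] with x hx
    have h2 : ‖NN (closedBall (0 : EE n) r) x‖ = r⁻¹ :=
      le_antisymm (norm_NN_le hr0 hRd x) (le_norm_NN hr0 hRd hx.1 hx.2)
    rw [h2, indicator_univ, mul_one]
  rw [h1, setLIntegral_const, Measure.addHaar_closedBall volume (0 : EE n) hr0.le, ← hV,
    finrank_euclideanSpace_fin, ← ENNReal.ofReal_toReal hV1,
    ← ENNReal.ofReal_mul (by positivity), ← ENNReal.ofReal_mul (by positivity)]
  have h3 : (r⁻¹) ^ p * (r ^ n * V.toReal) = m.toReal := by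
    rw [Real.inv_rpow hr0.le, ← Real.rpow_neg hr0.le, ← Real.rpow_natCast r n, ← mul_assoc,
      ← Real.rpow_add hr0, show -p + (n : ℝ) = (n : ℝ) - p by ring, hrp,
      div_mul_cancel₀ _ hVp.ne']
  rw [h3, ENNReal.ofReal_toReal hm']

end Pool.Agent.MP9dd972R
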