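import Mathlib
import Pool.Agent.Lib.MP_9dd972_gt.N.Gauge
import Pool.Agent.Lib.MP_9dd972_gt.N.Lininv
import Pool.Agent.Lib.MP_9dd972_gt_R.Defs
import Pool.Agent.Lib.MP_9dd972_gt_R.Crd

/-!
# MP_9dd972_gt, bodies with homothetic sections: linear images
-/

set_option autoImplicit false

namespace Pool.Agent.MP9dd972R

open MeasureTheory Set Metric Pool.Agent.MP9dd972N
open scoped ENNReal NNReal Topology Pointwise

variable {N : ℕ}

private theorem NN_image {n : ℕ} (K : Set (EE n)) (g : EE n ≃L[ℝ] EE n) (x : EE n) :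
    NN (g '' K) (g x) =
      ContinuousLinearMap.adjoint (g.symm : EE n →L[ℝ] EE n) (NN K x) := by
  refine ext_inner_right ℝ fun w => ?_
  rw [ContinuousLinearMap.adjoint_inner_left]
  have h := LininvAux.inner_NN K g x (g.symm w)
  rw [g.apply_symm_apply] at h
  exact h

private theorem lint_image {n : ℕ} {K : Set (EE n)} (hK : Body K) (g : EE n ≃L[ℝ] EE n)
    {G : EE n → ℝ≥0∞} (hG : Measurable G) :
    ∫⁻ x in g '' K, G (NN (g '' K) x) =
      ENNReal.ofReal |(g : EE n →L[ℝ] EE n).det| *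
        ∫⁻ x in K, G (ContinuousLinearMap.adjoint (g.symm : EE n →L[ℝ] EE n) (NN K x)) := by
  have h1 := lintegral_image_eq_lintegral_abs_det_fderiv_mul volume hK.comp.measurableSet
    (f := g) (f' := fun _ => (g : EE n →L[ℝ] EE n))
    (fun x _ => g.hasFDerivAt.hasFDerivWithinAt) g.injective.injOn
    (fun x => G (NN (g '' K) x))
  rw [h1]
  simp only [NN_image]
  refine lintegral_const_mul _ ?_
  exact hG.comp ((ContinuousLinearMap.adjoint (g.symm : EE n →L[ℝ] EE n)).continuous.measurable.comp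
    (NN_meas K))

theorem hyp_image {n : ℕ} {p : ℝ} {K C : Set (EE n)} (hK : Body K) (hC : Body C)
    (hyp : Hyp p K C) (g : EE n ≃L[ℝ] EE n) : Hyp p (g '' K) (g '' C) := by
  intro G hG hhom
  rw [lint_image hK g hG, lint_image hC g hG]
  congr 1
  refine hyp (fun u => G (ContinuousLinearMap.adjoint (g.symm : EE n →L[ℝ] EE n) u)) ?_ ?_
  · exact hG.comp (ContinuousLinearMap.adjoint (g.symm : EE n →L[ℝ] EE n)).continuous.measurable
  · intro c u hc
    show G (ContinuousLinearMap.adjoint (g.symm : EE n →L[ℝ] EE n) (c • u)) = _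
    rw [map_smul]
    exact hhom c _ hc

/-- the set with sections `r t • Q` -/
theorem rev_of_sections {Q : Set (EE N)} (hQ : Body Q) (r : ℝ → ℝ) :
    Rev Q {x : EE (N + 1) | 0 ≤ r (x 0) ∧ tl x ∈ r (x 0) • Q} := by
  intro x y hxy hg hx
  obtain ⟨h0, hm⟩ := hx
  show 0 ≤ r (y 0) ∧ tl y ∈ r (y 0) • Q
  rw [← hxy]
  refine ⟨h0, ?_⟩
  have h1 : gauge Q (tl x) ≤ r (x 0) := gauge_le_of_mem h0 hm
  have h2 : gauge Q (tl y) ≤ r (x 0) := hg.trans h1
  rcases h0.eq_or_lt with h3 | h3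
  · rw [← h3] at h2 ⊢
    have h4 : tl y = 0 := by
      by_contra hne
      exact absurd (hQ.gauge_pos hne) (not_lt.2 h2)
    rw [h4]
    exact ⟨0, interior_subset hQ.zero, smul_zero _⟩
  · rw [Set.mem_smul_set_iff_inv_smul_mem₀ h3.ne', ← hQ.gauge_le_one,
      gauge_smul_of_nonneg (inv_nonneg.2 h3.le), smul_eq_mul, inv_mul_le_iff₀ h3, mul_one]
    exact h2

theorem cent_zero {K : Set (EE (N + 1))} (hK : IsCompact K)
    (hc : ∫ x in K, x = (0 : EE (N + 1))) : ∫ x in K, x 0 = (0 : ℝ) := by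
  have h1 : IntegrableOn (fun x : EE (N + 1) => x) K :=
    continuous_id.continuousOn.integrableOn_compact hK
  have h2 := (EuclideanSpace.proj (0 : Fin (N + 1)) :
    EE (N + 1) →L[ℝ] ℝ).integral_comp_comm h1
  rw [hc, map_zero] at h2
  exact h2

end Pool.Agent.MP9dd972R
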