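import Mathlib
import Pool.Agent.Lib.MP_9dd972_gt.N.Gauge
import Pool.Agent.Lib.MP_9dd972_gt.N.Hsup
import Pool.Agent.Lib.MP_9dd972_gt.N.Hypr
import Pool.Agent.Lib.MP_9dd972_gt.N.Subn
import Pool.Agent.Lib.MP_9dd972_gt_R.Defs
import Pool.Agent.Lib.MP_9dd972_gt_R.Dui

/-!
# MP_9dd972_gt, bodies with homothetic sections: uniqueness
-/

set_option autoImplicit false

namespace Pool.Agent.MP9dd972R

open MeasureTheory Set Metric Pool.Agent.MP9dd972N
open scoped ENNReal NNReal Topology Pointwise

variable {N : ℕ} {Q : Set (EE N)} {K : Set (EE (N + 1))}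

private theorem vol_pos {K : Set (EE (N + 1))} (hK : Body K) : 0 < (volume K).toReal := by
  refine ENNReal.toReal_pos ?_ hK.comp.measure_lt_top.ne
  have h1 : 0 < volume (interior K) := isOpen_interior.measure_pos volume ⟨0, hK.zero⟩
  exact (h1.trans_le (measure_mono interior_subset)).ne'

/-- two-sided bounds for the support function of `C` at the normals of `K` -/
private theorem bnd {K C : Set (EE (N + 1))} (hK : Body K) (hC : Body C) :
    ∃ a b : ℝ, 0 < a ∧ ∀ᵐ x : EE (N + 1), a ≤ hh C (NN K x) ∧ hh C (NN K x) ≤ b := by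
  obtain ⟨r, R, hr, hR, hKd⟩ := hK.round
  obtain ⟨r', R', hr', hR', hCd⟩ := hC.round
  have hR0 : 0 < R := by linarith
  refine ⟨r' * R⁻¹, R' * r⁻¹, by positivity, ?_⟩
  filter_upwards [hK.ae_diff (Nat.succ_pos N)] with x hx
  constructor
  · refine le_trans ?_ (le_hh hC.comp hr' hCd.inn (NN K x))
    exact mul_le_mul_of_nonneg_left (le_norm_NN hR0 hKd hx.1 hx.2) hr'.le
  · refine (hh_bound ⟨0, interior_subset hC.zero⟩ hCd.out (NN K x)).trans ?_
    exact mul_le_mul_of_nonneg_left (norm_NN_le hr hKd x) (by linarith)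

private theorem int_bdd {K : Set (EE (N + 1))} (hK : Body K) {f : EE (N + 1) → ℝ}
    (hf : Measurable f) {M : ℝ} (hb : ∀ᵐ x : EE (N + 1), |f x| ≤ M) : IntegrableOn f K := by
  refine Measure.integrableOn_of_bounded (M := M) hK.comp.measure_lt_top.ne
    hf.aestronglyMeasurable (ae_restrict_of_ae ?_)
  filter_upwards [hb] with x hx
  rwa [Real.norm_eq_abs]

private theorem log_abs {a b t : ℝ} (ha : 0 < a) (h1 : a ≤ t) (h2 : t ≤ b) :
    |Real.log t| ≤ max |Real.log a| |Real.log b| := by
  have ht : 0 < t := ha.trans_le h1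
  rw [abs_le]
  have h3 := Real.log_le_log ha h1
  have h4 := Real.log_le_log ht h2
  constructor
  · have := neg_abs_le (Real.log a)
    have h5 := le_max_left |Real.log a| |Real.log b|
    linarith
  · have := le_abs_self (Real.log b)
    have h5 := le_max_right |Real.log a| |Real.log b|
    linarith

/-- the basic facts about the power integral -/
private theorem pow_int {K C : Set (EE (N + 1))} (hK : Body K) (hC : Body C) {p : ℝ}
    (hp : 0 < p) (hyp : Hyp p K C) :
    IntegrableOn (fun x => hh C (NN K x) ^ p) K ∧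
      IntegrableOn (fun x => Real.log (hh C (NN K x))) K ∧
      ∫ x in K, hh C (NN K x) ^ p = (volume C).toReal := by
  obtain ⟨a, b, ha, hab⟩ := bnd hK hC
  have hcont : Continuous (hh C) := hh_cont hC.comp ⟨0, interior_subset hC.zero⟩
  have hm : Measurable fun x => hh C (NN K x) := hcont.measurable.comp (NN_meas K)
  refine ⟨?_, ?_, ?_⟩
  · refine int_bdd hK (M := b ^ p) (hm.pow_const p) ?_
    filter_upwards [hab] with x hx
    have h0 : 0 ≤ hh C (NN K x) := ha.le.trans hx.1
    rw [abs_of_nonneg (Real.rpow_nonneg h0 p)]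
    exact Real.rpow_le_rpow h0 hx.2 hp.le
  · refine int_bdd hK (M := max |Real.log a| |Real.log b|)
      (Real.measurable_log.comp hm) ?_
    filter_upwards [hab] with x hx
    exact log_abs ha hx.1 hx.2
  · have h0 : ∀ u : EE (N + 1), 0 ≤ hh C u := by
      intro u
      have h1 := inner_le_hh hC.comp (interior_subset hC.zero) u
      rwa [inner_zero_right] at h1
    have h1 := hyp_real (Nat.succ_pos N) hp hK hC hyp (G := fun u => hh C u ^ p)
      (hcont.measurable.pow_const p) (fun u => Real.rpow_nonneg (h0 u) p) (by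
        intro c u hc
        show hh C (c • u) ^ p = _
        rw [hh_smul C hc.le, Real.mul_rpow hc.le (h0 u)])
    rw [h1]
    have h2 : ∫ x in C, hh C (NN C x) ^ p = ∫ x in C, (1 : ℝ) := by
      refine integral_congr_ae (ae_restrict_of_ae ?_)
      filter_upwards [hC.ae_diff (Nat.succ_pos N)] with x hx
      rw [hh_NN hC hx.1 hx.2, Real.one_rpow]
    rw [h2]
    simp [Measure.real]

private theorem jens {K C : Set (EE (N + 1))} (hK : Body K) (hC : Body C) {p : ℝ}
    (hp : 0 < p) (hyp : Hyp p K C) :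
    -(p * ∫ x in K, -Real.log (hh C (NN K x))) ≤
      (volume K).toReal * Real.log ((volume C).toReal / (volume K).toReal) := by
  obtain ⟨i1, i2, e⟩ := pow_int hK hC hp hyp
  have hVK := vol_pos hK
  have hVC := vol_pos hC
  set VK := (volume K).toReal with hVKd
  set VC := (volume C).toReal with hVCd
  set κ := VC / VK with hκd
  have hκ : 0 < κ := div_pos hVC hVK
  obtain ⟨a, b, ha, hab⟩ := bnd hK hC
  have h1 : ∀ᵐ x ∂(volume.restrict K), p * Real.log (hh C (NN K x)) ≤
      Real.log κ - 1 + κ⁻¹ * hh C (NN K x) ^ p := by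
    refine ae_restrict_of_ae ?_
    filter_upwards [hab] with x hx
    have h0 : 0 < hh C (NN K x) := ha.trans_le hx.1
    have hpw : 0 < hh C (NN K x) ^ p := Real.rpow_pos_of_pos h0 p
    have h2 := Real.log_le_sub_one_of_pos (div_pos hpw hκ)
    rw [Real.log_div hpw.ne' hκ.ne', Real.log_rpow h0] at h2
    have h3 : hh C (NN K x) ^ p / κ = κ⁻¹ * hh C (NN K x) ^ p := by ring
    linarith
  have i3 : IntegrableOn (fun _ : EE (N + 1) => Real.log κ - 1) K :=
    integrableOn_const hK.comp.measure_lt_top.ne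
  have h4 := integral_mono_ae (i2.const_mul p) (i3.add (i1.const_mul κ⁻¹)) h1
  have h5 : ∫ x in K, ((fun _ : EE (N + 1) => Real.log κ - 1) +
      fun x => κ⁻¹ * hh C (NN K x) ^ p) x = VK * (Real.log κ - 1) + κ⁻¹ * VC := by
    rw [integral_add' i3 (i1.const_mul κ⁻¹), integral_const_mul, e]
    simp [Measure.real, hVKd]
  have h6 : ∫ x in K, p * Real.log (hh C (NN K x)) =
      -(p * ∫ x in K, -Real.log (hh C (NN K x))) := by
    rw [integral_const_mul, integral_neg]
    ring
  have h7 : κ⁻¹ * VC = VK := by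
    rw [hκd]
    field_simp
  rw [h5, h6, h7] at h4
  linarith

theorem unique_rev (hN : 1 ≤ N) (hQ : Body Q) {C : Set (EE (N + 1))} (hK : Body K)
    (hC : Body C) (hKR : Rev Q K) (hCR : Rev Q C) {p : ℝ} (hp : 0 < p) (hp1 : p < 1)
    (hcK : ∫ x in K, x 0 = (0 : ℝ)) (hcC : ∫ x in C, x 0 = (0 : ℝ)) (hyp : Hyp p K C) :
    K = C := by
  have hVK := vol_pos hK
  have hVC := vol_pos hC
  have hypC : Hyp p C K := fun G hG hh => (hyp G hG hh).symm
  have hN0 : (0 : ℝ) < N := by exact_mod_cast hN
  -- the volumes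
  have main : ∀ A B : Set (EE (N + 1)), Body A → Body B → Rev Q A → Rev Q B →
      ∫ x in A, x 0 = (0 : ℝ) → Hyp p A B →
      0 ≤ Real.log ((volume B).toReal / (volume A).toReal) := by
    intro A B hA hB hAR hBR hc h
    have hVA := vol_pos hA
    have d := dual hN hQ hA hB hAR hBR hp hp1 hc h
    have j := jens hA hB hp h
    set I := ∫ x in A, -Real.log (hh B (NN A x))
    set v := Real.log ((volume B).toReal / (volume A).toReal)
    set VA := (volume A).toReal
    by_contra hv
    have hv' : v < 0 := not_le.1 hv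
    have h1 : (N + 1) * (1 - p) * (-(p * I)) ≤ (N + 1) * (1 - p) * (VA * v) :=
      mul_le_mul_of_nonneg_left j (by nlinarith)
    have h2 : p * ((N + 1) * ((1 - p) * I)) ≤ p * (N * VA * v) :=
      mul_le_mul_of_nonneg_left d hp.le
    have h3 : 0 ≤ ((N + 1) * (1 - p) + p * N) * (VA * v) := by nlinarith
    have h4 : 0 < (N + 1) * (1 - p) + p * N := by nlinarith
    have h5 : VA * v < 0 := mul_neg_of_pos_of_neg hVA hv'
    have h6 := mul_neg_of_pos_of_neg h4 h5
    linarith
  have v1 := main K C hK hC hKR hCR hcK hyp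
  have v2 := main C K hC hK hCR hKR hcC hypC
  have hv : Real.log ((volume C).toReal / (volume K).toReal) = 0 := by
    rw [Real.log_div hVC.ne' hVK.ne'] at v1 ⊢
    rw [Real.log_div hVK.ne' hVC.ne'] at v2
    linarith
  have hV : (volume C).toReal = (volume K).toReal := by
    have h1 := Real.log_div hVC.ne' hVK.ne'
    rw [hv] at h1
    exact Real.log_injOn_pos hVC hVK (by linarith)
  have d := dual hN hQ hK hC hKR hCR hp hp1 hcK hyp
  have j := jens hK hC hp hyp
  rw [hv] at d j
  have hI : ∫ x in K, -Real.log (hh C (NN K x)) = 0 := by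
    have h1 : (0 : ℝ) < (N + 1) * (1 - p) := by nlinarith
    apply le_antisymm
    · by_contra h
      have h2 := mul_pos h1 (not_le.1 h)
      nlinarith
    · by_contra h
      have h2 := mul_neg_of_pos_of_neg hp (not_le.1 h)
      linarith
  obtain ⟨i1, i2, e⟩ := pow_int hK hC hp hyp
  obtain ⟨a, b, ha, hab⟩ := bnd hK hC
  have i3 : IntegrableOn (fun _ : EE (N + 1) => (1 : ℝ)) K :=
    integrableOn_const hK.comp.measure_lt_top.ne
  have i4 : IntegrableOn (fun x => hh C (NN K x) ^ p - 1 - p * Real.log (hh C (NN K x))) K :=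
    (i1.sub i3).sub (i2.const_mul p)
  have i5 : IntegrableOn (fun x => hh C (NN K x) ^ p - 1) K := i1.sub i3
  have hz : ∫ x in K, (hh C (NN K x) ^ p - 1 - p * Real.log (hh C (NN K x))) = 0 := by
    rw [integral_sub i5 (i2.const_mul p), integral_sub i1 i3, e, integral_const_mul]
    have h1 : ∫ x in K, Real.log (hh C (NN K x)) = 0 := by
      rw [integral_neg] at hI
      linarith
    rw [h1, hV]
    simp [Measure.real]
  have hnn : 0 ≤ᵐ[volume.restrict K]
      fun x => hh C (NN K x) ^ p - 1 - p * Real.log (hh C (NN K x)) := by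
    refine ae_restrict_of_ae ?_
    filter_upwards [hab] with x hx
    have h0 : 0 < hh C (NN K x) := ha.trans_le hx.1
    have h2 := Real.log_le_sub_one_of_pos (Real.rpow_pos_of_pos h0 p)
    rw [Real.log_rpow h0] at h2
    show (0 : ℝ) ≤ _
    linarith
  have hae := (integral_eq_zero_iff_of_nonneg_ae hnn i4).1 hz
  have hle : ∀ᵐ x ∂(volume.restrict K), hh C (NN K x) ≤ 1 := by
    filter_upwards [hae, ae_restrict_of_ae hab] with x hx hx2
    have h0 : 0 < hh C (NN K x) := ha.trans_le hx2.1
    have h1 : hh C (NN K x) ^ p = 1 := by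
      by_contra hne
      have h2 := Real.log_lt_sub_one_of_pos (Real.rpow_pos_of_pos h0 p) hne
      rw [Real.log_rpow h0] at h2
      have hx' : hh C (NN K x) ^ p - 1 - p * Real.log (hh C (NN K x)) = 0 := hx
      linarith
    by_contra hgt
    have h3 := Real.one_lt_rpow (not_le.1 hgt) hp
    linarith
  have hsub := subset_of_ae (Nat.succ_pos N) hK hC hle
  refine eq_of_subset hK hC hsub ?_
  exact ((ENNReal.toReal_eq_toReal_iff' hC.comp.measure_lt_top.ne
    hK.comp.measure_lt_top.ne).1 hV).symm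

end Pool.Agent.MP9dd972R
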