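import Mathlib
import Pool.Agent.Lib.MP_9dd972_gt.N.Top
import Pool.Agent.Lib.MP_9dd972_gt.N.Lininv
import Pool.Agent.Lib.MP_9dd972_gt_R.Defs
import Pool.Agent.Lib.MP_9dd972_gt_R.Unq
import Pool.Agent.Lib.MP_9dd972_gt_R.Lnr

/-!
# MP_9dd972_gt, bodies with homothetic sections: the theorem
-/

set_option autoImplicit false

namespace Pool.Agent.MP9dd972R

open MeasureTheory Set Metric Pool.Agent.MP9dd972N
open scoped ENNReal NNReal Topology Pointwise

variable {N : ℕ}

/-- Two centered convex bodies with sections `r t • Q` and `s t • Q`, in the same linear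
coordinates, are equal if their L_p surface area measures are equal. -/
theorem sections_unique (hN : 1 ≤ N) {p : ℝ} (hp : 0 < p) (hp1 : p < 1) {Q : Set (EE N)}
    (hQ : Body Q) (g : EE (N + 1) ≃L[ℝ] EE (N + 1)) (r s : ℝ → ℝ) {K C : Set (EE (N + 1))}
    (hK : Convex ℝ K) (hKc : IsCompact K) (hKi : (interior K).Nonempty)
    (hC : Convex ℝ C) (hCc : IsCompact C) (hCi : (interior C).Nonempty)
    (cK : ∫ x in K, x = (0 : EE (N + 1))) (cC : ∫ x in C, x = (0 : EE (N + 1)))
    (sK : K = g '' {x | 0 ≤ r (x 0) ∧ tl x ∈ r (x 0) • Q})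
    (sC : C = g '' {x | 0 ≤ s (x 0) ∧ tl x ∈ s (x 0) • Q})
    (h : ∀ ω : Set (EE (N + 1)), MeasurableSet ω → ω ⊆ sphere (0 : EE (N + 1)) 1 →
      LpN p K ω = LpN p C ω) : K = C := by
  have bK : Body K := body_of_centred hK hKc hKi cK
  have bC : Body C := body_of_centred hC hCc hCi cC
  have hyp : Hyp p K C := hyp_of_lpn (by omega) hp hp1 bK bC h
  have hback : ∀ A : Set (EE (N + 1)), g.symm '' (g '' A) = A := by
    intro A
    rw [Set.image_image]
    simp
  have eK : g.symm '' K = {x | 0 ≤ r (x 0) ∧ tl x ∈ r (x 0) • Q} := by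
    rw [sK, hback]
  have eC : g.symm '' C = {x | 0 ≤ s (x 0) ∧ tl x ∈ s (x 0) • Q} := by
    rw [sC, hback]
  have bK' : Body (g.symm '' K) := bK.image g.symm
  have bC' : Body (g.symm '' C) := bC.image g.symm
  have rK : Rev Q (g.symm '' K) := by
    rw [eK]
    exact rev_of_sections hQ r
  have rC : Rev Q (g.symm '' C) := by
    rw [eC]
    exact rev_of_sections hQ s
  have cK' := cent_zero bK'.comp (lin_cent bK g.symm cK)
  have cC' := cent_zero bC'.comp (lin_cent bC g.symm cC)
  have e := unique_rev hN hQ bK' bC' rK rC hp hp1 cK' cC' (hyp_image bK bC hyp g.symm)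
  exact g.symm.injective.image_injective e

end Pool.Agent.MP9dd972R
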