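import Mathlib
import Pool.Agent.Lib.MP_9dd972_gt.N.Gauge
import Pool.Agent.Lib.MP_9dd972_gt_R.Defs
import Pool.Agent.Lib.MP_9dd972_gt_R.Crd

/-!
# MP_9dd972_gt, bodies with homothetic sections: bodies of revolution have homothetic sections
-/

set_option autoImplicit false

namespace Pool.Agent.MP9dd972R

open MeasureTheory Set Metric Pool.Agent.MP9dd972N
open scoped ENNReal NNReal Topology Pointwise

variable {N : ℕ}

theorem ball_body (N : ℕ) : Body (closedBall (0 : EE N) 1) where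
  conv := convex_closedBall 0 1
  comp := isCompact_closedBall 0 1
  zero := ball_subset_interior_closedBall (mem_ball_self one_pos)

private theorem Rvx_norm (x : EE (N + 1)) : ‖x‖ ^ 2 = x 0 ^ 2 + ‖tl x‖ ^ 2 := by
  rw [← real_inner_self_eq_norm_sq, ← real_inner_self_eq_norm_sq, inner_split]
  ring

private theorem Rvx_ext {x y : EE (N + 1)} (h0 : x 0 = y 0) (h : tl x = tl y) : x = y := by
  rw [← pr_eta x, ← pr_eta y, h0, h]

/-- a linear isometry fixing the first basis vector -/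
private theorem Rvx_move {K : Set (EE (N + 1))}
    (hinv : ∀ T : EE (N + 1) ≃ₗᵢ[ℝ] EE (N + 1), T (EuclideanSpace.single 0 1) =
      EuclideanSpace.single 0 1 → T '' K = K) {x a : EE (N + 1)} (hx : x ∈ K)
    (h0 : a 0 = x 0) (h : ‖tl a‖ = ‖tl x‖) : a ∈ K := by
  have hn : ‖x‖ = ‖a‖ := by
    have h1 : ‖x‖ ^ 2 = ‖a‖ ^ 2 := by rw [Rvx_norm, Rvx_norm, h0, h]
    exact (pow_left_inj₀ (norm_nonneg _) (norm_nonneg _) two_ne_zero).1 h1
  have h2 := hinv (Submodule.reflection (Submodule.span ℝ {x - a})ᗮ) ?_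
  · rw [← h2]
    exact ⟨x, hx, Submodule.reflection_sub hn⟩
  · apply Submodule.reflection_mem_subspace_eq_self
    rw [Submodule.mem_orthogonal_singleton_iff_inner_right, inner_split, tl_single,
      inner_zero_right, add_zero]
    have h3 : (x - a) 0 = 0 := by
      rw [PiLp.sub_apply, h0, sub_self]
    rw [h3, zero_mul]

/-- a convex set invariant under the linear isometries fixing the first basis vector -/
theorem rev_of_inv (hN : 1 ≤ N) {K : Set (EE (N + 1))} (hK : Convex ℝ K)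
    (hinv : ∀ T : EE (N + 1) ≃ₗᵢ[ℝ] EE (N + 1), T (EuclideanSpace.single 0 1) =
      EuclideanSpace.single 0 1 → T '' K = K) : Rev (closedBall (0 : EE N) 1) K := by
  intro x y h0 hg hx
  rw [gauge_closedBall zero_le_one, gauge_closedBall zero_le_one, div_one, div_one] at hg
  rcases (norm_nonneg (tl x)).eq_or_lt with hρ | hρ
  · rw [← hρ] at hg
    have h1 : tl y = 0 := norm_le_zero_iff.1 hg
    have h2 : tl x = 0 := norm_eq_zero.1 hρ.symm
    rw [Rvx_ext h0.symm (h1.trans h2.symm)]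
    exact hx
  · obtain ⟨d, hd, hyd⟩ : ∃ d : EE N, ‖d‖ = 1 ∧ tl y = ‖tl y‖ • d := by
      by_cases hy : tl y = 0
      · refine ⟨‖tl x‖⁻¹ • tl x, ?_, ?_⟩
        · rw [norm_smul, norm_inv, norm_norm, inv_mul_cancel₀ hρ.ne']
        · rw [hy, norm_zero, zero_smul]
      · have hy' : ‖tl y‖ ≠ 0 := norm_ne_zero_iff.2 hy
        refine ⟨‖tl y‖⁻¹ • tl y, ?_, ?_⟩
        · rw [norm_smul, norm_inv, norm_norm, inv_mul_cancel₀ hy']
        · rw [smul_smul, mul_inv_cancel₀ hy', one_smul]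
    have ha : pr (x 0) (‖tl x‖ • d) ∈ K := by
      refine Rvx_move hinv hx (pr_zero _ _) ?_
      rw [tl_pr, norm_smul, norm_norm, hd, mul_one]
    have hb : pr (x 0) ((-‖tl x‖) • d) ∈ K := by
      refine Rvx_move hinv hx (pr_zero _ _) ?_
      rw [tl_pr, norm_smul, norm_neg, norm_norm, hd, mul_one]
    have hc0 : 0 ≤ ‖tl y‖ / ‖tl x‖ := by positivity
    have hc1 : ‖tl y‖ / ‖tl x‖ ≤ 1 := (div_le_one hρ).2 hg
    have hmem := hK ha hb (a := (1 + ‖tl y‖ / ‖tl x‖) / 2) (b := (1 - ‖tl y‖ / ‖tl x‖) / 2)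
      (by linarith) (by linarith) (by ring)
    have e : ((1 + ‖tl y‖ / ‖tl x‖) / 2) • pr (x 0) (‖tl x‖ • d) +
        ((1 - ‖tl y‖ / ‖tl x‖) / 2) • pr (x 0) ((-‖tl x‖) • d) = y := by
      apply Rvx_ext
      · rw [PiLp.add_apply, PiLp.smul_apply, PiLp.smul_apply, pr_zero, pr_zero, smul_eq_mul,
          smul_eq_mul, ← h0]
        ring
      · rw [tl_add, tl_smul, tl_smul, tl_pr, tl_pr, smul_smul, smul_smul, ← add_smul]
        conv_rhs => rw [hyd]
        congr 1
        field_simp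
        ring
    rw [← e]
    exact hmem

end Pool.Agent.MP9dd972R
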