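import Mathlib
import Pool.Agent.Lib.MP_9dd972_gt.N.Gauge
import Pool.Agent.Lib.MP_9dd972_gt.N.Lininv
import Pool.Agent.Lib.MP_9dd972_gt_R.Defs
import Pool.Agent.Lib.MP_9dd972_gt_R.Crd
import Pool.Agent.Lib.MP_9dd972_gt_R.Unq
import Pool.Agent.Lib.MP_9dd972_gt_R.Lnr
import Pool.Agent.Lib.MP_9dd972_gt_R.Rvx

/-!
# MP_9dd972_gt, bodies with homothetic sections: bodies of revolution with the same axis
-/

set_option autoImplicit false

namespace Pool.Agent.MP9dd972R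

open MeasureTheory Set Metric Pool.Agent.MP9dd972N
open scoped ENNReal NNReal Topology Pointwise

variable {N : ℕ}

/-- a linear isometry which moves `v` to a positive multiple of the first basis vector -/
private theorem Sax_iso {v : EE (N + 1)} (hv : v ≠ 0) : ∃ g : EE (N + 1) ≃ₗᵢ[ℝ] EE (N + 1),
    g v = ‖v‖ • (EuclideanSpace.single 0 1 : EE (N + 1)) := by
  have h0 : ‖v‖ ≠ 0 := norm_ne_zero_iff.2 hv
  have h1 : ‖‖v‖⁻¹ • v‖ = ‖(EuclideanSpace.single 0 1 : EE (N + 1))‖ := by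
    rw [norm_smul, norm_inv, norm_norm, inv_mul_cancel₀ h0, PiLp.norm_single, norm_one]
  obtain ⟨g, hg⟩ : ∃ g : EE (N + 1) ≃ₗᵢ[ℝ] EE (N + 1),
      g (‖v‖⁻¹ • v) = (EuclideanSpace.single 0 1 : EE (N + 1)) :=
    ⟨_, Submodule.reflection_sub h1⟩
  refine ⟨g, ?_⟩
  rw [map_smul] at hg
  rw [← hg, smul_smul, mul_inv_cancel₀ h0, one_smul]

private theorem Sax_inv {v : EE (N + 1)} (hv : v ≠ 0) {g : EE (N + 1) ≃ₗᵢ[ℝ] EE (N + 1)}
    (hg : g v = ‖v‖ • (EuclideanSpace.single 0 1 : EE (N + 1))) {K : Set (EE (N + 1))}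
    (iK : ∀ T : EE (N + 1) ≃ₗᵢ[ℝ] EE (N + 1), T v = v → T '' K = K)
    (T : EE (N + 1) ≃ₗᵢ[ℝ] EE (N + 1))
    (hT : T (EuclideanSpace.single 0 1) = EuclideanSpace.single 0 1) :
    T '' (g '' K) = g '' K := by
  have _ := hv
  have h1 : (g.trans (T.trans g.symm)) v = v := by
    show g.symm (T (g v)) = v
    rw [hg, map_smul, hT, ← hg, g.symm_apply_apply]
  have h2 := iK _ h1
  have h3 : g '' ((g.trans (T.trans g.symm)) '' K) = T '' (g '' K) := by
    rw [Set.image_image, Set.image_image]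
    refine Set.image_congr fun x _ => ?_
    show g (g.symm (T (g x))) = T (g x)
    rw [g.apply_symm_apply]
  rw [← h3, h2]

theorem same_axis (hN : 1 ≤ N) {p : ℝ} (hp : 0 < p) (hp1 : p < 1) {K C : Set (EE (N + 1))}
    (hK : Body K) (hC : Body C) (cK : ∫ x in K, x = (0 : EE (N + 1)))
    (cC : ∫ x in C, x = (0 : EE (N + 1))) {v : EE (N + 1)} (hv : v ≠ 0)
    (iK : ∀ T : EE (N + 1) ≃ₗᵢ[ℝ] EE (N + 1), T v = v → T '' K = K)
    (iC : ∀ T : EE (N + 1) ≃ₗᵢ[ℝ] EE (N + 1), T v = v → T '' C = C) (hyp : Hyp p K C) :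
    K = C := by
  obtain ⟨g, hg⟩ := Sax_iso hv
  have hK' : Body (g '' K) := hK.image g.toContinuousLinearEquiv
  have hC' : Body (g '' C) := hC.image g.toContinuousLinearEquiv
  have rK : Rev (closedBall (0 : EE N) 1) (g '' K) :=
    rev_of_inv hN hK'.conv fun T hT => Sax_inv hv hg iK T hT
  have rC : Rev (closedBall (0 : EE N) 1) (g '' C) :=
    rev_of_inv hN hC'.conv fun T hT => Sax_inv hv hg iC T hT
  have cK' : ∫ x in g '' K, x = (0 : EE (N + 1)) := lin_cent hK g.toContinuousLinearEquiv cK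
  have cC' : ∫ x in g '' C, x = (0 : EE (N + 1)) := lin_cent hC g.toContinuousLinearEquiv cC
  have hyp' : Hyp p (g '' K) (g '' C) := hyp_image hK hC hyp g.toContinuousLinearEquiv
  have h := unique_rev hN (ball_body N) hK' hC' rK rC hp hp1 (cent_zero hK'.comp cK')
    (cent_zero hC'.comp cC') hyp'
  exact g.injective.image_injective h

end Pool.Agent.MP9dd972R
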