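import Mathlib
import Pool.Agent.Lib.MP_9dd972_gt_R.Defs
import Pool.Agent.Lib.MP_9dd972_gt_R.Axs

/-!
# MP_9dd972_gt, bodies with homothetic sections: a measure invariant about two axes
-/

set_option autoImplicit false

namespace Pool.Agent.MP9dd972R

open MeasureTheory Set Metric Pool.Agent.MP9dd972N
open scoped ENNReal NNReal Topology Pointwise

private theorem Uni_map {n : ℕ} {μ : Measure (EE n)} (T : EE n ≃ₗᵢ[ℝ] EE n)
    (h : μ.map T = μ) (y : EE n) : charFun μ (T y) = charFun μ y := by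
  have h1 : charFun (μ.map T) (T y) = charFun μ y := by
    rw [charFun_apply, charFun_apply]
    have hT : MeasurableEmbedding (T : EE n → EE n) :=
      T.toHomeomorph.measurableEmbedding
    rw [hT.integral_map]
    simp only [LinearIsometryEquiv.inner_map_map]
  rwa [h] at h1

private theorem Uni_fubini {n : ℕ} {μ ν : Measure (EE n)} [IsFiniteMeasure μ]
    [IsFiniteMeasure ν] (s : ℝ) :
    ∫ u, charFun μ (s • u) ∂ν = ∫ u, charFun ν (s • u) ∂μ := by
  have hint : Integrable (Function.uncurry fun u u' : EE n =>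
      Complex.exp (((inner ℝ u' (s • u) : ℝ) : ℂ) * Complex.I)) (ν.prod μ) := by
    refine Integrable.mono' (integrable_const (1 : ℝ)) ?_
      (Filter.Eventually.of_forall fun z => ?_)
    · apply Continuous.aestronglyMeasurable
      show Continuous fun z : EE n × EE n =>
        Complex.exp (((inner ℝ z.2 (s • z.1) : ℝ) : ℂ) * Complex.I)
      fun_prop
    · exact (Complex.norm_exp_ofReal_mul_I _).le
  have h := integral_integral_swap hint
  have e1 : ∀ u : EE n, charFun μ (s • u) =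
      ∫ u', Complex.exp (((inner ℝ u' (s • u) : ℝ) : ℂ) * Complex.I) ∂μ :=
    fun u => charFun_apply _
  have e2 : ∀ u' : EE n, charFun ν (s • u') =
      ∫ u, Complex.exp (((inner ℝ u' (s • u) : ℝ) : ℂ) * Complex.I) ∂ν := by
    intro u'
    rw [charFun_apply]
    congr 1
    funext u
    rw [inner_smul_right, inner_smul_right, real_inner_comm]
  simp_rw [e1, e2]
  exact h

private theorem Uni_norm {n : ℕ} {μ : Measure (EE n)} [IsFiniteMeasure μ] {f : EE n → ℂ} {c : ℂ}
    (hμ : ∀ᵐ u ∂μ, ‖u‖ = 1) (hf : ∀ u, ‖u‖ = 1 → f u = c) :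
    ∫ u, f u ∂μ = (μ.real univ : ℂ) * c := by
  have h : ∫ u, f u ∂μ = ∫ _u, c ∂μ := by
    apply integral_congr_ae
    filter_upwards [hμ] with u hu
    exact hf u hu
  rw [h, integral_const]
  simp

theorem unique_inv {N : ℕ} (hN : 2 ≤ N) {μ ν : Measure (EE (N + 1))} [IsFiniteMeasure μ]
    [IsFiniteMeasure ν] {v w : EE (N + 1)} (hv : ‖v‖ = 1) (hw : ‖w‖ = 1)
    (hvw : |(inner ℝ v w : ℝ)| < 1) (hμ : ∀ᵐ u ∂μ, ‖u‖ = 1) (hν : ∀ᵐ u ∂ν, ‖u‖ = 1)
    (hm : μ univ = ν univ)
    (i1 : ∀ T : EE (N + 1) ≃ₗᵢ[ℝ] EE (N + 1), T v = v → μ.map T = μ)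
    (i2 : ∀ T : EE (N + 1) ≃ₗᵢ[ℝ] EE (N + 1), T w = w → μ.map T = μ)
    (i3 : ∀ T : EE (N + 1) ≃ₗᵢ[ℝ] EE (N + 1), ν.map T = ν) : μ = ν := by
  by_cases h0 : μ univ = 0
  · have h1 : μ = 0 := Measure.measure_univ_eq_zero.1 h0
    have h2 : ν = 0 := Measure.measure_univ_eq_zero.1 (hm ▸ h0)
    rw [h1, h2]
  have hmr : μ.real univ = ν.real univ := by
    unfold Measure.real
    rw [hm]
  have hm0 : μ.real univ ≠ 0 := by
    unfold Measure.real
    rw [ENNReal.toReal_ne_zero]
    exact ⟨h0, measure_ne_top μ univ⟩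
  -- the characteristic functions are constant on spheres
  have hc : ∀ (s : ℝ) (x : EE (N + 1)), ‖x‖ = 1 → charFun μ (s • x) = charFun μ (s • v) := by
    intro s x hx
    have hcont : Continuous fun x : EE (N + 1) => charFun μ (s • x) := by
      have h1 : Continuous (charFun μ) := continuous_charFun
      exact h1.comp (continuous_const_smul s)
    refine two_axes hN hv hw hvw hcont ?_ ?_ x v hx hv
    · intro T hT y
      show charFun μ (s • T y) = charFun μ (s • y)
      rw [← map_smul, Uni_map T (i1 T hT)]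
    · intro T hT y
      show charFun μ (s • T y) = charFun μ (s • y)
      rw [← map_smul, Uni_map T (i2 T hT)]
  have hd : ∀ (s : ℝ) (x : EE (N + 1)), ‖x‖ = 1 → charFun ν (s • x) = charFun ν (s • v) := by
    intro s x hx
    have h1 : (Submodule.reflection (Submodule.span ℝ {v - x})ᗮ) v = x :=
      Submodule.reflection_sub (hv.trans hx.symm)
    have h2 := Uni_map (Submodule.reflection (Submodule.span ℝ {v - x})ᗮ) (i3 _) (s • v)
    rw [map_smul, h1] at h2
    exact h2
  have key : ∀ s : ℝ, charFun μ (s • v) = charFun ν (s • v) := by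
    intro s
    have h1 := Uni_fubini (μ := μ) (ν := ν) s
    rw [Uni_norm hν (fun u hu => hc s u hu), Uni_norm hμ (fun u hu => hd s u hu), ← hmr] at h1
    have h2 : ((μ.real univ : ℝ) : ℂ) ≠ 0 := by exact_mod_cast hm0
    exact mul_left_cancel₀ h2 h1
  apply Measure.ext_of_charFun
  funext y
  by_cases hy : y = 0
  · have h1 := key 0
    rw [zero_smul] at h1
    rw [hy]
    exact h1
  · have hy' : ‖y‖ ≠ 0 := norm_ne_zero_iff.2 hy
    have h1 : ‖‖y‖⁻¹ • y‖ = 1 := by
      rw [norm_smul, norm_inv, norm_norm, inv_mul_cancel₀ hy']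
    have h2 : ‖y‖ • (‖y‖⁻¹ • y) = y := by
      rw [smul_smul, mul_inv_cancel₀ hy', one_smul]
    have h3 := hc ‖y‖ _ h1
    have h4 := hd ‖y‖ _ h1
    rw [h2] at h3 h4
    rw [h3, h4]
    exact key _

end Pool.Agent.MP9dd972R
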