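import Mathlib
import Pool.Agent.Lib.MP_9dd972_gt.N.Gauge
import Pool.Agent.Lib.MP_9dd972_gt.N.Hypof
import Pool.Agent.Lib.MP_9dd972_gt_R.Defs
import Pool.Agent.Lib.MP_9dd972_gt_R.Sax
import Pool.Agent.Lib.MP_9dd972_gt_R.Iva
import Pool.Agent.Lib.MP_9dd972_gt_R.Ivb
import Pool.Agent.Lib.MP_9dd972_gt_R.Uni

/-!
# MP_9dd972_gt, bodies with homothetic sections: bodies of revolution with any axes
-/

set_option autoImplicit false

namespace Pool.Agent.MP9dd972R

open MeasureTheory Set Metric Pool.Agent.MP9dd972N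
open scoped ENNReal NNReal Topology Pointwise

private theorem ballBody {n : ℕ} {r : ℝ} (hr : 0 < r) : Body (closedBall (0 : EE n) r) where
  conv := convex_closedBall 0 r
  comp := isCompact_closedBall 0 r
  zero := ball_subset_interior_closedBall (mem_ball_self hr)

private theorem ball_cent {n : ℕ} (r : ℝ) : ∫ x in closedBall (0 : EE n) r, x = (0 : EE n) := by
  have h1 : ∫ x in closedBall (0 : EE n) r, x =
      ∫ x, (closedBall (0 : EE n) r).indicator (fun x => x) x :=
    (integral_indicator isClosed_closedBall.measurableSet).symm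
  rw [h1]
  have h2 := integral_neg_eq_self (fun x => (closedBall (0 : EE n) r).indicator (fun x => x) x)
    (volume : Measure (EE n))
  have h3 : (fun x => (closedBall (0 : EE n) r).indicator (fun x => x) (-x)) =
      fun x => -((closedBall (0 : EE n) r).indicator (fun x => x) x) := by
    funext x
    by_cases hx : x ∈ closedBall (0 : EE n) r
    · have hx' : -x ∈ closedBall (0 : EE n) r := by
        rw [mem_closedBall_zero_iff] at hx ⊢
        rwa [norm_neg]
      rw [indicator_of_mem hx, indicator_of_mem hx']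
    · have hx' : -x ∉ closedBall (0 : EE n) r := by
        rw [mem_closedBall_zero_iff] at hx ⊢
        rwa [norm_neg]
      rw [indicator_of_notMem hx, indicator_of_notMem hx', neg_zero]
  rw [h3, integral_neg] at h2
  have h4 : (2 : ℝ) • ∫ x, (closedBall (0 : EE n) r).indicator (fun x => x) x = 0 := by
    rw [two_smul]
    nth_rewrite 1 [← h2]
    exact neg_add_cancel _
  exact (smul_eq_zero.1 h4).resolve_left (by norm_num)

private theorem ball_image {n : ℕ} (r : ℝ) (T : EE n ≃ₗᵢ[ℝ] EE n) :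
    T '' closedBall (0 : EE n) r = closedBall 0 r := by
  rw [T.image_closedBall, map_zero]

theorem two_axes_unique {N : ℕ} (hN : 2 ≤ N) {p : ℝ} (hp : 0 < p) (hp1 : p < 1)
    {K C : Set (EE (N + 1))} (hK : Body K) (hC : Body C)
    (cK : ∫ x in K, x = (0 : EE (N + 1))) (cC : ∫ x in C, x = (0 : EE (N + 1)))
    {v w : EE (N + 1)} (hv : v ≠ 0) (hw : w ≠ 0)
    (iK : ∀ T : EE (N + 1) ≃ₗᵢ[ℝ] EE (N + 1), T v = v → T '' K = K)
    (iC : ∀ T : EE (N + 1) ≃ₗᵢ[ℝ] EE (N + 1), T w = w → T '' C = C) (hyp : Hyp p K C) :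
    K = C := by
  have hN1 : 1 ≤ N := by omega
  have hn : 0 < N + 1 := Nat.succ_pos N
  have hv' : 0 < ‖v‖ := norm_pos_iff.2 hv
  have hw' : 0 < ‖w‖ := norm_pos_iff.2 hw
  by_cases hpar : |(inner ℝ v w : ℝ) / (‖v‖ * ‖w‖)| = 1
  · obtain ⟨-, c, hc, hcw⟩ := (abs_real_inner_div_norm_mul_norm_eq_one_iff v w).1 hpar
    refine same_axis hN1 hp hp1 hK hC cK cC hv iK (fun T hT => iC T ?_) hyp
    rw [hcw, map_smul, hT]
  · set v' : EE (N + 1) := ‖v‖⁻¹ • v with hvd
    set w' : EE (N + 1) := ‖w‖⁻¹ • w with hwd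
    have nv : ‖v'‖ = 1 := by
      rw [hvd, norm_smul, norm_inv, norm_norm, inv_mul_cancel₀ hv'.ne']
    have nw : ‖w'‖ = 1 := by
      rw [hwd, norm_smul, norm_inv, norm_norm, inv_mul_cancel₀ hw'.ne']
    have hin : (inner ℝ v' w' : ℝ) = inner ℝ v w / (‖v‖ * ‖w‖) := by
      rw [hvd, hwd, real_inner_smul_left, real_inner_smul_right]
      field_simp
    have hlt : |(inner ℝ v' w' : ℝ)| < 1 := by
      refine lt_of_le_of_ne ?_ (by rw [hin]; exact hpar)
      have := abs_real_inner_le_norm v' w'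
      rwa [nv, nw, mul_one] at this
    have fixv : ∀ T : EE (N + 1) ≃ₗᵢ[ℝ] EE (N + 1), T v' = v' → T v = v := by
      intro T hT
      have e : v = ‖v‖ • v' := by rw [hvd, smul_smul, mul_inv_cancel₀ hv'.ne', one_smul]
      rw [e, map_smul, hT]
    have fixw : ∀ T : EE (N + 1) ≃ₗᵢ[ℝ] EE (N + 1), T w' = w' → T w = w := by
      intro T hT
      have e : w = ‖w‖ • w' := by rw [hwd, smul_smul, mul_inv_cancel₀ hw'.ne', one_smul]
      rw [e, map_smul, hT]
    obtain ⟨m0, m1⟩ := mu_mass hn hK p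
    have hpn : p < ((N + 1 : ℕ) : ℝ) := by
      push_cast
      have : (0 : ℝ) ≤ N := Nat.cast_nonneg N
      linarith
    obtain ⟨r, hr, hmass⟩ := ball_mass hn hpn m0 m1
    have hB : Body (closedBall (0 : EE (N + 1)) r) := ballBody hr
    have hKC := mu_of_hyp hn hK hC hyp
    haveI : IsFiniteMeasure (HypofAux.mu K p) := ⟨lt_of_le_of_ne le_top m1⟩
    haveI : IsFiniteMeasure (HypofAux.mu (closedBall (0 : EE (N + 1)) r) p) :=
      ⟨by rw [hmass]; exact lt_of_le_of_ne le_top m1⟩
    have hKB : HypofAux.mu K p = HypofAux.mu (closedBall (0 : EE (N + 1)) r) p := by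
      refine unique_inv hN nv nw hlt (mu_unit hn hK p) (mu_unit hn hB p) hmass.symm ?_ ?_ ?_
      · intro T hT
        exact mu_inv hn hK p T (iK T (fixv T hT))
      · intro T hT
        rw [hKC]
        exact mu_inv hn hC p T (iC T (fixw T hT))
      · intro T
        exact mu_inv hn hB p T (ball_image r T)
    have e1 : K = closedBall 0 r :=
      same_axis hN1 hp hp1 hK hB cK (ball_cent r) hv iK (fun T _ => ball_image r T)
        (hyp_of_mu hn hK hB hKB)
    have e2 : C = closedBall 0 r :=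
      same_axis hN1 hp hp1 hC hB cC (ball_cent r) hw iC (fun T _ => ball_image r T)
        (hyp_of_mu hn hC hB (hKC.symm.trans hKB))
    rw [e1, e2]

end Pool.Agent.MP9dd972R
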