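import Mathlib
import Pool.Agent.Lib.MP_9dd972_gt.Top
import Pool.Agent.Lib.MP_9dd972_gt.N.Top
import Pool.Agent.Lib.MP_9dd972_gt_R.Defs
import Pool.Agent.Lib.MP_9dd972_gt_R.Twa

/-!
# MP_9dd972_gt: bodies of revolution, every dimension, every 0 < p < 1
-/

set_option autoImplicit false

namespace Pool.Agent.MP9dd972R

open MeasureTheory Set Metric Pool.Agent.MP9dd972N
open scoped ENNReal NNReal Topology Pointwise

/-- Two centered bodies of revolution with equal L_p surface area measures are equal. -/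
theorem revolution_unique {n : ℕ} (hn : 2 ≤ n) {p : ℝ} (hp : 0 < p) (hp1 : p < 1)
    {K C : Set (EE n)}
    (hK : Convex ℝ K) (hKc : IsCompact K) (hKi : (interior K).Nonempty)
    (hC : Convex ℝ C) (hCc : IsCompact C) (hCi : (interior C).Nonempty)
    (cK : ∫ x in K, x = (0 : EE n)) (cC : ∫ x in C, x = (0 : EE n))
    {v w : EE n} (hv : v ≠ 0) (hw : w ≠ 0)
    (iK : ∀ T : EE n ≃ₗᵢ[ℝ] EE n, T v = v → T '' K = K)
    (iC : ∀ T : EE n ≃ₗᵢ[ℝ] EE n, T w = w → T '' C = C)
    (h : ∀ ω : Set (EE n), MeasurableSet ω → ω ⊆ sphere (0 : EE n) 1 →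
      LpN p K ω = LpN p C ω) : K = C := by
  have bK : Body K := body_of_centred hK hKc hKi cK
  have bC : Body C := body_of_centred hC hCc hCi cC
  rcases Nat.lt_or_ge n 3 with h3 | h3
  · obtain rfl : n = 2 := by omega
    exact Pool.Agent.MP9dd972.planar_uniqueness
      (Pool.Agent.MP9dd972.lpair_of_eq (Pool.Agent.MP9dd972.body_of_centred hK hKc hKi cK)
        (Pool.Agent.MP9dd972.body_of_centred hC hCc hCi cC) hp hp1 h) cK cC
  · obtain ⟨N, rfl⟩ : ∃ N, n = N + 1 := ⟨n - 1, by omega⟩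
    exact two_axes_unique (by omega) hp hp1 bK bC cK cC hv hw iK iC
      (hyp_of_lpn (by omega) hp hp1 bK bC h)

end Pool.Agent.MP9dd972R
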